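import Pool.Agent.MP_57341d_ag.H33.Gen

/-! Abelian varieties without extra endomorphisms. -/

open GPC73 GPC42 Module Matrix Complex

namespace GPC33

variable {g N G N' : ℕ}

/-- `B` is a power of `A`. -/
structure Pow (A : AbVar g N) (κ : Type) [DecidableEq κ] (B : AbVar G N') where
  e : Fin (2 * G) ≃ Fin (2 * g) × κ
  hJ : ∀ i i', B.J i i' = if (e i).2 = (e i').2 then A.J (e i).1 (e i').1 else 0
  hdR : ∀ η ∈ A.dR, ∀ a, (fun i => if (e i).2 = a then η (e i).1 else 0) ∈ B.dR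

theorem ea_J {g₁ g₂ N₁ N₂ : ℕ} (A₁ : AbVar g₁ N₁) (A₂ : AbVar g₂ N₂)
    (e : Fin (2 * (g₁ + g₂)) ≃ Fin (2 * g₁) ⊕ Fin (2 * g₂)) (C : AbVar (g₁ + g₂) N)
    (hω : ∀ j, C.ω j = pω A₁ A₂ e j) (j k : Fin (2 * (g₁ + g₂))) :
    C.J j k = fromBlocks A₁.J 0 0 A₂.J (e j) (e k) := by
  have h : I • C.ω j = ∑ k, fromBlocks A₁.J 0 0 A₂.J (e j) (e k) • C.ω k := by
    simp only [hω, pω]
    rw [e.sum_comp fun s => fromBlocks A₁.J 0 0 A₂.J (e j) s • Sum.elim
      (fun j => Fin.append (A₁.ω j) (0 : Fin g₂ → ℂ)) (fun j => Fin.append 0 (A₂.ω j)) s]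
    rcases e j with a | a <;> refine pr_ext ?_ ?_ <;>
      simp [map_sum, pr₁_append, pr₂_append, J_spec]
  have := congrArg (fun z => C.ω.repr z k) h
  simpa [Finsupp.single_apply, AbVar.J] using this

theorem ea_map {A : AbVar g N} {B : AbVar G N'} {κ κ' : Type} [DecidableEq κ] [DecidableEq κ']
    (T : Pow A κ B) (σ : κ ≃ κ') : Nonempty (Pow A κ' B) :=
  ⟨⟨T.e.trans ((Equiv.refl _).prodCongr σ), fun i i' => by simp [T.hJ], fun η h a => by
    simpa [σ.eq_symm_apply] using T.hdR η h (σ.symm a)⟩⟩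

theorem ea_step {A : AbVar g N} {B : AbVar G N'} {κ : Type} [DecidableEq κ] (T : Pow A κ B) :
    ∃ (M : ℕ) (C : AbVar (G + g) M), Nonempty (Pow A (κ ⊕ Unit) C) := by
  have e : Fin (2 * (G + g)) ≃ Fin (2 * G) ⊕ Fin (2 * g) :=
    (finCongr (by ring)).trans finSumFinEquiv.symm
  obtain ⟨M, C, hω, d₁, d₂⟩ := exists_prod B A e
  refine ⟨M, C, ⟨⟨e.trans ((T.e.sumCongr (Equiv.prodUnique _ Unit).symm).trans
    (Equiv.prodSumDistrib _ _ _).symm), fun i i' => ?_, fun η h a => ?_⟩⟩⟩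
  · rw [ea_J B A e C hω, Equiv.trans_apply e, Equiv.trans_apply e]
    rcases e i with x | x <;> rcases e i' with y | y <;>
      simp [T.hJ, Equiv.prodSumDistrib, Equiv.sumProdDistrib]
  · rcases a with a | a
    · convert d₁ _ (T.hdR η h a) using 2 with i
      rw [Equiv.trans_apply]
      rcases e i with x | x <;> simp [Equiv.prodSumDistrib, Equiv.sumProdDistrib]
    · convert d₂ η h using 2 with i
      rw [Equiv.trans_apply]
      rcases e i with x | x <;> simp [Equiv.prodSumDistrib, Equiv.sumProdDistrib]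

/-- Induction on `k` for `κ = Fin (k + 1)` with `exists_prod` (`Fin.snoc` or `finSuccEquivLast`,
`Equiv.prodSumDistrib`).  For the product, `I • pω j = ∑ …` (`J_spec`) determines `J` since `ω` is a
basis.  Then transport along `Fintype.equivFinOfCardEq`. -/
theorem exists_pow (A : AbVar g N) (κ : Type) [Fintype κ] [DecidableEq κ] [Nonempty κ] :
    ∃ (G N' : ℕ) (B : AbVar G N'), Nonempty (Pow A κ B) := by
  have key : ∀ k : ℕ, ∃ (G N' : ℕ) (B : AbVar G N'), Nonempty (Pow A (Fin (k + 1)) B) := by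
    intro k
    induction k with
    | zero =>
      exact ⟨g, N, A, ea_map (κ := Unit) ⟨(Equiv.prodUnique _ _).symm, fun i i' => by simp,
        fun η h a => by simpa using h⟩ (Fintype.equivFinOfCardEq (by simp))⟩
    | succ k ih =>
      obtain ⟨G, N', B, ⟨T⟩⟩ := ih
      obtain ⟨M, C, ⟨T'⟩⟩ := ea_step T
      exact ⟨_, M, C, ea_map T' (Fintype.equivFinOfCardEq (by simp))⟩
  obtain ⟨k, hk⟩ := Nat.exists_eq_succ_of_ne_zero (Fintype.card_ne_zero (α := κ))
  obtain ⟨G, N', B, ⟨T⟩⟩ := key k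
  exact ⟨G, N', B, ea_map T (Fintype.equivFinOfCardEq hk).symm⟩

/-- Alternating matrices. -/
def alt (F ι : Type) [Field F] : Submodule F (Matrix ι ι F) where
  carrier := {M | Mᵀ = -M}
  add_mem' := fun {M M'} h h' => by
    show (M + M')ᵀ = _
    rw [transpose_add, h, h', neg_add]
  zero_mem' := by simp
  smul_mem' := fun c M h => by
    show (c • M)ᵀ = _
    rw [transpose_smul, h, smul_neg]

/-- Matrices whose rows lie in `S`. -/
def rows {F ι : Type} [Field F] (S : Submodule F (ι → F)) : Submodule F (Matrix ι ι F) :=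
  Submodule.pi Set.univ fun _ => S

theorem eb_two (n : ℕ) : 2 * n.choose 2 + n = n ^ 2 := by
  induction n with
  | zero => rfl
  | succ n ih =>
    rw [Nat.choose_succ_succ' n 1, Nat.choose_one_right]
    nlinarith

theorem eb_rank (F ι : Type) [Field F] [CharZero F] [Fintype ι] [LinearOrder ι] :
    finrank F (alt F ι) = (Fintype.card ι).choose 2 := by
  let φ : alt F ι →ₗ[F] ({p : ι × ι // p.1 < p.2} → F) :=
    LinearMap.pi fun p => (Matrix.entryLinearMap F F p.1.1 p.1.2).comp (alt F ι).subtype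
  have hφ : Function.Bijective φ := by
    refine ⟨(injective_iff_map_eq_zero φ).2 fun M h => Subtype.ext (Matrix.ext fun i j => ?_),
      fun f => ?_⟩
    · have h1 : ∀ i j, M.1 j i = -M.1 i j := fun i j => congrFun (congrFun M.2 i) j
      have h2 : ∀ i j, i < j → M.1 i j = 0 := fun i j hij => congrFun h ⟨(i, j), hij⟩
      show M.1 i j = 0
      rcases lt_trichotomy i j with hij | rfl | hij
      · exact h2 i j hij
      · exact self_eq_neg.1 (h1 i i)
      · rw [h1, h2 j i hij, neg_zero]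
    · refine ⟨⟨Matrix.of fun i j => if h : i < j then f ⟨(i, j), h⟩ else
        if h : j < i then -f ⟨(j, i), h⟩ else 0, Matrix.ext fun i j => ?_⟩, funext fun p => ?_⟩
      · rcases lt_trichotomy i j with hij | rfl | hij
        · simp [hij, hij.not_gt]
        · simp
        · simp [hij, hij.not_gt]
      · simp [φ, p.2]
  rw [(LinearEquiv.ofBijective φ hφ).finrank_eq, finrank_fintype_fun_eq_card, Fintype.card_subtype,
    Fintype.card_product_filter_lt]

/-- For `ι = Fin k` restrict to the entries above the diagonal (a linear bijection onto the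
functions on `{p // p.1 < p.2}`; `Finset.card_product_filter_lt`, `Nat.choose_two_right`); in general
reindex. -/
theorem alt_rank (F ι : Type) [Field F] [CharZero F] [Fintype ι] :
    2 * finrank F (alt F ι) + Fintype.card ι = Fintype.card ι ^ 2 := by
  classical
  rw [@eb_rank F ι _ _ _ (LinearOrder.lift' _ (Fintype.equivFin ι).injective), eb_two]

/-- Take `C` with columns a basis of `S` and a left inverse `C'` (`lib_left`).  If the rows of the
alternating matrix `M` lie in `S` then `M = C (C' M C'ᵀ) Cᵀ`, so `M ↦ C' M C'ᵀ` is injective with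
values in `alt F (Fin k)`. -/
theorem alt_rows {F ι : Type} [Field F] [CharZero F] [Fintype ι] (S : Submodule F (ι → F)) :
    2 * finrank F (alt F ι ⊓ rows S : Submodule F _) + finrank F S ≤ finrank F S ^ 2 := by
  let b := Module.finBasis F S
  let ψ : S →ₗ[F] (Fin (finrank F S) → F) := b.equivFun.toLinearMap
  obtain ⟨ρ, hρ⟩ := LinearMap.exists_extend ψ
  have hρ' : ∀ v ∈ S, ρ v = 0 → v = 0 := fun v hv h => by
    have h1 : b.equivFun ⟨v, hv⟩ = 0 := (LinearMap.congr_fun hρ ⟨v, hv⟩).symm.trans h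
    exact congrArg Subtype.val (b.equivFun.map_eq_zero_iff.1 h1)
  classical
  let C := LinearMap.toMatrix' ρ
  have hC : ∀ v, C *ᵥ v = ρ v := fun v => LinearMap.toMatrix'_mulVec ρ v
  have hk : ∀ {κ : Type} (M : Matrix κ ι F), (∀ i, M i ∈ S) → M * Cᵀ = 0 → M = 0 := by
    intro κ M hM h
    refine funext fun i => hρ' _ (hM i) ?_
    rw [← hC]
    funext a
    have := congrFun (congrFun h i) a
    simpa [Matrix.mul_apply, Matrix.mulVec, dotProduct, mul_comm] using this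
  let φ : (alt F ι ⊓ rows S : Submodule F _) →ₗ[F] alt F (Fin (finrank F S)) :=
    { toFun := fun M => ⟨C * M.1 * Cᵀ, by
        show (C * M.1 * Cᵀ)ᵀ = -(C * M.1 * Cᵀ)
        have h : M.1ᵀ = -M.1 := M.2.1
        rw [transpose_mul, transpose_mul, transpose_transpose, h, Matrix.neg_mul, Matrix.mul_neg,
          Matrix.mul_assoc]⟩
      map_add' := fun M M' => Subtype.ext (by simp [Matrix.mul_add, Matrix.add_mul])
      map_smul' := fun c M => Subtype.ext (by simp) }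
  have hφ : Function.Injective φ := by
    refine (injective_iff_map_eq_zero φ).2 fun M h => Subtype.ext ?_
    have h0 : C * M.1 * Cᵀ = 0 := congrArg Subtype.val h
    have h1 : M.1ᵀ = -M.1 := M.2.1
    have h2 : ∀ i, M.1 i ∈ S := fun i => M.2.2 i trivial
    have h3 : C * M.1 = 0 := hk _ (fun a => by
      have : (C * M.1) a = ∑ i, C a i • M.1 i := by
        funext j
        simp [Matrix.mul_apply]
      rw [this]
      exact S.sum_mem fun i _ => S.smul_mem _ (h2 i)) h0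
    refine hk _ h2 ?_
    have h4 := congrArg Matrix.transpose h3
    rwa [transpose_mul, h1, Matrix.neg_mul, transpose_zero, neg_eq_zero] at h4
  have h1 := LinearMap.finrank_le_finrank_of_injective hφ
  have h2 := alt_rank F (Fin (finrank F S))
  rw [Fintype.card_fin] at h2
  omega

variable {A : AbVar g N} {B : AbVar G N'}

/-- Vectors as matrices. -/
def Pow.mat (T : Pow A (Fin (2 * g)) B) (R : Type) [Field R] :
    (Fin (2 * G) → R) ≃ₗ[R] Matrix (Fin (2 * g)) (Fin (2 * g)) R :=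
  (LinearEquiv.funCongrLeft R R T.e.symm).trans (LinearEquiv.curry R R _ _)

theorem Pow.mat_apply (T : Pow A (Fin (2 * g)) B) (R : Type) [Field R] (v : Fin (2 * G) → R)
    (j a : Fin (2 * g)) : T.mat R v j a = v (T.e.symm (j, a)) := rfl

/-- The primitive part of the exterior square. -/
def Pow.V (T : Pow A (Fin (2 * g)) B) (F : Matrix (Fin (2 * g)) (Fin (2 * g)) ℚ) :
    Submodule ℚ (Fin (2 * G) → ℚ) :=
  (alt ℚ _ ⊓ LinearMap.ker (Matrix.traceLinearMap _ ℚ ℚ ∘ₗ LinearMap.mulLeft ℚ F)).comap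
    (T.mat ℚ).toLinearMap

variable (T : Pow A (Fin (2 * g)) B) {F : Matrix (Fin (2 * g)) (Fin (2 * g)) ℚ}

/-- `F⁻¹` is alternating and `trace (F * F⁻¹) = 2 g ≠ 0`; `alt_rank`,
`Submodule.finrank_lt_finrank_of_lt`. -/
theorem V_rank (hF : Rf A F) (hg : 1 ≤ g) :
    2 * (finrank ℚ (T.V F) + 1) + 2 * g ≤ (2 * g) ^ 2 := by
  have h1 := alt_rank ℚ (Fin (2 * g))
  have h2 : (alt ℚ _ ⊓ LinearMap.ker (Matrix.traceLinearMap _ ℚ ℚ ∘ₗ LinearMap.mulLeft ℚ F) :
      Submodule ℚ (Matrix (Fin (2 * g)) (Fin (2 * g)) ℚ)) < alt ℚ _ := by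
    have ha : F⁻¹ ∈ alt ℚ (Fin (2 * g)) := by
      show F⁻¹ᵀ = -F⁻¹
      rw [transpose_nonsing_inv, hF.skew]
      exact inv_eq_left_inv (by rw [neg_mul_neg, nonsing_inv_mul _ hF.det.isUnit])
    refine lt_of_le_of_ne inf_le_left fun h => ?_
    have hb : trace (F * F⁻¹) = 0 := (h.ge ha).2
    rw [mul_nonsing_inv _ hF.det.isUnit, trace_one, Fintype.card_fin, Nat.cast_eq_zero] at hb
    omega
  have h3 := Submodule.finrank_lt_finrank_of_lt h2
  rw [Fintype.card_fin] at h1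
  rw [Pow.V, Submodule.comap_equiv_eq_map_symm, LinearEquiv.finrank_map_eq]
  omega

theorem ec_cx {y : Fin (2 * G) → ℂ} (h1 : (T.mat ℂ y)ᵀ = -T.mat ℂ y)
    (h2 : trace (F.map (Rat.cast : ℚ → ℂ) * T.mat ℂ y) = 0) : y ∈ cx (T.V F) := by
  refine (mem_bc (T.V F) y).2 fun π => ⟨?_, ?_⟩
  · ext j a
    exact (congrArg π (congrFun (congrFun h1 j) a)).trans (map_neg π _)
  · refine Eq.trans ?_ ((congrArg π h2).trans (map_zero π))
    show trace (F * _) = _
    simp only [trace, diag_apply, mul_apply, map_sum, map_apply, ← Rat.smul_def, map_smul,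
      smul_eq_mul]
    rfl

theorem ec_hol {y : Fin (2 * G) → ℂ} (h : A.J.map ofReal * T.mat ℂ y = I • T.mat ℂ y) :
    y ∈ hol B := by
  refine hol_of_J B (funext fun i => ?_)
  obtain ⟨⟨j, a⟩, rfl⟩ := T.e.symm.surjective i
  refine Eq.trans ?_ (congrFun (congrFun h j) a)
  rw [mulVec, dotProduct, ← T.e.symm.sum_comp, Fintype.sum_prod_type, mul_apply]
  refine Finset.sum_congr rfl fun k _ => ?_
  simp [T.hJ, apply_ite ofReal, T.mat_apply]

/-- The map `S ↦ (T.mat ℂ).symm (W * S * Wᵀ)`, `W j i = ω j i`, is injective on `alt ℂ (Fin g)`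
(`W` has a left inverse, `hol_rank`).  Its values lie in `cx V` (`mem_bc`; the trace vanishes by
`Rf.iso`) and in `hol B` (`hol_of_J`, `T.hJ`, `J_hol` for the columns). -/
theorem V_hol (hF : Rf A F) :
    g ^ 2 ≤ 2 * finrank ℂ (cx (T.V F) ⊓ hol B : Submodule ℂ _) + g := by
  obtain ⟨W, hW⟩ : ∃ W : Matrix (Fin (2 * g)) (Fin g) ℂ, W.col = fun i j => A.ω j i :=
    ⟨Matrix.of fun j i => A.ω j i, rfl⟩
  have hm : ∀ i, W.col i ∈ hol A := fun i => hW ▸ Submodule.subset_span ⟨i, rfl⟩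
  obtain ⟨W', hW'⟩ := lib_left W (linearIndependent_iff_card_eq_finrank_span.2 (by
    rw [hW, Fintype.card_fin]; exact (hol_rank A).symm))
  have hJ : A.J.map ofReal * W = I • W := by
    ext j i
    exact congrFun (J_hol A (hm i)) j
  have hi : Wᵀ * (F.map (Rat.cast : ℚ → ℂ) * W) = 0 := by
    ext i k
    exact hF.iso (hm i) (hm k)
  let Φ : Matrix (Fin g) (Fin g) ℂ →ₗ[ℂ] Fin (2 * G) → ℂ :=
    (T.mat ℂ).symm.toLinearMap ∘ₗ mulRightLinearMap _ ℂ Wᵀ ∘ₗ mulLeftLinearMap _ ℂ W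
  have hΦ : ∀ S, T.mat ℂ (Φ S) = W * S * Wᵀ := fun S => (T.mat ℂ).apply_symm_apply _
  have hinj : Function.Injective Φ := Function.LeftInverse.injective
    (g := fun y => W' * T.mat ℂ y * W'ᵀ) fun S => by
      show W' * T.mat ℂ (Φ S) * W'ᵀ = S
      rw [hΦ, ← Matrix.mul_assoc, ← Matrix.mul_assoc, hW', Matrix.one_mul, Matrix.mul_assoc,
        ← transpose_mul, hW', transpose_one, Matrix.mul_one]
  have hle : (alt ℂ (Fin g)).map Φ ≤ cx (T.V F) ⊓ hol B := by
    rintro _ ⟨S, hS, rfl⟩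
    refine ⟨ec_cx T ?_ ?_, ec_hol T ?_⟩ <;> rw [hΦ]
    · rw [transpose_mul, transpose_mul, transpose_transpose, show Sᵀ = -S from hS,
        Matrix.neg_mul, Matrix.mul_neg, Matrix.mul_assoc]
    · rw [← Matrix.mul_assoc, trace_mul_comm, ← Matrix.mul_assoc _ W, ← Matrix.mul_assoc, hi,
        Matrix.zero_mul, trace_zero]
    · rw [← Matrix.mul_assoc, ← Matrix.mul_assoc, hJ, Matrix.smul_mul, Matrix.smul_mul]
  have h1 := Submodule.finrank_mono hle
  have h2 := alt_rank ℂ (Fin g)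
  rw [← (Submodule.equivMapOfInjective Φ hinj _).finrank_eq] at h1
  rw [Fintype.card_fin] at h2
  omega

theorem ed_sum {R : Type} [AddCommMonoid R] {κ : Type} [Fintype κ] [DecidableEq κ]
    (T : Pow A κ B) (φ : Fin (2 * G) → R) : ∑ i, φ i = ∑ k, ∑ b, φ (T.e.symm (k, b)) := by
  rw [← T.e.symm.sum_comp, Fintype.sum_prod_type]

theorem ed_rows {F ι : Type} [Field F] [Fintype ι] (S : Submodule F (ι → F)) :
    finrank F (rows S) = Fintype.card ι * finrank F S := by
  have h : rows S = LinearMap.range (S.subtype.compLeft ι) := by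
    ext M
    constructor
    · intro hM
      exact ⟨fun j => ⟨M j, hM j trivial⟩, rfl⟩
    · rintro ⟨x, rfl⟩ j _
      exact (x j).2
  have h2 := LinearMap.finrank_range_of_inj (f := S.subtype.compLeft ι) fun x y hxy =>
    funext fun j => Subtype.ext (congrFun hxy j)
  rw [h]
  exact h2.trans (by rw [Module.finrank_pi_fintype]; simp)

theorem ed_arith {x y k q : ℕ} (h5 : x ≤ y) (h3 : 2 * y + k ≤ k ^ 2) (h4 : k ≤ q) :
    2 * q * x ≤ (q - 1) * (q * k) := by
  rcases q with _ | q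
  · simp
  · have h6 : 2 * x ≤ q * k := by nlinarith
    calc 2 * (q + 1) * x = (q + 1) * (2 * x) := by ring
      _ ≤ (q + 1) * (q * k) := Nat.mul_le_mul_left _ h6
      _ = _ := by rw [Nat.add_sub_cancel]; ring

theorem ed_comap (S : Submodule ℚ (Matrix (Fin (2 * g)) (Fin (2 * g)) ℚ)) :
    finrank ℚ (S.comap (T.mat ℚ).toLinearMap) = finrank ℚ S := by
  rw [Submodule.comap_equiv_eq_map_symm, LinearEquiv.finrank_map_eq]

/-- `f` from `exists_proj`.  Its blocks `f (e.symm (·, a)) (e.symm (·, a'))` commute with `A.J`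
(`T.hJ`), so they are scalars `c a a'`, and `T.mat (f *ᵥ v) = T.mat v * cᵀ`.  With `S` the space of
vectors fixed by `c`, `ann U` corresponds to `rows S`, of dimension `2 g * finrank S`. -/
theorem ann_rows (hE : ∀ Y : Matrix (Fin (2 * g)) (Fin (2 * g)) ℚ,
      Y.map (Rat.cast : ℚ → ℝ) * A.J = A.J * Y.map (Rat.cast : ℚ → ℝ) → ∃ c : ℚ, Y = c • 1)
    {U : Submodule ℂ (Fin G → ℂ)} (hU : B.IsSub U) : ∃ S : Submodule ℚ (Fin (2 * g) → ℚ),
      B.ann U = (rows S).comap (T.mat ℚ).toLinearMap ∧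
        finrank ℚ (B.ann U) = 2 * g * finrank ℚ S := by
  obtain ⟨f, hfJ, hf1, hf2⟩ := exists_proj hU
  have hc : ∀ a a', ∃ c : ℚ, (Matrix.of fun j j' => f (T.e.symm (j, a)) (T.e.symm (j', a'))) =
      c • (1 : Matrix (Fin (2 * g)) (Fin (2 * g)) ℚ) := fun a a' => hE _ (by
    ext j j'
    have := congrFun (congrFun hfJ (T.e.symm (j, a))) (T.e.symm (j', a'))
    simp only [Matrix.mul_apply, ed_sum T, T.hJ, Equiv.apply_symm_apply, Matrix.map_apply,
      mul_ite, ite_mul, mul_zero, zero_mul, Finset.sum_ite_eq, Finset.sum_ite_eq', Finset.mem_univ,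
      if_true] at this
    simpa only [Matrix.mul_apply, Matrix.map_apply, Matrix.of_apply] using this)
  choose c hc using hc
  have hm : ∀ v j, T.mat ℚ (f *ᵥ v) j = Matrix.of c *ᵥ T.mat ℚ v j := fun v j => by
    funext a
    have h1 : ∀ k b, f (T.e.symm (j, a)) (T.e.symm (k, b)) = if j = k then c a b else 0 :=
      fun k b => by simpa [Matrix.one_apply] using congrFun (congrFun (hc a b) j) k
    simp only [Pow.mat_apply, Matrix.mulVec, dotProduct, ed_sum T, h1, ite_mul, zero_mul,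
      Matrix.of_apply]
    rw [Finset.sum_comm]
    simp
  have h : B.ann U = (rows (LinearMap.eqLocus (Matrix.of c).mulVecLin LinearMap.id)).comap
      (T.mat ℚ).toLinearMap := by
    ext v
    constructor
    · intro hv j _
      exact (hm v j).symm.trans (by rw [hf2 v hv]; rfl)
    · intro hv
      have : f *ᵥ v = v := (T.mat ℚ).injective (funext fun j => (hm v j).trans (hv j trivial))
      exact this ▸ hf1 v
  exact ⟨_, h, by rw [h, ed_comap, ed_rows, Fintype.card_fin]⟩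

/-- `ann_rows`, `alt_rows`, `finrank S ≤ 2 g`. -/
theorem V_semi (hE : ∀ Y : Matrix (Fin (2 * g)) (Fin (2 * g)) ℚ,
      Y.map (Rat.cast : ℚ → ℝ) * A.J = A.J * Y.map (Rat.cast : ℚ → ℝ) → ∃ c : ℚ, Y = c • 1)
    (F : Matrix (Fin (2 * g)) (Fin (2 * g)) ℚ) {U : Submodule ℂ (Fin G → ℂ)} (hU : B.IsSub U) :
    2 * (2 * g) * finrank ℚ (T.V F ⊓ B.ann U : Submodule ℚ _) ≤
      (2 * g - 1) * finrank ℚ (B.ann U) := by
  obtain ⟨S, h1, h2⟩ := ann_rows T hE hU
  have h3 := alt_rows S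
  have h4 : finrank ℚ S ≤ 2 * g := by simpa using S.finrank_le
  have h5 : finrank ℚ (T.V F ⊓ B.ann U : Submodule ℚ _) ≤
      finrank ℚ (alt ℚ (Fin (2 * g)) ⊓ rows S : Submodule ℚ _) := by
    rw [← ed_comap T]
    refine Submodule.finrank_mono fun v hv => ⟨hv.1.1, ?_⟩
    have := hv.2
    rw [h1] at this
    exact this
  rw [h2]
  exact ed_arith h5 h3 h4

theorem ee_arith {g m h : ℕ} (hg : 2 ≤ g) (h1 : 2 * (m + 1) + 2 * g ≤ (2 * g) ^ 2)
    (h2 : g ^ 2 ≤ 2 * h + g) (h3 : h ≤ m)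
    (h4 : m * (2 * (2 * g) - (2 * g - 1)) ≤ 2 * g * (m - 2 * h) * 2) : False := by
  rw [show 2 * (2 * g) - (2 * g - 1) = 2 * g + 1 by omega] at h4
  obtain ⟨k, rfl⟩ := Nat.exists_eq_add_of_le hg
  rcases le_total m (2 * h) with h5 | h5
  · rw [Nat.sub_eq_zero_of_le h5] at h4
    nlinarith
  · obtain ⟨d, rfl⟩ := Nat.exists_eq_add_of_le h5
    rw [Nat.add_sub_cancel_left] at h4
    nlinarith [Nat.mul_le_mul_left (2 * k + 3) h1, Nat.mul_le_mul_left (2 + k) h2]

/-- `P` from `exists_basis` (transposed), `ζ = P⁻¹ a i ≠ 0`; `ζ * P j b` is an entry of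
`P⁻¹ (single i j 1) P`.  The block vectors of the columns of `P` form a basis inside `B.dR`
(`T.hdR`); `dR_repr`. -/
theorem pow_alg {κ : Type} [Fintype κ] [DecidableEq κ] (T : Pow A κ B) (hg : 1 ≤ g) :
    ∃ ζ : ℂ, ζ ≠ 0 ∧ ∀ η ∈ B.dR, ∀ j, IsAlgebraic (A.perEnd Set.univ) (ζ * η j) := by
  obtain ⟨P, hP, hr⟩ := exists_basis A
  have hP' : Pᵀ.det ≠ 0 := by rwa [det_transpose]
  obtain ⟨a, i, hζ⟩ : ∃ a i, Pᵀ⁻¹ a i ≠ 0 := by
    by_contra h
    push Not at h
    have := congrFun (congrFun (nonsing_inv_mul _ hP'.isUnit) ⟨0, by omega⟩) ⟨0, by omega⟩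
    simp [Matrix.mul_apply, h] at this
  have key : ∀ b j, Pᵀ⁻¹ a i * P b j ∈ A.perEnd Set.univ := fun b j =>
    IntermediateField.subset_adjoin _ _ ⟨Pᵀ, hP', hr, single i j 1, trivial, a, b, by
      simp [Matrix.mul_apply, single_apply, apply_ite, ite_and, Finset.sum_ite_eq]⟩
  have hv : LinearIndependent ℂ fun (x : Fin (2 * g) × κ) (k : Fin (2 * G)) =>
      if (T.e k).2 = x.2 then P x.1 (T.e k).1 else 0 := by
    refine Fintype.linearIndependent_iff.2 fun x hx y => ?_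
    have : (fun b => x (b, y.2)) ᵥ* P = 0 := funext fun j => by
      simpa [Fintype.sum_prod_type, vecMul, dotProduct] using congrFun hx (T.e.symm (j, y.2))
    exact congrFun (eq_zero_of_vecMul_eq_zero hP this) y.1
  refine ⟨_, hζ, fun η hη j => ?_⟩
  obtain ⟨c, hc, rfl⟩ := dR_repr (A := B) hv
    ((Fintype.card_congr T.e.symm).trans (Fintype.card_fin _))
    (fun x => Submodule.subset_span (T.hdR _ (hr x.1) x.2)) (Submodule.subset_span hη)
  rw [Finset.sum_apply, Finset.mul_sum]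
  refine mem_clo.1 (sum_mem fun x _ => ?_)
  rw [Pi.smul_apply, smul_eq_mul, mul_left_comm]
  refine mul_mem (mem_clo.2 ((hc x).tower_top _)) ?_
  split_ifs
  · exact mem_clo.2 (isAlgebraic_algebraMap (⟨_, key _ _⟩ : A.perEnd Set.univ))
  · rw [mul_zero]
    exact zero_mem _

/-- `gen_b` for the power, `V = T.V F`, `p = 2 g - 1`, `q = 2 g`, `Z = ζ • 1`.  If the degree is
`≤ 2` then `m (2 g + 1) ≤ 4 g (m - 2 h)` with `2 h ≥ g ^ 2 - g`, `m + 1 + g ≤ 2 g ^ 2`.  If `m = 0`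
the bound on `h` fails (`h ≤ m`, `cx_rank`); otherwise `4 g ^ 2 (g - 1) ≤ m (2 g - 1)`. -/
theorem three_le (A : AbVar g N) (hg : 2 ≤ g) (hE : ∀ Y : Matrix (Fin (2 * g)) (Fin (2 * g)) ℚ,
      Y.map (Rat.cast : ℚ → ℝ) * A.J = A.J * Y.map (Rat.cast : ℚ → ℝ) → ∃ c : ℚ, Y = c • 1) :
    3 ≤ Algebra.trdeg ℚ (A.perEnd Set.univ) := by
  have : Nonempty (Fin (2 * g)) := ⟨⟨0, by omega⟩⟩
  obtain ⟨G, N', B, ⟨T⟩⟩ := exists_pow A (Fin (2 * g))
  obtain ⟨F, hF⟩ := exists_rf A
  obtain ⟨ζ, hζ, hz⟩ := pow_alg T (by omega)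
  have e : ∀ v : Fin (2 * G) → ℂ, (ζ • (1 : Matrix _ _ ℂ)) *ᵥ v = ζ • v := fun v => by
    rw [smul_mulVec, one_mulVec]
  have h := gen_b B (T.V F) (p := 2 * g - 1) (q := 2 * g) (by omega) (by omega)
    (fun U hU => V_semi T hE F hU) (fun h => by omega) (ζ • 1) (by simp [hζ])
    (fun v hv => e v ▸ Submodule.smul_mem _ _ hv) (fun U _ v hv => e v ▸ Submodule.smul_mem _ _ hv)
    (A.perEnd Set.univ) (fun η hη j => by rw [e]; exact hz η hη j)
  have h1 := V_rank T hF (by omega)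
  have h2 := V_hol T hF
  have h3 : finrank ℂ (cx (T.V F) ⊓ hol B : Submodule ℂ _) ≤ finrank ℚ (T.V F) :=
    cx_rank (T.V F) ▸ Submodule.finrank_mono inf_le_left
  by_contra hlt
  have h4 : Algebra.trdeg ℚ (A.perEnd Set.univ) ≤ ((2 : ℕ) : Cardinal) :=
    Order.lt_succ_iff.1 (by rw [Cardinal.succ_natCast]; exact_mod_cast not_le.1 hlt)
  exact ee_arith hg h1 h2 h3 (by exact_mod_cast h.trans (mul_le_mul_right h4 _))

end GPC33
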