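import Pool.Agent.MP_57341d_ag.H33.Zb
import Pool.Agent.MP_57341d_ag.H42.Mid

attribute [-instance] CommRing.toRing SetLike.GradeZero.instMonoid AddQuantale.instAddLeftMono
  SubringClass.toRing IdemSemiring.toCanonicallyOrderedAdd RKHS.instFunLike
  SetLike.GradeZero.instRing AddQuantale.instAddRightMono IdemSemiring.toMulLeftMono
  IsTopologicalTorsor.toContinuousSMul LieAdmissibleAlgebra.toModule LeftPreLieAlgebra.toModule
  bot_nonempty IsOrderedMonoid.toMulLeftMono MonTypeEquivalenceMon.monMonoid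
  RightPreLieAlgebra.toModule NumberField.to_charZero Quantale.instMulRightMono
  NonarchimedeanAddGroup.toIsTopologicalAddGroup instCoeOTCOfCoeTC GroupConeClass.toSubmonoidClass
  NonarchimedeanRing.toIsTopologicalRing Quantale.instMulLeftMono
  AddGroupConeClass.toAddSubmonoidClass Nontrivial.to_nonempty AddCommGroupWithOne.toAddGroupWithOne
  instCoeHTCOfCoeHeadOfCoeOTC instCoeTOfCoeDep instCoeHTCTOfCoeTailOfCoeHTC Valued.toUniformSpace
  Zero.instNonempty covariant_swap_mul_of_covariant_mul MulSemiringAction.toDistribMulAction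
  TestFunctionClass.toDFunLike Valued.isTopologicalDivisionRing
  ContDiffMapSupportedInClass.toDFunLike NeZero.of_gt' Fintype.decidableForallFintype
  CanonicallyOrderedAdd.toMulLeftMono

/-! The auxiliary functions of arbitrary weight. -/

open MvPolynomial GPC96 GPC73 GPC42 Module Matrix

namespace GPC33

variable {g N n r ℓ e : ℕ}

/-- A monomial in the theta functions. -/
noncomputable def thL (A : AbVar g N) (r : ℕ) (μ : List (Fin (N + 1))) : Ent (LG g r) :=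
  (μ.map (thE A r)).prod

/-- The columns. -/
noncomputable def col (A : AbVar g N) (k : Fin (N + 1)) (X : Matrix (Fin g) (Fin r) ℂ)
    (l : List (Fin r)) (μ : List (Fin (N + 1))) : Ent (LG g r) :=
  Dw X (thE A r k) l * thL A r μ

/-- Independent monomials. -/
def Ind (A : AbVar g N) (k : Fin (N + 1)) {Γ : Type} [Fintype Γ] (μ : Γ → List (Fin (N + 1))) :
    Prop :=
  ∀ c : Γ → ℂ, (∀ z, A.θ k z ≠ 0 → ∑ γ, c γ * ((μ γ).map fun i => A.θ i z).prod = 0) → c = 0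

variable (A : AbVar g N) (k : Fin (N + 1))

theorem thL_apply (μ : List (Fin (N + 1))) (p : LG g r) :
    (thL A r μ).1 p = (μ.map fun i => A.θ i p.1).prod := by
  induction μ with
  | nil => rfl
  | cons i μ ih =>
    rw [List.map_cons, List.prod_cons, ← ih]
    rfl

theorem thL_mem (w : Fin (2 * g) → Fin r → ℂ) (μ : List (Fin (N + 1))) :
    thL A r μ ∈ RR A w 0 μ.length := by
  induction μ with
  | nil =>
    refine ⟨fun j p => ?_, fun R => ⟨1, fun z s _ => ?_⟩⟩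
    · show (1 : ℂ) = _ * 1
      simp
    · show ‖(1 : ℂ)‖ ≤ _
      simp
  | cons i μ ih =>
    rw [List.length_cons, add_comm]
    exact rr_mul (thE_mem i) ih

theorem col_mem (X : Matrix (Fin g) (Fin r) ℂ) (l : List (Fin r)) (μ : List (Fin (N + 1))) :
    col A k X l μ ∈ RR A (wX A X) l.length (μ.length + 1) := by
  rw [add_comm]
  exact rr_mul (Dw_mem A k X l) (thL_mem A _ μ)

theorem fa_imm {x : Fin g → ℂ} (hx : A.θ k x ≠ 0) (v : Fin g → ℂ)
    (h : ∀ i, fderiv ℂ (fun z => A.θ i z / A.θ k z) x v = 0) : v = 0 := by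
  refine A.imm x v (fderiv ℂ (A.θ k) x v / A.θ k x) fun i => ?_
  have hd : ∀ i, DifferentiableAt ℂ (A.θ i) x := fun i => (A.hol i x trivial).differentiableAt
  have h1 : A.θ i =ᶠ[nhds x] fun z => A.θ k z * (A.θ i z / A.θ k z) :=
    ((hd k).continuousAt.eventually_ne hx).mono fun z hz => (mul_div_cancel₀ _ hz).symm
  rw [h1.fderiv_eq, fderiv_fun_mul (hd k)
    ((A.hol i x trivial).fun_div (A.hol k x trivial) hx).differentiableAt]
  simp only [_root_.add_apply, _root_.smul_apply, h i, smul_eq_mul]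
  ring

/-- `indep_of_imm` with `U = ⊤` for the ratios `θ i / θ k` at a point where `θ k ≠ 0` (`A.imm`
with `c = fderiv (θ k) z v / θ k z`) gives `y`; `μ γ` is the concatenation over `s` of `γ s` copies
of `y s` and `β - γ s` copies of `k`; `auxf_P`, `auxf_P_eval`, `auxf_P_zero`. -/
theorem exists_mono (hk : ∃ z, A.θ k z ≠ 0) (β : ℕ) :
    ∃ μ : (Fin g → Fin (β + 1)) → List (Fin (N + 1)), (∀ γ, (μ γ).length = g * β) ∧ Ind A k μ := by
  obtain ⟨x, hx⟩ := hk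
  obtain ⟨y, hy⟩ := auxf_imm (fun i z => A.θ i z / A.θ k z) x
    (fun i => (A.hol i x trivial).div (A.hol k x trivial) hx) (fa_imm A k hx) (n := g) (by simp only [finrank_fintype_fun_eq_card, Fintype.card_fin])
  refine ⟨fun γ => (List.ofFn fun s => List.replicate (γ s) (y s) ++
    List.replicate (β - γ s) k).flatten, fun γ => ?_, fun c hc => funext (auxf_P_zero (hy _ ?_))⟩
  · have h : ∀ s, (γ s : ℕ) + (β - γ s) = β := fun s =>
      Nat.add_sub_cancel' (Nat.lt_succ_iff.1 (γ s).2)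
    simp [List.length_flatten, List.map_ofFn, Function.comp_def, h]
  · refine ((A.hol k x trivial).continuousAt.eventually_ne hx).mono fun z hz => ?_
    have h := hc z hz
    have h1 : ∀ γ : Fin g → Fin (β + 1), ((List.ofFn fun s => List.replicate (γ s) (y s) ++
        List.replicate (β - γ s) k).flatten.map fun i => A.θ i z).prod =
        (A.θ k z ^ g) ^ β * ∏ s, (A.θ (y s) z / A.θ k z) ^ (γ s : ℕ) := fun γ => by
      rw [← auxf_prod_eq _ hz]
      simp only [List.map_flatten, List.map_ofFn, Function.comp_def, List.map_append, List.map_replicate, List.prod_flatten, List.prod_append, List.prod_replicate, List.prod_ofFn]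
    simp only [h1, mul_left_comm (c _), ← Finset.mul_sum] at h
    rw [auxf_P_eval]
    exact (mul_eq_zero.1 h).resolve_left (pow_ne_zero _ (pow_ne_zero _ hz))

/-- The proof of `Dw_indep` at one point `z` (only the values at `(z, t • s)` are used). -/
theorem Dw_pt (X : Matrix (Fin g) (Fin r) ℂ) {z : Fin g → ℂ} (hz : A.θ k z ≠ 0) (D : ℕ)
    (l : (Fin r → Fin (D + 1)) → List (Fin r)) (hl : ∀ κ i, (l κ).count i = κ i)
    (c : (Fin r → Fin (D + 1)) → ℂ)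
    (h : ∀ s, ∑ κ, c κ * (Dw X (thE A r k) (l κ)).1 (z, s) = 0) : c = 0 := by
  classical
  funext κ₁
  by_contra h1
  obtain ⟨κ₀, h0, hm⟩ := Finset.exists_max_image (Finset.univ.filter fun κ => c κ ≠ 0)
    (fun κ => (l κ).length) ⟨κ₁, by simpa using h1⟩
  simp only [Finset.mem_filter, Finset.mem_univ, true_and] at h0 hm
  obtain ⟨d, hd⟩ : ∃ d, (l κ₀).length = d := ⟨_, rfl⟩
  obtain ⟨c', hc'⟩ : ∃ c' : (Fin r → Fin (D + 1)) → ℂ,
    c' = fun κ => if (l κ).length = d then c κ else 0 := ⟨_, rfl⟩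
  have hE : ∀ κ, ∃ E : Ent (LG g r), E + c κ • Dw X (thE A r k) (l κ) =
      c' κ • (((l κ).map (coS g)).prod * thE A r k) ∧ Gr (d - 1) E.1 ∧ (d = 0 → E = 0) := by
    intro κ
    by_cases hκ : c κ = 0
    · exact ⟨0, by simp only [hκ, zero_smul, add_zero, hc', ite_self], fna_zero _, fun _ => rfl⟩
    have h2 := hm κ hκ
    by_cases he : (l κ).length = d
    · obtain ⟨R, h3, h4, h5⟩ := Dw_lead A k X (l κ)
      refine ⟨(-c κ) • R, ?_, (he ▸ h4).smul _, fun h => ?_⟩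
      · rw [h3, hc']
        simp only [he, if_true]
        module
      · rw [h5 (List.length_eq_zero_iff.1 (he.trans h)), smul_zero]
    · refine ⟨(-c κ) • Dw X (thE A r k) (l κ), by simp only [neg_smul, neg_add_cancel, hc', he, ↓ reduceIte, zero_smul],
        (gr_mono (Dw_mem A k X (l κ)).2 (by omega)).smul _, fun h => by omega⟩
  choose E hE1 hE2 hE3 using hE
  have h3 : ∀ (s : Fin r → ℂ) (t : ℂ),
      (∑ κ, E κ).1 (z, t • s) = t ^ d * (eval s (auxf_P c') * A.θ k z) := by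
    intro s t
    rw [← add_zero ((∑ κ, E κ).1 _), ← h (t • s), auxf_P_eval, Finset.sum_mul, Finset.mul_sum,
      AddSubmonoidClass.coe_finsetSum, Finset.sum_apply, ← Finset.sum_add_distrib]
    refine Finset.sum_congr rfl fun κ _ => ?_
    refine (congrFun (congrArg Subtype.val (hE1 κ)) (z, t • s)).trans ?_
    show c' κ * (((l κ).map (coS g)).prod.1 (z, t • s) * A.θ k z) = _
    rw [fna_prod, hc']
    by_cases he : (l κ).length = d
    · simp only [he, hl, if_true]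
      ring
    · simp only [he, ↓ reduceIte, zero_mul, mul_zero]
  have h4 : ∀ s : Fin r → ℂ, eval s (auxf_P c') * A.θ k z = 0 := by
    intro s
    cases d with
    | zero =>
      have h5 := h3 s 1
      rw [Finset.sum_eq_zero fun κ _ => hE3 κ rfl, pow_zero, one_mul] at h5
      exact h5.symm
    | succ d => exact fna_key (fna_sum _ E hE2) z s _ (h3 s)
  have h5 := auxf_P_zero (c := c')
    (MvPolynomial.funext fun s => by rw [(mul_eq_zero.1 (h4 s)).resolve_right hz, map_zero]) κ₀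
  rw [hc'] at h5
  simp only [hd, if_true] at h5
  exact h0 h5

/-- `Dw_pt` for the coefficients `∑ γ, c (κ, γ) * monomial γ z`, then `Ind`. -/
theorem col_indep (X : Matrix (Fin g) (Fin r) ℂ) (D : ℕ)
    (l : (Fin r → Fin (D + 1)) → List (Fin r)) (hl : ∀ κ i, (l κ).count i = κ i) {Γ : Type}
    [Fintype Γ] {μ : Γ → List (Fin (N + 1))} (hμ : Ind A k μ) :
    LinearIndependent ℂ fun i : (Fin r → Fin (D + 1)) × Γ => col A k X (l i.1) (μ i.2) := by
  refine Fintype.linearIndependent_iff.2 fun c hc i => ?_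
  refine congrFun (hμ (fun γ => c (i.1, γ)) fun z hz => ?_) i.2
  refine congrFun (Dw_pt A k X hz D l hl
    (fun κ => ∑ γ, c (κ, γ) * ((μ γ).map fun i => A.θ i z).prod) fun s => ?_) i.1
  have h := congrFun (congrArg Subtype.val hc) (z, s)
  rw [AddSubmonoidClass.coe_finsetSum, Finset.sum_apply, Fintype.sum_prod_type] at h
  refine Eq.trans (Finset.sum_congr rfl fun κ _ => ?_) h
  rw [Finset.sum_mul]
  refine Finset.sum_congr rfl fun γ _ => ?_
  show _ = c (κ, γ) * ((Dw X (thE A r k) (l κ)).1 (z, s) * (thL A r (μ γ)).1 (z, s))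
  rw [thL_apply]
  ring

/-- Copy `inj_jets'` with `zero_b` (fibre degree `r D`, weight `β + 1`), `col_mem`, `col_indep`. -/
theorem inj_b (x₀ : Fin g → ℂ) (hr : 1 ≤ r) (hn : 1 ≤ n) (q u c₀ : ℕ) (hq : 1 ≤ q) :
    ∃ C : ℕ, 1 ≤ C ∧ ∀ (Ω : Matrix (Fin g) (Fin n) ℂ) (B : Matrix (Fin r) (Fin n) ℂ)
      (X : Matrix (Fin g) (Fin r) ℂ) (D β : ℕ) (l : (Fin r → Fin (D + 1)) → List (Fin r))
      (Γ : Type) [Fintype Γ] (μ : Γ → List (Fin (N + 1))),
      (∃ Ω' : Matrix (Fin n) (Fin g) ℂ, Ω' * Ω = 1) → (∃ X' : Matrix (Fin r) (Fin g) ℂ, X' * X = 1) →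
      GoodW A q u (wX A X) (Submodule.span ℂ (Set.range (dir Ω B))) → 1 ≤ D →
      (∀ κ i, (l κ).count i = κ i) → (∀ γ, (μ γ).length = β) → (β + 1) ^ q ≤ c₀ * D ^ u →
      Ind A k μ → ∀ c : (Fin r → Fin (D + 1)) × Γ → ℂ, (∀ v : List (Fin n), v.length ≤ C * D →
        ∑ i, c i * ent Ω B x₀ v (col A k X (l i.1) (μ i.2)) = 0) → c = 0 := by
  obtain ⟨C, hC1, hC⟩ := zero_b A r q u c₀ hq
  refine ⟨C * r, Nat.mul_pos hC1 hr,
    fun Ω B X D β l Γ _ μ ⟨Ω', hΩ⟩ ⟨X', hX⟩ hG hD hl hβ hb hμ c hc => ?_⟩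
  by_contra hne
  have hli : LinearIndependent ℂ (dir Ω B) := Fintype.linearIndependent_iff.2 fun c h a =>
    congrFun (fnc_zero hΩ B c (by rw [h]; rfl)) a
  have hfin : finrank ℂ (Submodule.span ℂ (Set.range (dir Ω B))) = n := by
    rw [finrank_span_eq_card hli, Fintype.card_fin]
  have h1 := hC (wX A X) (Submodule.span ℂ (Set.range (dir Ω B))) (r * D) (β + 1) (C * r * D + 1)
    (∑ i, c i • col A k X (l i.1) (μ i.2)) (x₀, 0) (full_wX A X X' hX)
    (fun p hp h0 => by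
      obtain ⟨e, rfl⟩ := (Submodule.mem_span_range_iff_exists_fun ℂ).1 hp
      rw [fnc_zero hΩ B e h0]
      simp only [Pi.zero_apply, zero_smul, Finset.sum_const_zero])
    hG (by rw [hfin]; exact hn) (Nat.mul_pos hr hD) (Nat.le_add_left _ _)
    (hb.trans (Nat.mul_le_mul_left _ (Nat.pow_le_pow_left (Nat.le_mul_of_pos_left _ hr) _)))
    (Submodule.sum_mem _ fun i _ => Submodule.smul_mem _ _
      ⟨hβ i.2 ▸ (col_mem A k X (l i.1) (μ i.2)).1,
        gr_mono (col_mem A k X (l i.1) (μ i.2)).2 (fnc_len _ i.1 (hl i.1))⟩)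
    (fun h => hne (_root_.funext
      (Fintype.linearIndependent_iff.1 (col_indep A k X D l hl hμ) c h)))
    (jb_span (dir Ω B) _ (fun v => v.2) ((jet_one_iff _ _ _ _).2 fun u hu =>
      mem_mz.2 ((ent_sum Ω B x₀ u c _).trans (hc u (Nat.lt_succ_iff.mp hu)))))
  rw [← mul_assoc] at h1
  omega

theorem quad_mono {E : Type} [NormedAddCommGroup E] [NormedSpace ℂ E] {κ κ' : ℝ} {Φ : E → ℝ}
    (h : Quad κ Φ) (hκ : κ ≤ κ') : Quad κ' Φ := fun x => by
  obtain ⟨ℓ, h1⟩ := h x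
  exact ⟨ℓ, fun u => (h1 u).trans (mul_le_mul_of_nonneg_right hκ (sq_nonneg _))⟩

theorem approx_rank_s {n ℓ e : ℕ} (b : Basis (Fin ℓ ⊕ Fin e) ℝ (Fin n → ℂ))
    {φ : (Fin n → ℂ) → ℝ} {κ : ℝ} (hκ : 0 < κ) (hφ : Quad κ φ) (hc : Continuous φ) :
    ∃ C : ℕ, 1 ≤ C ∧ ∀ s ρ : ℕ, 1 ≤ s → 1 ≤ ρ → ∃ Γ : Finset (Fin n → ℂ),
      Γ.card ≤ C * s ^ ℓ * ρ ^ e ∧
      ∀ (f : (Fin n → ℂ) → ℂ) (β L : ℕ) (K M : ℝ), Differentiable ℂ f → 0 ≤ K → 0 ≤ M →
        L ≤ ρ ^ 2 → β ≤ s ^ 2 →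
        (∀ a u, ‖f (u + b (Sum.inl a))‖ * Real.exp (-(β * φ (u + b (Sum.inl a)))) =
          ‖f u‖ * Real.exp (-(β * φ u))) →
        (∀ u, ‖f u‖ ≤ M * (K * (L + ‖fun a => b.repr u (Sum.inr a)‖)) ^ L * Real.exp (β * φ u)) →
        (∀ γ ∈ Γ, f γ = 0) →
        ∀ u, ‖u‖ ≤ 1 → ‖f u‖ ≤ C ^ s ^ 2 * M * (K * (L + ρ)) ^ L * Real.exp (-(ρ : ℝ) ^ 2) := by
  classical
  let Y : Fin e → (Fin n → ℂ) →L[ℝ] ℝ := fun a =>
    LinearMap.toContinuousLinearMap (b.coord (Sum.inr a))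
  have hY : ∀ a u, Y a u = b.repr u (Sum.inr a) := fun _ _ => rfl
  obtain ⟨κ₁, hκ₁, hQ⟩ := small_quad (E := Fin n → ℂ) Y
  obtain ⟨c₀, hc₀⟩ := (isCompact_closedBall (0 : Fin n → ℂ) 1).exists_bound_of_continuousOn
    hc.continuousOn
  obtain ⟨c₁, hc₁⟩ := (isCompact_closedBall (0 : Fin n → ℂ) 1).exists_bound_of_continuousOn
    (f := fun x => ∑ a, Y a x ^ 2) (by fun_prop)
  obtain ⟨M₀, hM₀⟩ := exists_nat_ge (576 * (κ + κ₁) * (∑ j, ‖b j‖) ^ 2 + 1)
  have hKp : 0 ≤ 576 * (κ + κ₁) * (∑ j, ‖b j‖) ^ 2 := by positivity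
  have hM1 : (1 : ℝ) ≤ M₀ := by linarith
  have hM0 : (0 : ℝ) < M₀ := by linarith
  have hMn : 0 < M₀ := by exact_mod_cast hM0
  have hM2 : 576 * (κ + κ₁) * (∑ j, ‖b j‖) ^ 2 ≤ (M₀ : ℝ) ^ 2 := by nlinarith only [hM₀]
  obtain ⟨C₁, hC₁⟩ := exists_nat_ge (2 * Real.exp (c₀ + c₁))
  refine ⟨M₀ ^ ℓ * (3 * M₀) ^ e + C₁ + 1, Nat.le_add_left _ _, fun s ρ hs hρ => ?_⟩
  have hs1 : (1 : ℝ) ≤ s := by exact_mod_cast hs
  have hs0 : (0 : ℝ) < s := by linarith only [hs1]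
  have hMs : 0 < M₀ * s := Nat.mul_pos hMn hs
  have hMs0 : (0 : ℝ) < (M₀ * s : ℕ) := by exact_mod_cast hMs
  let pt : (Fin ℓ ⊕ Fin e → ℤ) → Fin n → ℂ := fun c => ∑ j, ((c j : ℝ) / (M₀ * s : ℕ)) • b j
  have hpt : ∀ c j, b.repr (pt c) j = (c j : ℝ) / (M₀ * s : ℕ) := fun c j =>
    congrFun (b.repr_sum_self fun j => (c j : ℝ) / (M₀ * s : ℕ)) j
  let T : Fin ℓ ⊕ Fin e → Finset ℤ := Sum.elim (fun _ => Finset.Ico 0 (M₀ * s : ℕ))
    fun _ => Finset.Icc (-((ρ * M₀ : ℕ) : ℤ)) ((ρ * M₀ : ℕ) : ℤ)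
  refine ⟨(Fintype.piFinset T).image pt, ?_, fun f β L K M hf hK hM hL hβ hper hb h0 u hu => ?_⟩
  · refine Finset.card_image_le.trans ?_
    have k1 : (Finset.Icc (-((ρ * M₀ : ℕ) : ℤ)) ((ρ * M₀ : ℕ) : ℤ)).card ≤ 3 * M₀ * ρ := by
      have := Nat.mul_pos hρ hMn
      rw [Int.card_Icc, mul_assoc, mul_comm M₀]
      omega
    rw [Fintype.card_piFinset, Fintype.prod_sum_type]
    simp only [T, Sum.elim_inl, Sum.elim_inr, Finset.prod_const, Finset.card_univ,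
      Fintype.card_fin, Int.card_Ico, sub_zero, Int.toNat_natCast]
    refine (Nat.mul_le_mul_left _ (Nat.pow_le_pow_left k1 e)).trans ?_
    rw [mul_pow, mul_pow _ ρ, ← mul_assoc, mul_right_comm (M₀ ^ ℓ)]
    exact Nat.mul_le_mul_right _ (Nat.mul_le_mul_right _ (by omega))
  have hβ' : (β : ℝ) ≤ (s : ℝ) ^ 2 := by exact_mod_cast hβ
  have hβ0 : (0 : ℝ) ≤ β := Nat.cast_nonneg _
  have hΦ := quad_mono ((hφ.smul hβ0).add (hQ.smul (sq_nonneg (s : ℝ))))
    (κ' := (s : ℝ) ^ 2 * (κ + κ₁)) (by linarith only [mul_le_mul_of_nonneg_right hβ' hκ.le])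
  have hρ0 : (0 : ℝ) < ρ := by exact_mod_cast hρ
  have hL' : (L : ℝ) ≤ (ρ : ℝ) ^ 2 := by exact_mod_cast hL
  have hP : 0 ≤ M * (K * (L + ρ)) ^ L := by positivity
  have far : ∀ x, (ρ : ℝ) ≤ s * ‖fun a => b.repr x (Sum.inr a)‖ → ‖f x‖ ≤
      M * (K * (L + ρ)) ^ L * Real.exp (-(ρ : ℝ) ^ 2) *
        Real.exp (((fun x => β * φ x) + fun x => (s : ℝ) ^ 2 * ∑ a, Y a x ^ 2) x) := fun x hx => by
    have k1 := gauss_le hK hρ0 hL' hx
    have k2 := Real.exp_le_exp.2 (mul_le_mul_of_nonneg_left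
      (ana_sq fun a => b.repr x (Sum.inr a)) (sq_nonneg (s : ℝ)))
    rw [Real.exp_neg, ← div_eq_mul_inv, div_le_iff₀ (Real.exp_pos _), mul_pow (s : ℝ)] at k1
    have k3 := k1.trans (mul_le_mul_of_nonneg_left k2 (by positivity))
    have k4 : (K * (L + ‖fun a => b.repr x (Sum.inr a)‖)) ^ L ≤
        (K * (L + s * ‖fun a => b.repr x (Sum.inr a)‖)) ^ L :=
      pow_le_pow_left₀ (by positivity) (mul_le_mul_of_nonneg_left
        (add_le_add le_rfl (le_mul_of_one_le_left (norm_nonneg _) hs1)) hK) _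
    refine (hb x).trans ((mul_le_mul_of_nonneg_right (mul_le_mul_of_nonneg_left (k4.trans k3) hM)
      (Real.exp_pos _).le).trans_eq ?_)
    simp only [Pi.add_apply, hY, Real.exp_add]
    ring
  have key := sampling hf (by positivity) hΦ (Set.range pt) (fun z => by
      obtain ⟨c, h1⟩ := ana_net b hMs0 z
      refine ⟨_, ⟨c, rfl⟩, ?_⟩
      have h2 := pow_le_pow_left₀ (norm_nonneg _) h1 2
      refine (mul_le_mul_of_nonneg_left h2 (by positivity)).trans ?_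
      rw [div_pow, ← mul_div_assoc]
      refine div_le_one_of_le₀ ?_ (by positivity)
      have := mul_le_mul_of_nonneg_right hM2 (sq_nonneg (s : ℝ))
      push_cast
      linarith only [this])
    ⟨M * (K * (L + ρ)) ^ L, fun z => by
      rcases le_total (ρ : ℝ) (s * ‖fun a => b.repr z (Sum.inr a)‖) with h | h
      · refine (far z h).trans (mul_le_mul_of_nonneg_right (mul_le_of_le_one_right hP ?_)
          (Real.exp_pos _).le)
        exact Real.exp_le_one_iff.2 (neg_nonpos.2 (sq_nonneg _))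
      · have h' := (le_mul_of_one_le_left (norm_nonneg _) hs1).trans h
        refine (hb z).trans (mul_le_mul (mul_le_mul_of_nonneg_left (pow_le_pow_left₀
          (by positivity) (mul_le_mul_of_nonneg_left (by linarith only [h']) hK) _) hM)
          (Real.exp_le_exp.2 ?_) (Real.exp_pos _).le hP)
        exact le_add_of_nonneg_right (mul_nonneg (sq_nonneg _)
          (Finset.sum_nonneg fun _ _ => sq_nonneg _))⟩
    (ε := M * (K * (L + ρ)) ^ L * Real.exp (-(ρ : ℝ) ^ 2)) (by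
      rintro _ ⟨c, rfl⟩
      rcases le_total (ρ : ℝ) (s * ‖fun a => b.repr (pt c) (Sum.inr a)‖) with h | h
      · exact far _ h
      · have k1 := ana_red (G := fun u => ‖f u‖ * Real.exp (-(β * φ u))) b hMs
          (fun a u => hper a u) c
        have k2 : f (pt (Sum.elim (fun a => c (Sum.inl a) % (M₀ * s : ℕ))
            fun a => c (Sum.inr a))) = 0 := by
          refine h0 _ (Finset.mem_image_of_mem _ (Fintype.mem_piFinset.2 ?_))
          rintro (a | a)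
          · exact Finset.mem_Ico.2 ⟨Int.emod_nonneg _ (by omega), Int.emod_lt_of_pos _ (by omega)⟩
          · have k3 := (mul_le_mul_of_nonneg_left
              (norm_le_pi_norm (fun a => b.repr (pt c) (Sum.inr a)) a) hs0.le).trans h
            rw [hpt, Real.norm_eq_abs, abs_div, abs_of_pos hMs0, Nat.cast_mul,
              show (s : ℝ) * (|(c (Sum.inr a) : ℝ)| / (M₀ * s)) = |(c (Sum.inr a) : ℝ)| / M₀ by
                field_simp, div_le_iff₀ hM0] at k3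
            exact Finset.mem_Icc.2 (abs_le.1 (by exact_mod_cast k3))
        have k4 : ‖f (pt c)‖ * Real.exp (-(β * φ (pt c))) = 0 := by
          refine k1.trans ?_
          show ‖f (pt _)‖ * _ = 0
          rw [k2, norm_zero, zero_mul]
        rw [(mul_eq_zero.1 k4).resolve_right (Real.exp_pos _).ne']
        positivity) u
  have b0 := (Real.le_norm_self _).trans (hc₀ u (mem_closedBall_zero_iff.2 hu))
  have b1 := (Real.le_norm_self _).trans (hc₁ u (mem_closedBall_zero_iff.2 hu))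
  have b2 : 0 ≤ c₀ := (norm_nonneg _).trans (hc₀ u (mem_closedBall_zero_iff.2 hu))
  have k5 : Real.exp (((fun x => β * φ x) + fun x => (s : ℝ) ^ 2 * ∑ a, Y a x ^ 2) u) ≤
      Real.exp (c₀ + c₁) ^ s ^ 2 := by
    rw [← Real.exp_nat_mul]
    refine Real.exp_le_exp.2 ?_
    have a1 := mul_le_mul_of_nonneg_left b0 hβ0
    have a2 := mul_le_mul_of_nonneg_right hβ' b2
    have a3 := mul_le_mul_of_nonneg_left b1 (sq_nonneg (s : ℝ))
    simp only [Pi.add_apply]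
    push_cast
    linarith only [a1, a2, a3]
  have k6 : 2 * Real.exp (c₀ + c₁) ^ s ^ 2 ≤
      ((M₀ ^ ℓ * (3 * M₀) ^ e + C₁ + 1 : ℕ) : ℝ) ^ s ^ 2 := by
    have a1 : (2 : ℝ) ≤ 2 ^ s ^ 2 := le_self_pow₀ one_le_two (by positivity)
    refine (mul_le_mul_of_nonneg_right a1 (by positivity)).trans ?_
    rw [← mul_pow]
    exact pow_le_pow_left₀ (by positivity) (hC₁.trans (by exact_mod_cast (by omega))) _
  refine key.trans ((mul_le_mul_of_nonneg_left k5 (by positivity)).trans ?_)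
  have k7 := mul_le_mul_of_nonneg_right k6
    (by positivity : 0 ≤ M * (K * (L + ρ)) ^ L * Real.exp (-(ρ : ℝ) ^ 2))
  refine le_of_eq_of_le (by ring) (k7.trans_eq (by ring))


theorem inv_per_b (w : Fin (2 * g) → Fin r → ℂ) {φ : (Fin g → ℂ) → ℝ}
    (hφ : ∀ j z, φ (z + A.ω j) = φ z + (A.a j z + A.b j).re) {Ψ : LG g r → ℂ} {β : ℕ}
    (h : Aut A w β Ψ) (ν : Fin (2 * g) → ℤ) (p : LG g r) :
    ‖Ψ (p + (A.per ν, -∑ j, ν j • w j))‖ * Real.exp (-(β * φ (p.1 + A.per ν))) =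
      ‖Ψ p‖ * Real.exp (-(β * φ p.1)) := by
  set G : LG g r → ℝ := fun p => ‖Ψ p‖ * Real.exp (-(β * φ p.1)) with hG
  have h1 : ∀ j, Function.Periodic G (A.ω j, -w j) := fun j p => by
    simp only [hG]
    rw [h j p, Prod.fst_add, hφ, _root_.norm_mul, Complex.norm_exp, mul_comm (Real.exp _),
      mul_assoc, ← Real.exp_add, ← Complex.ofReal_natCast, Complex.re_ofReal_mul]
    congr 2
    ring
  have h2 : Function.Periodic G (∑ j, ν j • ((A.ω j, -w j) : LG g r)) :=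
    Finset.sum_induction _ (Function.Periodic G) (fun _ _ ha hb => ha.add_period hb)
      (fun p => by rw [add_zero]) fun j _ => (h1 j).zsmul _
  have h3 : ∑ j, ν j • ((A.ω j, -w j) : LG g r) = (A.per ν, -∑ j, ν j • w j) := by
    refine Prod.ext ?_ ?_
    · simp only [Prod.smul_mk, zsmul_eq_mul, smul_neg, Prod.fst_sum, AbVar.per]
    · simp only [Prod.smul_mk, zsmul_eq_mul, smul_neg, Prod.snd_sum, Finset.sum_neg_distrib]
  have h4 := h2 p
  rwa [h3] at h4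

open Pointwise in
/-- Monomials of degree `β` in the theta functions. -/
theorem mono_mem (w : Fin (2 * g) → Fin r → ℂ) (β : ℕ) :
    ∀ Θ ∈ Set.range (thE A r) ^ β, Θ ∈ RR A w 0 β := by
  induction β with
  | zero =>
    intro Θ h
    rw [pow_zero, Set.mem_one] at h
    subst h
    exact ⟨fun _ _ => by simp only [OneMemClass.coe_one, Pi.one_apply, CharP.cast_eq_zero, zero_mul, Complex.exp_zero, mul_one], fun _ => ⟨1, fun _ _ _ => by simp only [OneMemClass.coe_one, Pi.one_apply, norm_one, pow_zero, mul_one, Std.le_refl]⟩⟩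
  | succ β ih =>
    intro Θ h
    rw [pow_succ] at h
    obtain ⟨x, hx, _, ⟨i, rfl⟩, rfl⟩ := h
    exact rr_mul (ih x hx) (thE_mem i)

open Pointwise in
theorem mono_bound {φ : (Fin g → ℂ) → ℝ} (hc : Continuous φ)
    (hφ : ∀ j z, φ (z + A.ω j) = φ z + (A.a j z + A.b j).re) : ∃ C : ℝ, 1 ≤ C ∧ ∀ β : ℕ,
    ∀ Θ ∈ Set.range (thE A r) ^ β, ∀ p, ‖Θ.1 p‖ ≤ C ^ β * Real.exp (β * φ p.1) := by
  choose C hC using pol_bound A hc hφ
  have h1 : (1 : ℝ) ≤ 1 + ∑ i, |C i| :=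
    le_add_of_nonneg_right (Finset.sum_nonneg fun _ _ => abs_nonneg _)
  refine ⟨1 + ∑ i, |C i|, h1, fun β => ?_⟩
  induction β with
  | zero =>
    intro Θ h p
    rw [pow_zero, Set.mem_one] at h
    subst h
    simp only [OneMemClass.coe_one, Pi.one_apply, norm_one, pow_zero, CharP.cast_eq_zero, zero_mul, Real.exp_zero, mul_one, Std.le_refl]
  | succ β ih =>
    intro Θ h p
    rw [pow_succ] at h
    obtain ⟨x, hx, _, ⟨i, rfl⟩, rfl⟩ := h
    have h2 := hC i p.1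
    rw [Real.exp_neg, ← div_eq_mul_inv, div_le_iff₀ (Real.exp_pos _)] at h2
    have h3 : C i ≤ 1 + ∑ i, |C i| := by
      have := Finset.single_le_sum (f := fun i => |C i|) (fun _ _ => abs_nonneg _)
        (Finset.mem_univ i)
      linarith [le_abs_self (C i)]
    show ‖x.1 p * A.θ i p.1‖ ≤ _
    rw [_root_.norm_mul]
    refine (mul_le_mul (ih x hx p) (h2.trans (mul_le_mul_of_nonneg_right h3 (Real.exp_pos _).le))
      (norm_nonneg _) (by positivity)).trans_eq ?_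
    rw [Nat.cast_succ, add_mul (β : ℝ), one_mul, Real.exp_add]
    ring

open Pointwise in
theorem small_jets_b (x₀ : Fin g → ℂ)
    (Ω : Matrix (Fin g) (Fin n) ℂ) (B : Matrix (Fin r) (Fin n) ℂ) (X : Matrix (Fin g) (Fin r) ℂ)
    (ν : Fin ℓ → Fin (2 * g) → ℤ) (b : Basis (Fin ℓ ⊕ Fin e) ℝ (Fin n → ℂ))
    (h1 : ∀ a, Ω *ᵥ b (Sum.inl a) = A.per (ν a))
    (h2 : ∀ a, B *ᵥ b (Sum.inl a) = -∑ j, ν a j • wX A X j) :
    ∃ C : ℕ, 1 ≤ C ∧ ∀ s ρ : ℕ, 1 ≤ s → 1 ≤ ρ → ∃ Γ : Finset (LG g r),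
      Γ.card ≤ C * s ^ ℓ * ρ ^ e ∧
      ∀ (β L : ℕ) (ι : Type) [Fintype ι] (l : ι → List (Fin r)) (Θ : ι → Ent (LG g r))
        (c : ι → ℂ), 1 ≤ L → L ≤ ρ ^ 2 → β + 1 ≤ s ^ 2 → (∀ i, (l i).length ≤ L) →
        (∀ i, Θ i ∈ Set.range (thE A r) ^ β) →
        (∀ γ ∈ Γ, ∑ i, c i * (Dw X (thE A r k) (l i) * Θ i).1 γ = 0) →
        ∀ u : List (Fin n), ‖∑ i, c i * ent Ω B x₀ u (Dw X (thE A r k) (l i) * Θ i)‖ ≤
          ((u.length + 1) ^ u.length * (C ^ s ^ 2 * (C * (L + ρ)) ^ L) *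
            Real.exp (-(ρ : ℝ) ^ 2)) * ∑ i, ‖c i‖ := by
  classical
  obtain ⟨φ, κ, hκ, hφc, hφq, hφ⟩ := exists_weight A
  set TΩ : (Fin n → ℂ) →L[ℂ] (Fin g → ℂ) := LinearMap.toContinuousLinearMap Ω.mulVecLin with hTΩ
  set TB : (Fin n → ℂ) →L[ℂ] (Fin r → ℂ) := LinearMap.toContinuousLinearMap B.mulVecLin with hTB
  set T : (Fin n → ℂ) →L[ℂ] LG g r := TΩ.prod TB with hT
  have eT : ∀ u, T u = (Ω *ᵥ u, B *ᵥ u) := fun _ => rfl
  obtain ⟨C₁, hC₁, H₁⟩ := approx_rank_s b (φ := fun u => φ (x₀ + TΩ u))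
    (mul_pos hκ (by positivity)) (anc_quad hκ.le hφq x₀ TΩ) (by fun_prop)
  obtain ⟨K, hK, H₂⟩ := leaf_bound A k x₀ Ω B X ν b h1 h2 hφc hφ
  obtain ⟨K', hK', H₃⟩ := mono_bound (r := r) A hφc hφ
  have hK1 : 1 ≤ ⌈K'⌉₊ := Nat.one_le_ceil_iff.2 (by linarith only [hK'])
  refine ⟨C₁ * ⌈K'⌉₊ + ⌈K⌉₊, le_add_right (Nat.mul_pos hC₁ hK1), fun s ρ hs hρ => ?_⟩
  obtain ⟨Γ, hΓ, H₁⟩ := H₁ s ρ hs hρ
  refine ⟨Γ.image fun u => (x₀ + Ω *ᵥ u, B *ᵥ u), Finset.card_image_le.trans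
    (hΓ.trans (Nat.mul_le_mul_right _ (Nat.mul_le_mul_right _
      (le_add_right (Nat.le_mul_of_pos_right _ hK1))))), ?_⟩
  intro β L ι _ l Θ c hL hLρ hβ hl hΘ h0 u
  set Ψ : Ent (LG g r) := ∑ i, c i • (Dw X (thE A r k) (l i) * Θ i) with hΨ
  set Φ : Ent (LG g r) →ₐ[ℂ] Ent (Fin n → ℂ) := (pb T).comp (tr ((x₀, 0) : LG g r)) with hΦ
  have eΦ : ∀ (G : Ent (LG g r)) v, (Φ G).1 v = G.1 (x₀ + Ω *ᵥ v, B *ᵥ v) := fun G v => by
    show G.1 (T v + (x₀, 0)) = _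
    rw [eT, Prod.mk_add_mk, add_zero, add_comm]
  have hA : Aut A (wX A X) (1 + β) Ψ.1 := fun j p => by
    rw [hΨ, anc_sum, anc_sum, Finset.mul_sum]
    refine Finset.sum_congr rfl fun i _ => ?_
    rw [(rr_mul (Dw_mem A k X (l i)) (mono_mem A _ β _ (hΘ i))).1 j p, mul_left_comm]
  have hM : 0 ≤ ∑ i, ‖c i‖ := Finset.sum_nonneg fun _ _ => norm_nonneg _
  have hK0 : 0 ≤ K := by linarith only [hK]
  have key := H₁ (Φ Ψ).1 (1 + β) L K (K' ^ β * ∑ i, ‖c i‖) (Ent.diff _) hK0 (by positivity) hLρ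
    (by omega)
    (fun a v => by
      have := inv_per_b A (wX A X) hφ hA (ν a) (x₀ + Ω *ᵥ v, B *ᵥ v)
      rw [← h1, ← h2, Prod.mk_add_mk] at this
      rw [eΦ, eΦ]
      show _ * Real.exp (-(_ * φ (x₀ + Ω *ᵥ _))) = _ * Real.exp (-(_ * φ (x₀ + Ω *ᵥ _)))
      rw [mulVec_add, mulVec_add, ← add_assoc]
      exact this)
    (fun v => by
      rw [eΦ, hΨ, anc_sum, Finset.mul_sum, Finset.sum_mul, Finset.sum_mul]
      refine (norm_sum_le _ _).trans (Finset.sum_le_sum fun i _ => ?_)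
      show ‖c i * (_ * _)‖ ≤ _ * Real.exp (_ * φ (x₀ + Ω *ᵥ v))
      rw [_root_.norm_mul, _root_.norm_mul]
      refine (mul_le_mul_of_nonneg_left (mul_le_mul (H₂ L (l i) hL (hl i) v) (H₃ β _ (hΘ i) _)
        (norm_nonneg _) (by positivity)) (norm_nonneg _)).trans_eq ?_
      rw [Nat.cast_add, add_mul, Nat.cast_one, one_mul, Real.exp_add]
      ring)
    (fun γ hγ => by
      rw [eΦ, hΨ, anc_sum]
      exact h0 _ (Finset.mem_image_of_mem _ hγ))
  have hD : ∀ (a : Fin n) (G : Ent (LG g r)),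
      Φ (dE (dir Ω B a) G) = dE (Pi.single a 1 : Fin n → ℂ) (Φ G) := fun a G => by
    have e1 : dir Ω B a = T (Pi.single a 1) := by
      rw [eT, mulVec_single_one, mulVec_single_one]; rfl
    show pb T (tr _ _) = dE _ (pb T (tr _ _))
    rw [tr_dE, e1, pb_dE]
  have hp : (0 : ℝ) < u.length + 1 := by positivity
  have hc := cauchy_word (fun a : Fin n => (Pi.single a 1 : Fin n → ℂ)) ⊤ (fun _ => trivial)
    (fun a => by rw [Pi.norm_single, norm_one]) 0 (ρ := 1 / (u.length + 1)) (by positivity) u (Φ Ψ) _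
    (fun w _ hw => key (0 + w) (by
      rw [zero_add]
      refine hw.trans ?_
      rw [mul_one_div, div_le_one hp]
      linarith only []))
  rw [← ap_hom Φ _ _ hD, eΦ, mulVec_zero, mulVec_zero, add_zero] at hc
  rw [← ent_sum]
  refine hc.trans ?_
  rw [one_div, inv_pow, div_inv_eq_mul]
  have a1 : (C₁ : ℝ) ^ s ^ 2 * K' ^ β ≤ ((C₁ * ⌈K'⌉₊ + ⌈K⌉₊ : ℕ) : ℝ) ^ s ^ 2 := by
    refine (mul_le_mul_of_nonneg_left (pow_le_pow_right₀ hK' (by omega : β ≤ s ^ 2))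
      (by positivity)).trans ?_
    rw [← mul_pow]
    refine pow_le_pow_left₀ (by positivity) ?_ _
    have := mul_le_mul_of_nonneg_left (Nat.le_ceil K') (Nat.cast_nonneg (α := ℝ) C₁)
    push_cast
    linarith only [this]
  have a2 : K ≤ (C₁ * ⌈K'⌉₊ + ⌈K⌉₊ : ℕ) :=
    (Nat.le_ceil K).trans (by exact_mod_cast Nat.le_add_left _ _)
  have a3 : (C₁ : ℝ) ^ s ^ 2 * K' ^ β * (K * (L + ρ)) ^ L ≤
      ((C₁ * ⌈K'⌉₊ + ⌈K⌉₊ : ℕ) : ℝ) ^ s ^ 2 * ((C₁ * ⌈K'⌉₊ + ⌈K⌉₊ : ℕ) * (L + ρ)) ^ L := by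
    gcongr
  calc _ = (u.length + 1) ^ u.length * (C₁ ^ s ^ 2 * K' ^ β * (K * (L + ρ)) ^ L) *
        Real.exp (-(ρ : ℝ) ^ 2) * ∑ i, ‖c i‖ := by ring
    _ ≤ _ := by gcongr

open Pointwise in
theorem fd_mem (μ : List (Fin (N + 1))) : thL A r μ ∈ Set.range (thE A r) ^ μ.length := by
  induction μ with
  | nil => exact Set.mem_one.2 rfl
  | cons i μ ih =>
    rw [List.length_cons, pow_succ']
    exact Set.mul_mem_mul ⟨i, rfl⟩ ih

theorem small_b (x₀ : Fin g → ℂ) (Ω : Matrix (Fin g) (Fin n) ℂ) (B : Matrix (Fin r) (Fin n) ℂ)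
    (X : Matrix (Fin g) (Fin r) ℂ) (ν : Fin ℓ → Fin (2 * g) → ℤ)
    (b : Basis (Fin ℓ ⊕ Fin e) ℝ (Fin n → ℂ)) (h1 : ∀ a, Ω *ᵥ b (Sum.inl a) = A.per (ν a))
    (h2 : ∀ a, B *ᵥ b (Sum.inl a) = -∑ j, ν a j • wX A X j) :
    ∃ C : ℕ, 1 ≤ C ∧ ∀ s ρ : ℕ, 1 ≤ s → 1 ≤ ρ → ∃ Γ : Finset (LG g r),
      Γ.card ≤ C * s ^ ℓ * ρ ^ e ∧
      ∀ (L β : ℕ) (ι : Type) [Fintype ι] (l : ι → List (Fin r)) (μ : ι → List (Fin (N + 1)))
        (c : ι → ℂ), 1 ≤ L → L ≤ ρ ^ 2 → β + 1 ≤ s ^ 2 → (∀ i, (l i).length ≤ L) →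
        (∀ i, (μ i).length = β) → (∀ γ ∈ Γ, ∑ i, c i * (col A k X (l i) (μ i)).1 γ = 0) →
        ∀ u : List (Fin n), ‖∑ i, c i * ent Ω B x₀ u (col A k X (l i) (μ i))‖ ≤
          ((u.length + 1) ^ u.length * ((C : ℝ) ^ (s ^ 2) * (C * (L + ρ)) ^ L) *
            Real.exp (-(ρ : ℝ) ^ 2)) * ∑ i, ‖c i‖ := by
  obtain ⟨C, hC, h⟩ := small_jets_b A k x₀ Ω B X ν b h1 h2
  refine ⟨C, hC, fun s ρ hs hρ => ?_⟩
  obtain ⟨Γ, hΓ, h⟩ := h s ρ hs hρ
  exact ⟨Γ, hΓ, fun L β ι _ l μ c h3 h4 h5 h6 h7 h8 =>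
    h β L ι l (fun i => thL A r (μ i)) c h3 h4 h5 h6 (fun i => h7 i ▸ fd_mem A (μ i)) h8⟩

theorem fe_chart {A : AbVar g N} {G : Gx A g} {x : Fin g → ℂ} (hG : G.Arith 0 x)
    {ϑ : (Fin g → ℂ) → ℂ} (h0 : ∀ z ∈ G.Om, ϑ z ≠ 0)
    (h : ∀ l, ∀ z ∈ G.Om, pd l ϑ z = ϑ z * G.F l z) :
    ∃ ch : Chart ϑ x (Option (Fin (N + 1)) ⊕ Fin g), ch.O = G.Om ∧ ch.ξ = Sum.elim G.bx G.F := by
  have hx : x ∈ G.Om := G.gx_ne hG.ne
  refine ⟨{
    O := G.Om
    isOpen := G.om_open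
    mem := hx
    ξ := Sum.elim G.bx G.F
    an := ?_
    d := fun j => Sum.elim (fun i => rename Sum.inl (G.bd j i)) fun l => rename Sum.inl (G.ρ j l)
    der := ?_
    alg_d := ?_
    alg_x := ?_
    Z := Sum.inr
    log := h
    ne := h0 x hx }, rfl, rfl⟩
  · rintro (i | l)
    exacts [G.bx_an i, G.F_an l]
  · rintro j (i | l) z hz
    · exact (G.bx_der j i hz).trans (eval_rename Sum.inl (fun t => Sum.elim G.bx G.F t z) _).symm
    · exact (G.F_der j l hz).trans (eval_rename Sum.inl (fun t => Sum.elim G.bx G.F t z) _).symm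
  · rintro j (i | l)
    · exact nmb_fix fun σ => by rw [Sum.elim_inl, map_rename, Gx.map_bd hG]
    · exact nmb_fix fun σ => by rw [Sum.elim_inr, map_rename, Gx.map_ρ hG]
  · rintro ((_ | i) | l)
    · rw [Sum.elim_inl, eq_inv_of_mul_eq_one_left (G.bx_none hx)]
      exact (nmb_eval hG.q hG.pt).inv
    · exact hG.pt i
    · rw [Sum.elim_inr, Gx.F, hG.zero, zero_div]
      exact isAlgebraic_zero

theorem norm_b : ∃ (A' : AbVar g N) (k : Fin (N + 1)) (x₀ : Fin g → ℂ),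
    A'.ω = A.ω ∧ (∀ l, (fun j => A'.a j (Pi.single l 1)) ∈ A.dR) ∧
      ∃ ch : Chart (A'.θ k) x₀ (Option (Fin (N + 1)) ⊕ Fin g), ∀ i, ∀ z ∈ ch.O,
        A'.θ i z = A'.θ k z * ch.ξ (Sum.inl (some i)) z := by
  obtain ⟨k, hk⟩ := A.ne 0
  obtain ⟨s, hs, hdR, hrat⟩ := exists_H' A hk
  have hH : ∀ j, En (pd j (A.θ k) - (fun z => ∑ i, s i j * z i) * A.θ k) := fun j =>
    (norm_pd_an (A.hol k) j).sub ((u2_lin fun i => s i j).1.mul (A.hol k))
  obtain ⟨G, x, c, hGk, hG, hF⟩ := exists_gx_H A hk _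
    (fun j l => A.a l (Pi.single j 1) - ∑ i, s i j * A.ω l i) hH hrat (fun j l z => by
      simp only [Pi.sub_apply, Pi.mul_apply, Pi.add_apply, pd_aut, A.aut, mul_add,
        Finset.sum_add_distrib]
      ring)
  obtain ⟨Q, B, hQ, hB, hB', hd⟩ := nmb_quad s hs c
  obtain ⟨A', h1, h2, h3⟩ := exists_twist A Q hQ (fun j => B (A.ω j)) (fun j => Q (A.ω j))
    fun j z => hB _ z
  obtain ⟨ch, e1, e2⟩ := fe_chart hG (ϑ := A'.θ k) (fun z hz => by
    rw [h3]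
    exact mul_ne_zero (Complex.exp_ne_zero _) (hGk ▸ hz.1)) fun l z hz => by
    have h6 : A.θ k z ≠ 0 := hGk ▸ hz.1
    rw [funext (h3 k), nmb_log hQ (A.hol k), hd, hF l z hz]
    simp only [Pi.sub_apply, Pi.mul_apply]
    field_simp
    ring
  refine ⟨A', k, x, h1, fun l => ?_, ch, fun i z hz => ?_⟩
  · have h4 : (fun j => A'.a j (Pi.single l 1)) =
        fun j => A.a j (Pi.single l 1) - ∑ i, s i l * A.ω j i := funext fun j => by
      rw [h2, _root_.sub_apply, hB']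
    rw [h4]
    exact hdR l
  · have h6 : A.θ k z ≠ 0 := hGk ▸ (e1 ▸ hz : z ∈ G.Om).1
    rw [e2, h3, h3]
    show _ = _ * (A.θ i z / A.θ G.k z)
    rw [hGk]
    field_simp

theorem sz_step_b {σ : Type} {c lam : ℕ} {δ : σ → MvPolynomial σ ℤ} {a Q : MvPolynomial σ ℤ}
    (hc : 1 ≤ c) (hδ : ∀ i, Sz c c (δ i)) (ha : Sz c (c * (lam + 1)) a)
    (hQ : Sz (c * lam) ((c * (lam + 1) : ℝ) ^ (2 * lam)) Q) :
    Sz (c * (lam + 1)) ((c * ((lam + 1 : ℕ) + 1) : ℝ) ^ (2 * (lam + 1)))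
      (mkDerivation ℤ δ Q + a * Q) := by
  have hc' : (1 : ℝ) ≤ c := by exact_mod_cast hc
  have hl : (0 : ℝ) ≤ lam := Nat.cast_nonneg _
  have h1 := hQ.der (Nat.cast_nonneg c) hδ
  have h2 := (ha.mul hQ).mono (d' := c * lam + c) (add_comm _ _).le le_rfl
  refine (h1.add h2).mono (mul_add_one c lam).ge ?_
  push_cast
  have h3 : ((c : ℝ) * (lam + 1)) ^ (2 * lam) ≤ (c * (lam + 1 + 1)) ^ (2 * lam) := by gcongr; simp
  have h4 : (c : ℝ) * lam * c + c * (lam + 1) ≤ (c * (lam + 1 + 1)) ^ 2 := by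
    have h0 := zero_le_one.trans hc'
    nlinarith only [mul_nonneg (mul_nonneg h0 (sub_nonneg.2 hc')) hl, hc']
  rw [← add_mul, mul_add 2 lam 1, pow_add, mul_one, mul_comm]
  exact mul_le_mul h3 h4 (by positivity) (by positivity)

theorem ff_step {x₀ : Fin g → ℂ} {π κ τ : Type} (ch : Chart (A.θ k) x₀ τ) (P : π → ℂ) (γ : κ → ℂ)
    (F : Fin g × τ → MvPolynomial (κ ⊕ τ) ℤ)
    (hF : ∀ i (y : τ → ℂ), aeval (Sum.elim γ y) (F i) = eval y (ch.d i.1 i.2))
    (v : Fin g → MvPolynomial (π ⊕ ((κ ⊕ τ) ⊕ Fin r)) ℤ)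
    (β : Fin r → MvPolynomial (π ⊕ ((κ ⊕ τ) ⊕ Fin r)) ℤ) (b : ℕ)
    (Q : MvPolynomial (π ⊕ ((κ ⊕ τ) ⊕ Fin r)) ℤ) (v₀ : Fin g → ℂ) (β₀ : Fin r → ℂ)
    (Ψ : Ent (LG g r)) (hv : ∀ j p, aeval (fun i => arb_Y P γ ch.ξ i p) (v j) = v₀ j)
    (hβ : ∀ j p, aeval (fun i => arb_Y P γ ch.ξ i p) (β j) = β₀ j)
    (hΨ : ∀ p ∈ (Prod.fst ⁻¹' ch.O : Set (LG g r)),
      Ψ.1 p = (thE A r k ^ (b + 1)).1 p * aeval (fun i => arb_Y P γ ch.ξ i p) Q) :
    ∀ p ∈ (Prod.fst ⁻¹' ch.O : Set (LG g r)), (dE (v₀, β₀) Ψ).1 p =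
      (thE A r k ^ (b + 1)).1 p * aeval (fun i => arb_Y P γ ch.ξ i p)
        (mkDerivation ℤ (arb_del F v β) Q + C ((b + 1 : ℕ) : ℤ) *
          (∑ j, v j * X (Sum.inr (Sum.inl (Sum.inr (ch.Z j))))) * Q) := by
  have hd : ∀ t, ∀ p ∈ (Prod.fst ⁻¹' ch.O : Set (LG g r)), DifferentiableAt ℂ (ch.ξ t) p.1 :=
    fun t p hp => (ch.an t p.1 hp).differentiableAt
  rw [← add_zero (dE (v₀, β₀) Ψ), ← zero_mul Ψ]
  refine formal_step (ch.isOpen.preimage continuous_fst) ?_ _ 0 Ψ _ _ _ Q ?_ ?_ hΨ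
  · rintro (c | (c | t) | i) p hp
    · exact differentiableAt_const _
    · exact differentiableAt_const _
    · exact (hd t p hp).comp p differentiableAt_fst
    · exact (arb_snd p i).differentiableAt
  · rintro (c | (c | t) | i) p hp
    · simp [arb_Y, arb_del]
    · simp [arb_Y, arb_del]
    · refine (arb_fst (hd t p hp) v₀ β₀).trans ?_
      simp only [arb_del, Sum.elim_inr, Sum.elim_inl, map_sum, map_mul, hv, aeval_rename]
      refine Finset.sum_congr rfl fun j _ => ?_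
      rw [ch.der j t _ hp, ← hF (j, t)]
      congr 3
      funext u
      rcases u with u | u <;> rfl
    · refine Eq.trans ?_ (hβ i p).symm
      exact congrArg (fun L : LG g r →L[ℂ] ℂ => L (v₀, β₀)) (arb_snd p i).fderiv
  · intro p hp
    have h1 : (dE (v₀, β₀) (thE A r k)).1 p = ∑ j, v₀ j * pd j (A.θ k) p.1 :=
      arb_fst (A.hol k p.1 trivial).differentiableAt v₀ β₀
    have h2 : fderiv ℂ (thE A r k ^ (b + 1)).1 p (v₀, β₀) =
        (b + 1 : ℕ) * (A.θ k p.1 ^ b * (dE (v₀, β₀) (thE A r k)).1 p) := by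
      rw [← dE_apply, Derivation.leibniz_pow, nsmul_eq_mul]
      rfl
    have h3 : (thE A r k ^ (b + 1)).1 p = A.θ k p.1 ^ (b + 1) := rfl
    have h4 : (0 : Ent (LG g r)).1 p = 0 := rfl
    simp only [h1, h2, h3, h4, zero_mul, add_zero, map_sum, map_mul, hv, aeval_X, Finset.mul_sum,
      eq_intCast, Int.cast_natCast, map_natCast]
    refine Finset.sum_congr rfl fun j _ => ?_
    rw [ch.log j _ hp]
    change _ = _ * (_ * (_ * ch.ξ (ch.Z j) p.1))
    ring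

/-- Copy `jet_poly`.  On the chart `col l' μ = ϑ ^ (|μ| + 1) * aeval (Q l' * ∏ X (Y i))` with `Q l'`
the `foldr` of `jet_poly`.  For the word `l` use `formal_step` with `ϑ ^ (|μ| + 1)` in place of `ϑ`,
`μ = 0` and `a = (|μ| + 1) * ∑ j, v j * X (Z j)` (a copy of `arb_step`), and `sz_step_b`
(`|μ| ≤ lam` along the recursion). -/
theorem jet_b {x₀ : Fin g → ℂ} {τ : Type} [Fintype τ] (ch : Chart (A.θ k) x₀ τ)
    (Y : Fin (N + 1) → τ) (hY : ∀ i, ∀ z ∈ ch.O, A.θ i z = A.θ k z * ch.ξ (Y i) z) (n r : ℕ) :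
    ∃ (κ : Type) (_ : Fintype κ) (γ : κ → ℂ) (c : ℕ)
      (Pol : List (Fin n) → List (Fin r) → List (Fin (N + 1)) → MvPolynomial (Par g n r ⊕ κ) ℤ),
      (∀ i, IsAlgebraic ℚ (γ i)) ∧ 1 ≤ c ∧
      (∀ l l' μ, Sz (c * (l.length + l'.length + μ.length))
        ((c * ((l.length + l'.length + μ.length : ℕ) + 1) : ℝ) ^
          (2 * (l.length + l'.length + μ.length))) (Pol l l' μ)) ∧
      ∀ (Ω : Matrix (Fin g) (Fin n) ℂ) (B : Matrix (Fin r) (Fin n) ℂ)
        (X : Matrix (Fin g) (Fin r) ℂ) (l : List (Fin n)) (l' : List (Fin r))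
        (μ : List (Fin (N + 1))), ent Ω B x₀ l (col A k X l' μ) =
          A.θ k x₀ ^ (μ.length + 1) * aeval (Sum.elim (par Ω B X) γ) (Pol l l' μ) := by
  obtain ⟨κ, _, γ, F, hγ, hF⟩ := lift_coeff (fun i : Fin g × τ => ch.d i.1 i.2)
    fun i => ch.alg_d i.1 i.2
  let σ := Par g n r ⊕ ((κ ⊕ τ) ⊕ Fin r)
  let v : Fin n ⊕ Fin r → Fin g → MvPolynomial σ ℤ :=
    Sum.elim (fun a j => X (.inl (.inl (j, a)))) fun i j => X (.inl (.inr (.inr (j, i))))
  let β : Fin n ⊕ Fin r → Fin r → MvPolynomial σ ℤ :=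
    Sum.elim (fun a i => X (.inl (.inr (.inl (i, a))))) fun _ _ => 0
  let a : Fin n ⊕ Fin r → MvPolynomial σ ℤ := fun d =>
    ∑ j, v d j * X (Sum.inr (Sum.inl (Sum.inr (ch.Z j))))
  let st : Fin r → MvPolynomial σ ℤ → MvPolynomial σ ℤ := fun i Q =>
    mkDerivation ℤ (arb_del F (v (.inr i)) (β (.inr i))) Q + (a (.inr i) + X (.inr (.inr i))) * Q
  let su : ℕ → MvPolynomial σ ℤ → Fin n → MvPolynomial σ ℤ := fun b Q d =>
    mkDerivation ℤ (arb_del F (v (.inl d)) (β (.inl d))) Q + C ((b + 1 : ℕ) : ℤ) * a (.inl d) * Q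
  let pr : List (Fin (N + 1)) → MvPolynomial σ ℤ := fun μ =>
    (μ.map fun i => X (.inr (.inl (.inr (Y i))))).prod
  obtain ⟨c, hc, hs⟩ := exists_sz fun q : (Fin n ⊕ Fin r) × Option σ =>
    q.2.elim (q.1.elim (fun d => a (.inl d)) fun i => a (.inr i) + X (.inr (.inr i)))
      (arb_del F (v q.1) (β q.1))
  have hc' : (1 : ℝ) ≤ c := by exact_mod_cast hc
  refine ⟨(κ ⊕ τ) ⊕ Fin r, inferInstance, Sum.elim (Sum.elim γ fun t => ch.ξ t x₀) 0, c,
    fun l l' μ => l.foldl (su μ.length) (l'.foldr st 1 * pr μ),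
    ?_, hc, fun l l' μ => ?_, fun Ω B X' l l' μ => ?_⟩
  · rintro ((u | t) | i)
    exacts [hγ u, ch.alg_x t, isAlgebraic_zero]
  · have h1 : Sz (c * l'.length) ((c * (l'.length + 1) : ℝ) ^ (2 * l'.length))
        (l'.foldr st 1) := by
      induction l' with
      | nil => simpa using sz_one
      | cons i l' ih => exact sz_step hc (fun j => hs (.inr i, some j)) (hs (.inr i, none)) ih
    have h2 : Sz μ.length 1 (pr μ) := by
      induction μ with
      | nil => exact sz_one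
      | cons i μ ih => exact ((sz_X _).mul ih).mono (add_comm _ _).le (one_mul _).le
    have h3 : Sz (c * (l'.length + μ.length : ℕ)) ((c * ((l'.length + μ.length : ℕ) + 1) : ℝ) ^
        (2 * (l'.length + μ.length))) (l'.foldr st 1 * pr μ) := by
      refine (h1.mul h2).mono (by nlinarith) ?_
      have h4 : (1 : ℝ) ≤ c * ((l'.length + μ.length : ℕ) + 1) :=
        one_le_mul_of_one_le_of_one_le hc' (by simp only [Nat.cast_add, le_add_iff_nonneg_left]; positivity)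
      rw [mul_one]
      exact (pow_le_pow_left₀ (by positivity) (by gcongr; omega) _).trans
        (pow_le_pow_right₀ h4 (by omega))
    have h4 : μ.length ≤ l'.length + μ.length := by omega
    beta_reduce
    rw [add_assoc]
    generalize l'.foldr st 1 * pr μ = Q at h3 ⊢
    generalize l'.length + μ.length = lam at h3 h4 ⊢
    induction l generalizing Q lam with
    | nil => simpa using h3
    | cons b l ih =>
      have h5 : Sz c (c * (lam + 1)) (C ((μ.length + 1 : ℕ) : ℤ) * a (.inl b)) := by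
        refine ((sz_C _).mul (hs (.inl b, none))).mono (zero_add _).le ?_
        rw [Int.cast_natCast, Nat.abs_cast, mul_comm]
        push_cast
        gcongr
      have h2 := ih _ _ (sz_step_b hc (fun j => hs (.inl b, some j)) h5 h3) (by omega)
      rwa [show l.length + (lam + 1) = (b :: l).length + lam by simp; omega] at h2
  · have h1 : ∀ p ∈ (Prod.fst ⁻¹' ch.O : Set (LG g r)), (Dw X' (thE A r k) l').1 p =
        (thE A r k).1 p * aeval (fun i => arb_Y (par Ω B X') γ ch.ξ i p) (l'.foldr st 1) := by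
      induction l' with
      | nil => intro p _; simp [Dw]
      | cons i l' ih =>
        exact arb_step A k ch _ γ F hF (v (.inr i)) (β (.inr i)) _ _ _ _ (coS g i) _
          (fun j p => aeval_X _ _) (fun j p => map_zero _) (fun p => aeval_X _ _) ih
    have h2 : ∀ p ∈ (Prod.fst ⁻¹' ch.O : Set (LG g r)), (thL A r μ).1 p =
        A.θ k p.1 ^ μ.length * aeval (fun i => arb_Y (par Ω B X') γ ch.ξ i p) (pr μ) := by
      intro p hp
      induction μ with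
      | nil => simp only [thL, List.map_nil, List.prod_nil, OneMemClass.coe_one, Pi.one_apply, List.length_nil, pow_zero, pr, map_one, mul_one]
      | cons i μ ih =>
        change A.θ i p.1 * (thL A r μ).1 p = _ * aeval _ (_ * pr μ)
        rw [ih, map_mul, aeval_X, hY i _ hp, List.length_cons]
        change _ = _ * (ch.ξ (Y i) p.1 * _)
        ring
    have h3 : ∀ p ∈ (Prod.fst ⁻¹' ch.O : Set (LG g r)), (col A k X' l' μ).1 p =
        (thE A r k ^ (μ.length + 1)).1 p * aeval (fun i => arb_Y (par Ω B X') γ ch.ξ i p)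
          (l'.foldr st 1 * pr μ) := by
      intro p hp
      change (Dw X' (thE A r k) l').1 p * (thL A r μ).1 p = A.θ k p.1 ^ (μ.length + 1) * _
      rw [h1 p hp, h2 p hp, map_mul]
      change A.θ k p.1 * _ * _ = _
      ring
    have h4 : ∀ p ∈ (Prod.fst ⁻¹' ch.O : Set (LG g r)),
        (ap (fun a => dE (dir Ω B a)) l (col A k X' l' μ)).1 p =
        (thE A r k ^ (μ.length + 1)).1 p * aeval (fun i => arb_Y (par Ω B X') γ ch.ξ i p)
          (l.foldl (su μ.length) (l'.foldr st 1 * pr μ)) := by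
      generalize l'.foldr st 1 * pr μ = Q at h3 ⊢
      generalize col A k X' l' μ = Ψ at h3 ⊢
      induction l generalizing Q Ψ with
      | nil => exact h3
      | cons b l ih =>
        exact ih _ _ (ff_step A k ch _ γ F hF (v (.inl b)) (β (.inl b)) _ Q (fun j => Ω j b)
          (fun i => B i b) Ψ (fun j p => aeval_X _ _) (fun j p => aeval_X _ _) h3)
    refine (h4 (x₀, 0) ch.mem).trans ?_
    congr 3
    funext u
    rcases u with u | (u | u) | u <;> rfl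

end GPC33
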