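import Pool.Agent.MP_57341d_ag.H33.Mb
import Pool.Agent.MP_57341d_ag.H42.Eig

attribute [-instance] SubmoduleClass.module Module.FaithfullyFlat.of_isIntegral_of_isDomain
  LeftPreLieAlgebra.toModule RightPreLieAlgebra.toModule SetLike.GradeZero.instSemiring
  NonUnitalNormedRing.toNormedAddCommGroup SubalgebraClass.toAlgebra AddMonoidAlgebra.instModule
  instCoeTCOfCoe CStarAlgebra.toNormedAlgebra NonUnitalCStarAlgebra.toNormedSpace
  SetLike.GradeZero.instRing ContinuousSemilinearMapClass.toSemilinearMapClass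
  SetLike.GradeZero.instCommSemiring SetLike.GradeZero.instCommRing instCoeHTCTOfCoeTailOfCoeHTC
  Fintype.decidableForallFintype Module.Invertible.instFaithfulSMul LieAlgebra.toModule
  instCoeHTCOfCoeHeadOfCoeOTC CoalgHomClass.toSemilinearMapClass SubringClass.toNormedCommRing
  ContDiffMapSupportedInClass.toDFunLike TestFunctionClass.toDFunLike IntermediateField.algebra'
  instNonUnitalAlgHomClassOfNonUnitalAlgEquivClass SetLike.smul' NumberField.instFiniteDimensional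
  NormedAlgebra.complexToReal SubmoduleClass.toNormedSpace Complex.instIsScalarTowerOfReal
  Submodule.IsLattice.finite IsometryClass.instCoeOutIsometryEquiv littleWedderburn
  SemilinearIsometryClass.toSemilinearMapClass instSMulZeroClass BialgHomClass.toAlgHomClass
  Rat.isDomain MulSemiringAction.toDistribMulAction
  ContinuousAddMonoidHom.instCoeOutOfAddMonoidHomClassOfContinuousMapClass
  HomeomorphClass.instCoeOutHomeomorph IsScalarTower.to_smulCommClass IsScalarTower.left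
  instCoeOutOfCoeFun instCoeTOfCoeDep
  NonUnitalAlgHomClass.instSemilinearMapClassOfNonUnitalAlgSemiHomClassToMonoidHomRingHom
  MonTypeEquivalenceMon.monMonoid RingConeClass.toSubsemiringClass SubringClass.toCommRing
  MulRingSeminormClass.toMonoidWithZeroHomClass SMulWithZero.toSMulZeroClass
  MulSemiringActionSemiHomClass.toDistribMulActionSemiHomClass AlgHomClass.linearMapClass
  LieAdmissibleRing.toNonUnitalNonAssocRing IdemSemiring.toSemiring RingHomClass.toLinearMapClassRat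
  NumberField.to_charZero Finset.decidableDforallFinset Bialgebra.toAlgebra
  AlgEquivClass.toAlgHomClass CentroidHomClass.toAddMonoidHomClass instCoeHTCT

/-! The Riemann form, duality, and the general inequality. -/

open GPC73 GPC42 Module Matrix Complex

namespace GPC33

variable {g N n r ℓ : ℕ}

/-- The algebraic closure of `K` in `ℂ`. -/
noncomputable def clo (K : IntermediateField ℚ ℂ) : IntermediateField ℚ ℂ :=
  (algebraicClosure K ℂ).restrictScalars ℚ

theorem mem_clo {K : IntermediateField ℚ ℂ} {z : ℂ} : z ∈ clo K ↔ IsAlgebraic K z :=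
  mem_algebraicClosure_iff

/-- The Riemann form on cohomology. -/
structure Rf (A : AbVar g N) (F : Matrix (Fin (2 * g)) (Fin (2 * g)) ℚ) : Prop where
  skew : Fᵀ = -F
  det : F.det ≠ 0
  inv : A.Jᵀ * F.map (Rat.cast : ℚ → ℝ) + F.map (Rat.cast : ℚ → ℝ) * A.J = 0
  pos : ∀ a : Fin (2 * g) → ℝ, a ≠ 0 → a ⬝ᵥ (F.map (Rat.cast : ℚ → ℝ) *ᵥ (A.J *ᵥ a)) ≠ 0
  alg : ∃ c : ℂ, c ≠ 0 ∧ ∀ η ∈ A.dR, ∀ η' ∈ A.dR,
    IsAlgebraic ℚ (c * (η ⬝ᵥ (F.map (Rat.cast : ℚ → ℂ) *ᵥ η')))

/-- `trdeg_add_eq`, as at the end of `exists_tb`. -/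
theorem trdeg_clo (K : IntermediateField ℚ ℂ) :
    Algebra.trdeg ℚ (clo K) = Algebra.trdeg ℚ K := by
  let L := algebraicClosure K ℂ
  have : FaithfulSMul K L :=
    (faithfulSMul_iff_algebraMap_injective K L).2 (algebraMap K L).injective
  have h := trdeg_add_eq ℚ K (A := L)
  rw [trdeg_eq_zero (R := K) (A := L), add_zero] at h
  exact h.symm

theorem alg_clo {K : IntermediateField ℚ ℂ} {z : ℂ} (h : IsAlgebraic (clo K) z) :
    IsAlgebraic K z := by
  have h' : IsAlgebraic (algebraicClosure K ℂ) z := h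
  exact h'.restrictScalars K

theorem ga_inv {m : Type} [Fintype m] [DecidableEq m] (K : Type) [Field K] [CharZero K]
    {E : Matrix m m ℚ} (h : E.det ≠ 0) :
    E.map (Rat.cast : ℚ → K) * E⁻¹.map (Rat.cast : ℚ → K) = 1 := by
  have := (Rat.castHom K).mapMatrix.map_mul E E⁻¹
  rw [mul_nonsing_inv _ h.isUnit, map_one] at this
  exact this.symm

/-- `F = E⁻¹` with `E` from `pol` (its `J` is `A.J`, see `exists_hd`); `E` is skew by `u2_ec`,
invertible by `ec_det`; `J * J = -1`; for `a = E w` one has `a ⬝ F J a = -(w ⬝ J E w)`; `alg` from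
`exists_basis`, `u2_alg`, `Al.inv`, `dR_alg` with `c = (2 π i)⁻¹`. -/
theorem exists_rf (A : AbVar g N) : ∃ F, Rf A F := by
  obtain ⟨Q, hQ, hr⟩ := exists_basis A
  obtain ⟨E0, J, h1, hJ, h2, hpos⟩ := pol A
  obtain ⟨D, hD, -⟩ := exists_hd A
  have e0 : J = A.J := by
    ext j k
    have := congrArg (fun z => A.ω.repr z k) ((hJ j).symm.trans (J_spec A j))
    simpa only [map_sum, map_smul, Basis.repr_self, Finsupp.smul_single, smul_eq_mul, mul_one, Finsupp.coe_finsetSum, Finset.sum_apply, Finsupp.single_apply, Finset.sum_ite_eq', Finset.mem_univ, ↓ reduceIte] using this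
  have hJJ : A.J * A.J = -1 := hD ▸ D.JJ
  subst e0
  set E : Matrix (Fin (2 * g)) (Fin (2 * g)) ℚ := E0.map Int.cast with hE0
  have e1 : A.Ec = (2 * Real.pi * I : ℂ) • E.map (Rat.cast : ℚ → ℂ) := by
    ext j k
    simp [h1, hE0]
  have e2 : E0.map (Int.cast : ℤ → ℝ) = E.map (Rat.cast : ℚ → ℝ) := by
    ext j k
    simp [hE0]
  rw [e2] at h2 hpos
  have hd : E.det ≠ 0 := fun h => ec_det A (by
    rw [e1, det_smul, ← Rat.cast_det, h, Rat.cast_zero, mul_zero])
  have hs : Eᵀ = -E := by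
    ext j k
    have k1 : A.Ec k j = -A.Ec j k := by simp [AbVar.Ec]
    rw [h1, h1, ← mul_neg] at k1
    have k2 := mul_left_cancel₀ two_pi_I_ne_zero k1
    simp only [hE0, transpose_apply, Matrix.neg_apply, map_apply]
    exact_mod_cast k2
  have hR := ga_inv ℝ hd
  have hR' := mul_eq_one_comm.1 hR
  have hi : A.Jᵀ * E⁻¹.map (Rat.cast : ℚ → ℝ) + E⁻¹.map (Rat.cast : ℚ → ℝ) * A.J = 0 := by
    generalize E⁻¹.map (Rat.cast : ℚ → ℝ) = F at hR hR'
    generalize E.map (Rat.cast : ℚ → ℝ) = X at hR hR' h2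
    have k1 : A.J * X = -(X * A.Jᵀ) := by
      conv_lhs => rw [← h2]
      simp only [← Matrix.mul_assoc, hJJ, Matrix.neg_mul, Matrix.one_mul]
    have k2 : F * (A.J * X) * F = F * A.J := by
      simp only [Matrix.mul_assoc, hR, Matrix.mul_one]
    rw [← k2, k1]
    simp only [Matrix.mul_neg, Matrix.neg_mul, ← Matrix.mul_assoc, hR', Matrix.one_mul,
      add_neg_cancel]
  refine ⟨E⁻¹, ?_, (isUnit_nonsing_inv_det _ hd.isUnit).ne_zero, hi, fun a ha => ?_,
    (2 * Real.pi * I)⁻¹, inv_ne_zero two_pi_I_ne_zero, fun η hη η' hη' => ?_⟩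
  · rw [transpose_nonsing_inv, hs]
    exact inv_eq_right_inv (by rw [neg_mul_neg, mul_nonsing_inv _ hd.isUnit])
  · have hs' : (E.map (Rat.cast : ℚ → ℝ))ᵀ = -E.map (Rat.cast : ℚ → ℝ) := by
      rw [← transpose_map, hs]
      ext j k
      simp
    generalize E⁻¹.map (Rat.cast : ℚ → ℝ) = F at hR hR' hi
    generalize E.map (Rat.cast : ℚ → ℝ) = X at hR hR' hpos hs'
    have k1 : X *ᵥ (F *ᵥ a) = a := by rw [mulVec_mulVec, hR, one_mulVec]
    have k2 := hpos (F *ᵥ a) fun h => ha (by rw [← k1, h, mulVec_zero])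
    rw [← mulVec_transpose, ← mulVec_transpose, hs', neg_mulVec, k1, mulVec_mulVec,
      eq_neg_of_add_eq_zero_left hi, neg_mulVec, neg_dotProduct_neg, ← mulVec_mulVec] at k2
    exact k2.ne'
  · have hC := ga_inv ℂ hd
    generalize E⁻¹.map (Rat.cast : ℚ → ℂ) = F at hC
    have k1 : ((Q⁻¹)ᵀ * A.Ec * Q⁻¹)⁻¹ = (2 * Real.pi * I : ℂ)⁻¹ • (Q * F * Qᵀ) := by
      refine inv_eq_right_inv ?_
      rw [e1, Matrix.mul_smul, Matrix.mul_smul, Matrix.smul_mul, Matrix.smul_mul, smul_smul,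
        inv_mul_cancel₀ two_pi_I_ne_zero, one_smul]
      simp only [Matrix.mul_assoc]
      rw [← Matrix.mul_assoc Q⁻¹, nonsing_inv_mul _ hQ.isUnit, Matrix.one_mul,
        ← Matrix.mul_assoc _ F, hC, Matrix.one_mul, ← transpose_mul, mul_nonsing_inv _ hQ.isUnit,
        transpose_one]
    have k2 : Al ((Q⁻¹)ᵀ * A.Ec * Q⁻¹)⁻¹ := Al.inv (u2_alg hQ hr)
    have k3 : ∀ x : Fin (2 * g) → ℂ, (x ᵥ* Q⁻¹) ᵥ* Q = x := fun x => by
      rw [vecMul_vecMul, nonsing_inv_mul _ hQ.isUnit, vecMul_one]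
    have k4 : (2 * Real.pi * I : ℂ)⁻¹ * (η ⬝ᵥ (F *ᵥ η')) =
        (η ᵥ* Q⁻¹) ⬝ᵥ (((Q⁻¹)ᵀ * A.Ec * Q⁻¹)⁻¹ *ᵥ (η' ᵥ* Q⁻¹)) := by
      rw [k1, smul_mulVec, dotProduct_smul, smul_eq_mul, ← mulVec_mulVec, ← mulVec_mulVec,
        mulVec_transpose, k3, dotProduct_mulVec _ Q, k3]
    rw [k4]
    exact al_isAlg_sum _ fun i => (dR_alg hQ hr hη i).mul
      (al_isAlg_sum Finset.univ fun j => (k2 i j).mul (dR_alg hQ hr hη' j))

/-- `J_hol`, `Rf.inv`. -/
theorem Rf.iso {A : AbVar g N} {F : Matrix (Fin (2 * g)) (Fin (2 * g)) ℚ} (h : Rf A F)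
    {v v' : Fin (2 * g) → ℂ} (hv : v ∈ hol A) (hv' : v' ∈ hol A) :
    v ⬝ᵥ (F.map (Rat.cast : ℚ → ℂ) *ᵥ v') = 0 := by
  have k1 : (A.J.map ofReal)ᵀ * F.map (Rat.cast : ℚ → ℂ) +
      F.map (Rat.cast : ℚ → ℂ) * A.J.map ofReal = 0 := by
    ext j k
    have := congrArg ofReal (congrFun (congrFun h.inv j) k)
    simpa only [Matrix.add_apply, Matrix.mul_apply, transpose_apply, map_apply, Matrix.zero_apply, ofReal_add, ofReal_sum, ofReal_mul, ofReal_ratCast, ofReal_zero] using this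
  have k2 := congrArg (fun M => v ⬝ᵥ (M *ᵥ v')) k1
  simp only [add_mulVec, dotProduct_add, ← mulVec_mulVec, J_hol A hv', zero_mulVec,
    dotProduct_zero, mulVec_smul, dotProduct_smul] at k2
  rw [dotProduct_mulVec, vecMul_transpose, J_hol A hv, smul_dotProduct, ← two_smul ℂ,
    smul_smul] at k2
  exact (smul_eq_zero.1 k2).resolve_left (mul_ne_zero two_ne_zero I_ne_zero)

/-- The vectors `ω · i` are independent (the `ω j` span). -/
theorem hol_rank (A : AbVar g N) : finrank ℂ (hol A) = g := by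
  have h : LinearIndependent ℂ fun (i : Fin g) (j : Fin (2 * g)) => A.ω j i := by
    refine Fintype.linearIndependent_iff.2 fun c hc i => ?_
    have k1 : ∀ j, c ⬝ᵥ A.ω j = 0 := fun j => by
      simpa only [dotProduct, Finset.sum_apply, Pi.smul_apply, smul_eq_mul, Pi.zero_apply] using congrFun hc j
    have k2 : c ⬝ᵥ Pi.single i 1 = 0 := by
      rw [← A.ω.sum_repr (Pi.single i 1), dotProduct_sum]
      exact Finset.sum_eq_zero fun j _ => by rw [dotProduct_smul, k1, smul_zero]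
    simpa only [dotProduct_single, mul_one] using k2
  rw [hol, finrank_span_eq_card h, Fintype.card_fin]

/-- `vR A v` is complex linear (`J_spec`, `vR_ω`); `mem_hol`. -/
theorem hol_of_J (A : AbVar g N) {v : Fin (2 * g) → ℂ} (h : A.J.map ofReal *ᵥ v = I • v) :
    v ∈ hol A := by
  have h2 : ∀ j, vR A v (I • A.ω j) = I • vR A v (A.ω j) := fun j => by
    rw [J_spec, map_sum, vR_ω]
    refine Eq.trans ?_ (congrFun h j)
    simp only [map_smul, vR_ω, real_smul, mulVec, dotProduct, map_apply]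
  have h3 : ∀ u, vR A v (I • u) = I • vR A v u := fun u => by
    rw [← A.ω.sum_repr u, Finset.smul_sum, map_sum, map_sum, Finset.smul_sum]
    exact Finset.sum_congr rfl fun k _ => by
      rw [smul_comm I, (vR A v).map_smul, (vR A v).map_smul, h2, smul_comm I]
  have h4 : ∀ (c : ℂ) (u : Fin g → ℂ), c • u = c.re • u + c.im • (I • u) := fun c u => by
    conv_lhs => rw [← Complex.re_add_im c]
    rw [add_smul, mul_smul, Complex.coe_smul, Complex.coe_smul]
  refine (mem_hol A).2 ⟨⟨⟨vR A v, (vR A v).map_add⟩, fun c u => ?_⟩, vR_ω A v⟩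
  change vR A v (c • u) = c • vR A v u
  rw [h4 c u, map_add, (vR A v).map_smul, (vR A v).map_smul, h3]
  conv_rhs => rw [← Complex.re_add_im c]
  simp only [smul_eq_mul, real_smul]
  ring

theorem gb_orth {F ι : Type} [Field F] [Algebra F ℂ] [Fintype ι] (S : Submodule F (ι → F)) :
    bc (orth S) = orth (bc S) := by
  refine Submodule.eq_of_le_of_finrank_eq (Submodule.span_le.2 ?_) ?_
  · rintro _ ⟨w, hw, rfl⟩ v hv
    induction hv using Submodule.span_induction with
    | mem x hx =>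
      obtain ⟨u, hu, rfl⟩ := hx
      exact ((algebraMap F ℂ).map_dotProduct w u).symm.trans (by rw [hw u hu, map_zero])
    | zero => exact dotProduct_zero _
    | add x y _ _ hx hy => rw [dotProduct_add, hx, hy, add_zero]
    | smul t x _ hx => rw [dotProduct_smul, hx, smul_zero]
  · have h1 := orth_rank S
    have h2 := orth_rank (bc S)
    rw [finrank_bc] at h2 ⊢
    omega

theorem gb_map {ι : Type} [Fintype ι] (S : Submodule ℚ (ι → ℚ)) (M : Matrix ι ι ℚ) :
    cx (S.map M.mulVecLin) = (cx S).map (M.map (Rat.cast : ℚ → ℂ)).mulVecLin := by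
  rw [cx, cx, Submodule.map_span, Submodule.map_coe, Set.image_image, Set.image_image]
  refine congrArg _ (Set.image_congr' fun v => funext fun i => ?_)
  exact (Rat.castHom ℂ).map_mulVec M v i

theorem gb_rank {F ι : Type} [Field F] [Fintype ι] [DecidableEq ι] (S : Submodule F (ι → F))
    {M : Matrix ι ι F} (h : M.det ≠ 0) :
    finrank F (orth (S.map M.mulVecLin)) + finrank F S = Fintype.card ι := by
  rw [← orth_rank (S.map M.mulVecLin), (Submodule.equivMapOfInjective M.mulVecLin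
    (mulVec_injective_iff_isUnit.2 ((isUnit_iff_isUnit_det _).2 h.isUnit)) S).finrank_eq]

theorem gb_sup {F ι : Type} [Field F] [Fintype ι] (S T : Submodule F (ι → F)) :
    orth (S ⊔ T) = orth S ⊓ orth T := by
  refine le_antisymm (le_inf (fun x hx v hv => hx v (Submodule.mem_sup_left hv))
    fun x hx v hv => hx v (Submodule.mem_sup_right hv)) fun x hx v hv => ?_
  obtain ⟨a, ha, b, hb, rfl⟩ := Submodule.mem_sup.1 hv
  rw [dotProduct_add, hx.1 a ha, hx.2 b hb, add_zero]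

/-- `V' = orth (V.map F.mulVecLin)`.  `cx V' = orth ((cx V).map F)` (inclusion and dimension), and
`hol A = orth ((hol A).map F)` (`Rf.iso`, `hol_rank`), so `cx V' ⊓ hol A` is the orthogonal of the
image of `cx V ⊔ hol A`.  With `P` from `exists_basis`, `cx V` is spanned by vectors `s ᵥ* P`, `s` in
a subspace `S` over `L = algebraicClosure K ℂ` of dimension `m` (`hK`, `dR_alg`, `finrank_bc`, as in
`lic_main`); the matrix `G = c • P F Pᵀ` is algebraic and invertible, and the vectors `a ᵥ* P` with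
`a ∈ orth (S.map G)` lie in `cx V'` and span it by counting dimensions. -/
theorem exists_dual {A : AbVar g N} {F : Matrix (Fin (2 * g)) (Fin (2 * g)) ℚ} (hF : Rf A F)
    (V : Submodule ℚ (Fin (2 * g) → ℚ)) (K : IntermediateField ℚ ℂ)
    (hK : cx V ≤ Submodule.span ℂ ((Submodule.span K A.dR : Set (Fin (2 * g) → ℂ)) ∩ cx V)) :
    finrank ℂ (cx (orth (V.map F.mulVecLin)) ⊓ hol A : Submodule ℂ _) + finrank ℚ V =
        g + finrank ℂ (cx V ⊓ hol A : Submodule ℂ _) ∧
      cx (orth (V.map F.mulVecLin)) ≤ Submodule.span ℂ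
        ((Submodule.span (clo K) A.dR : Set (Fin (2 * g) → ℂ)) ∩ cx (orth (V.map F.mulVecLin))) := by
  obtain ⟨c, hc, ha⟩ := hF.alg
  obtain ⟨P, hP, hr⟩ := exists_basis A
  set G := F.map (Rat.cast : ℚ → ℂ) with hG
  have hd : G.det ≠ 0 := by
    have := (Rat.castHom ℂ).map_det F
    rw [show G = (Rat.castHom ℂ).mapMatrix F from rfl, ← this]
    exact (_root_.map_ne_zero _).2 hF.det
  have e1 : cx (orth (V.map F.mulVecLin)) = orth ((cx V).map G.mulVecLin) := by
    rw [← gb_map]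
    exact gb_orth _
  have hg := hol_rank A
  have e2 : hol A = orth ((hol A).map G.mulVecLin) := by
    refine Submodule.eq_of_le_of_finrank_eq ?_ ?_
    · rintro v hv _ ⟨w, hw, rfl⟩
      exact hF.iso hv hw
    · have := gb_rank (hol A) hd
      rw [Fintype.card_fin] at this
      omega
  refine ⟨?_, ?_⟩
  · have h1 := gb_rank (cx V ⊔ hol A) hd
    have h2 := Submodule.finrank_sup_add_finrank_inf_eq (cx V) (hol A)
    rw [Submodule.map_sup, gb_sup, ← e1, ← e2, Fintype.card_fin] at h1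
    rw [cx_rank] at h2
    omega
  let W := (cx V).map (c • P * G).mulVecLin
  let S : Submodule (clo K) (Fin (2 * g) → clo K) :=
    (W.restrictScalars (clo K)).comap ((Algebra.linearMap (clo K) ℂ).compLeft _)
  have e3 : ∀ a, a ∈ orth W ↔ a ᵥ* P ∈ orth ((cx V).map G.mulVecLin) := fun a => by
    have : ∀ v, a ⬝ᵥ (c • P * G).mulVecLin v = c * ((a ᵥ* P) ⬝ᵥ G.mulVecLin v) := fun v => by
      simp only [mulVecLin_apply, ← mulVec_mulVec, smul_mulVec, dotProduct_smul, smul_eq_mul,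
        dotProduct_mulVec a P]
    constructor
    · rintro h _ ⟨v, hv, rfl⟩
      exact (mul_eq_zero.1 ((this v).symm.trans (h _ ⟨v, hv, rfl⟩))).resolve_left hc
    · rintro h _ ⟨v, hv, rfl⟩
      rw [this, h _ ⟨v, hv, rfl⟩, mul_zero]
  have hal : ∀ v ∈ Submodule.span K A.dR, ∀ i, ((c • P * G) *ᵥ v) i ∈ clo K := by
    intro v hv i
    induction hv using Submodule.span_induction with
    | mem x hx =>
      rw [← mulVec_mulVec, smul_mulVec]
      exact mem_clo.2 ((ha _ (hr i) x hx).tower_top K)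
    | zero => rw [mulVec_zero]; exact zero_mem _
    | add x y _ _ hx hy => rw [mulVec_add]; exact add_mem hx hy
    | smul t x _ hx =>
      rw [← algebraMap_smul ℂ t x, mulVec_smul]
      exact mul_mem (mem_clo.2 (isAlgebraic_algebraMap t)) hx
  have e4 : bc S = W := by
    refine le_antisymm (Submodule.span_le.2 ?_)
      ((Submodule.map_mono hK).trans (Submodule.map_span_le _ _ _ |>.2 fun v hv => ?_))
    · rintro _ ⟨s, hs, rfl⟩
      exact hs
    · exact Submodule.subset_span ⟨fun i => ⟨_, hal v hv.1 i⟩, ⟨v, hv.2, rfl⟩, rfl⟩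
  intro x hx
  have e5 : (x ᵥ* P⁻¹) ᵥ* P = x := by rw [vecMul_vecMul, nonsing_inv_mul _ hP.isUnit, vecMul_one]
  have h5 : x ᵥ* P⁻¹ ∈ bc (orth S) := by rwa [gb_orth, e4, e3, e5, ← e1]
  refine e5 ▸ (Submodule.map_span_le P.vecMulLinear _ _).2 ?_ ⟨_, h5, rfl⟩
  rintro _ ⟨s, hs, rfl⟩
  refine Submodule.subset_span ⟨?_, ?_⟩
  · rw [vecMulLinear_apply, vecMul_eq_sum]
    exact Submodule.sum_mem _ fun i _ =>
      Submodule.smul_mem _ (s i) (Submodule.subset_span (hr i))
  · rw [e1]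
    refine (e3 _).1 ?_
    rw [← e4, ← gb_orth]
    exact Submodule.subset_span ⟨s, hs, rfl⟩

variable {A : AbVar g N} {U : Submodule ℂ (Fin g → ℂ)}

/-- The real linear form with the values `v` on the periods. -/
noncomputable def linkL (A : AbVar g N) (v : Fin (2 * g) → ℝ) : (Fin g → ℂ) →ₗ[ℝ] ℝ :=
  A.ω.constr ℝ v

theorem link_L_sum (A : AbVar g N) (v c : Fin (2 * g) → ℝ) :
    linkL A v (∑ k, c k • A.ω k) = ∑ k, c k * v k := by
  simp only [linkL, map_sum, map_smul, Basis.constr_apply_fintype, Basis.equivFun_self, smul_eq_mul, ite_mul, one_mul, zero_mul, Finset.sum_ite_eq, Finset.mem_univ, ↓ reduceIte]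

theorem link_L_zero (A : AbVar g N) {U : Submodule ℂ (Fin g → ℂ)} (hU : A.IsSub U)
    {v : Fin (2 * g) → ℚ} (hv : v ∈ A.ann U) {u : Fin g → ℂ} (hu : u ∈ U) :
    linkL A (fun k => (v k : ℝ)) u = 0 := by
  have : Submodule.span ℝ {x | x ∈ U ∧ ∃ n, x = A.per n} ≤
      LinearMap.ker (linkL A fun k => (v k : ℝ)) := by
    refine Submodule.span_le.2 ?_
    rintro x ⟨hx, n, rfl⟩
    have h1 : A.per n = ∑ k, (n k : ℝ) • A.ω k :=
      Finset.sum_congr rfl fun k _ => (Int.cast_smul_eq_zsmul ℝ _ _).symm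
    have h2 : ∑ j, (n j : ℚ) * v j = 0 := hv n hx
    change linkL A _ _ = 0
    rw [h1, link_L_sum]
    exact_mod_cast h2
  exact this (hU u hu)

theorem gc_left (l : ℝ →ₗ[ℚ] ℚ) (q : ℚ) (x : ℝ) : l (q * x) = q * l x := by
  rw [← Rat.smul_def, map_smul, smul_eq_mul]

theorem gc_right (l : ℝ →ₗ[ℚ] ℚ) (q : ℚ) (x : ℝ) : l (x * q) = l x * q := by
  rw [mul_comm, gc_left, mul_comm]

/-- As `ann_stable` (`link_L_zero`, `J_spec`): `∑ j k, n j * J j k * v k = 0` in `ℝ`; apply `l`. -/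
theorem ann_J (hU : A.IsSub U) (l : ℝ →ₗ[ℚ] ℚ) {v : Fin (2 * g) → ℚ} (hv : v ∈ A.ann U) :
    A.J.map l *ᵥ v ∈ A.ann U := by
  intro n hn
  have h1 := link_L_zero A hU hv (U.smul_mem Complex.I hn)
  have h2 : Complex.I • A.per n = ∑ k, (∑ j, ((n j : ℚ) : ℝ) * A.J j k) • A.ω k := by
    simp only [AbVar.per, Finset.smul_sum, Finset.sum_smul]
    rw [Finset.sum_comm]
    refine Finset.sum_congr rfl fun j _ => ?_
    rw [smul_comm, J_spec, Finset.smul_sum]
    exact Finset.sum_congr rfl fun k _ => by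
      rw [mul_smul, Rat.cast_intCast, Int.cast_smul_eq_zsmul]
  rw [h2, link_L_sum] at h1
  have h3 := congrArg l h1
  simp only [map_zero, map_sum, gc_left, gc_right, Finset.sum_mul] at h3
  rw [← h3, Finset.sum_comm]
  simp only [mulVec, dotProduct, map_apply, Finset.mul_sum, mul_assoc]

theorem gc_zero {x : ℝ} (h : ∀ l : ℝ →ₗ[ℚ] ℚ, l x = 0) : x = 0 :=
  (Module.forall_dual_apply_eq_zero_iff ℚ x).1 h

theorem orth_J {F : Matrix (Fin (2 * g)) (Fin (2 * g)) ℚ} (hF : Rf A F) (hU : A.IsSub U)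
    (l : ℝ →ₗ[ℚ] ℚ) : ∀ μ ∈ orth ((A.ann U).map F.mulVecLin),
      A.J.map l *ᵥ μ ∈ orth ((A.ann U).map F.mulVecLin) := by
  have hi : (A.J.map l)ᵀ * F = -(F * A.J.map l) := by
    refine eq_neg_of_add_eq_zero_left ?_
    ext i k
    have := congrArg l (congrFun (congrFun hF.inv i) k)
    simpa only [Matrix.add_apply, Matrix.mul_apply, transpose_apply, map_apply, Matrix.zero_apply, map_add, map_sum, gc_right, gc_left, map_zero] using this
  rintro μ hμ _ ⟨v, hv, rfl⟩
  have h := hμ _ ⟨_, ann_J hU l hv, rfl⟩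
  rw [mulVecLin_apply] at h ⊢
  rw [dotProduct_comm, dotProduct_mulVec, ← mulVec_transpose, mulVec_mulVec, hi, neg_mulVec,
    ← mulVec_mulVec, neg_dotProduct, dotProduct_comm, h, neg_zero]

/-- Let `N = ann U`, `N' = orth (N.map F.mulVecLin)` (`exists_rf`).  Both are stable under all
`J.map l` (`ann_J`, `Rf.inv` after applying `l`).  If `v ∈ N ⊓ N'` then `l (v ⬝ F J v) = 0` for all
`l`, so `v = 0` by `Rf.pos`; the dimensions add up (`orth_rank`).  The projector commutes with all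
`J.map l`, hence with `J` (`Module.forall_dual_apply_eq_zero_iff`). -/
theorem exists_proj (hU : A.IsSub U) : ∃ f : Matrix (Fin (2 * g)) (Fin (2 * g)) ℚ,
    f.map (Rat.cast : ℚ → ℝ) * A.J = A.J * f.map (Rat.cast : ℚ → ℝ) ∧
      (∀ v, f *ᵥ v ∈ A.ann U) ∧ ∀ v ∈ A.ann U, f *ᵥ v = v := by
  obtain ⟨F, hF⟩ := exists_rf A
  set N' := orth ((A.ann U).map F.mulVecLin) with hN'
  have hm : ∀ μ, μ ∈ N' ↔ ∀ v ∈ A.ann U, μ ⬝ᵥ (F *ᵥ v) = 0 := fun μ =>
    ⟨fun h v hv => h _ ⟨v, hv, rfl⟩, fun h => by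
      rintro _ ⟨v, hv, rfl⟩
      exact h v hv⟩
  have hs := orth_J hF hU
  have hd : Disjoint (A.ann U) N' := by
    refine Submodule.disjoint_def.2 fun v hv hv' => ?_
    by_contra h0
    refine hF.pos (fun j => (v j : ℝ)) (fun h => h0 ?_) (gc_zero fun l => ?_)
    · ext j
      exact Rat.cast_eq_zero.1 (congrFun h j)
    · rw [← (hm _).1 hv' _ (ann_J hU l hv)]
      simp only [mulVec, dotProduct, map_apply, map_sum, gc_left, gc_right]
  have hinj : Function.Injective F.mulVecLin :=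
    mulVec_injective_iff_isUnit.2 ((isUnit_iff_isUnit_det _).2 hF.det.isUnit)
  have hc : IsCompl (A.ann U) N' := by
    refine ⟨hd, codisjoint_iff.2 (Submodule.eq_top_of_disjoint _ _ ?_ hd)⟩
    have h1 := orth_rank ((A.ann U).map F.mulVecLin)
    rw [← (Submodule.equivMapOfInjective _ hinj _).finrank_eq] at h1
    rw [finrank_fintype_fun_eq_card, ← h1, add_comm]
  let p := (A.ann U).subtype ∘ₗ (A.ann U).projectionOnto N' hc
  have p1 : ∀ v ∈ A.ann U, p v = v := fun v hv =>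
    congrArg Subtype.val (Submodule.projectionOnto_apply_left hc ⟨v, hv⟩)
  have p2 : ∀ v ∈ N', p v = 0 := fun v hv =>
    congrArg Subtype.val (Submodule.projectionOnto_apply_right hc ⟨v, hv⟩)
  have p3 : ∀ v, LinearMap.toMatrix' p *ᵥ v = p v := fun v => LinearMap.toMatrix'_mulVec p v
  refine ⟨LinearMap.toMatrix' p, ?_, fun v => ?_, fun v hv => by rw [p3, p1 v hv]⟩
  · ext i k
    refine sub_eq_zero.1 (gc_zero fun l => ?_)
    have : LinearMap.toMatrix' p * A.J.map l = A.J.map l * LinearMap.toMatrix' p := by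
      refine Matrix.ext_iff_mulVec.2 fun v => ?_
      obtain ⟨a, ha, b, hb, rfl⟩ := Submodule.mem_sup.1
        (show v ∈ A.ann U ⊔ N' from hc.sup_eq_top ▸ Submodule.mem_top)
      rw [← mulVec_mulVec, ← mulVec_mulVec, p3, p3, mulVec_add, map_add, map_add,
        p1 _ (ann_J hU l ha), p2 _ (hs l b hb), p1 a ha, p2 b hb, add_zero, add_zero]
    have h2 := congrFun (congrFun this i) k
    rw [map_sub, sub_eq_zero]
    simpa only [Matrix.mul_apply, map_apply, map_sum, gc_left, gc_right] using h2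
  · rw [p3]
    exact Subtype.property _

/-- `exists_hd`, `HD.H1`, `dR_coord`. -/
theorem end_dR {f : Matrix (Fin (2 * g)) (Fin (2 * g)) ℚ}
    (hf : f.map (Rat.cast : ℚ → ℝ) * A.J = A.J * f.map (Rat.cast : ℚ → ℝ))
    {η : Fin (2 * g) → ℂ} (hη : η ∈ A.dR) :
    f.map (Rat.cast : ℚ → ℂ) *ᵥ η ∈ Submodule.span Qb A.dR := by
  obtain ⟨D, hJ, hP⟩ := exists_hd A
  have h1 := D.H1 f (by rw [hJ]; exact hf)
  have h2 := dR_coord D.P_det hP (Submodule.subset_span hη)
  have hu := D.P_det.isUnit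
  set M := D.P⁻¹ * f.map (Rat.cast : ℚ → ℂ) * D.P with hM
  have h3 : f.map (Rat.cast : ℚ → ℂ) *ᵥ η = ∑ i, (M *ᵥ (D.P⁻¹ *ᵥ η)) i • D.Pᵀ i := by
    rw [← vecMul_eq_sum, vecMul_transpose, mulVec_mulVec, mulVec_mulVec, hM, ← Matrix.mul_assoc,
      ← Matrix.mul_assoc, mul_nonsing_inv _ hu, Matrix.one_mul, Matrix.mul_assoc,
      mul_nonsing_inv _ hu, Matrix.mul_one]
  rw [h3]
  refine Submodule.sum_mem _ fun i _ => ?_
  have h4 : ∑ k, M i k * (D.P⁻¹ *ᵥ η) k ∈ algebraicClosure ℚ ℂ :=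
    sum_mem fun k _ => mul_mem (mem_algebraicClosure_iff.2 (h1 i k))
      (mem_algebraicClosure_iff.2 (h2 k))
  exact Submodule.smul_mem _ (⟨_, h4⟩ : Qb) (Submodule.subset_span (hP i))

/-- The rational span of the integer vectors whose periods lie in `U`. -/
def gd_lam (A : AbVar g N) (U : Submodule ℂ (Fin g → ℂ)) : Submodule ℚ (Fin (2 * g) → ℚ) :=
  Submodule.span ℚ {μ | ∃ ν : Fin (2 * g) → ℤ, A.per ν ∈ U ∧ μ = fun j => (ν j : ℚ)}

theorem gd_ann (A : AbVar g N) (U : Submodule ℂ (Fin g → ℂ)) : A.ann U = orth (gd_lam A U) := by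
  refine le_antisymm (fun v hv μ hμ => ?_) fun v hv n hn => ?_
  · induction hμ using Submodule.span_induction with
    | mem x hx =>
      obtain ⟨ν, hν, rfl⟩ := hx
      exact (dotProduct_comm _ _).trans (hv ν hν)
    | zero => exact dotProduct_zero v
    | add x y _ _ hx hy => rw [dotProduct_add, hx, hy, add_zero]
    | smul t x _ hx => rw [dotProduct_smul, hx, smul_zero]
  · exact (dotProduct_comm _ _).trans (hv _ (Submodule.subset_span ⟨n, hn, rfl⟩))

theorem gd_orth {ι : Type} [Fintype ι] (S : Submodule ℚ (ι → ℚ)) : cx S = orth (cx (orth S)) := by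
  refine Submodule.eq_of_le_of_finrank_eq (Submodule.span_le.2 ?_) ?_
  · rintro _ ⟨x, hx, rfl⟩ v hv
    induction hv using Submodule.span_induction with
    | mem y hy =>
      obtain ⟨w, hw, rfl⟩ := hy
      have h : ∑ j, x j * w j = 0 := (dotProduct_comm _ _).trans (hw x hx)
      show ∑ j, (x j : ℂ) * (w j : ℂ) = 0
      exact_mod_cast h
    | zero => exact dotProduct_zero _
    | add x y _ _ hx hy => rw [dotProduct_add, hx, hy, add_zero]
    | smul t x _ hx => rw [dotProduct_smul, hx, smul_zero]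
  · have h1 := orth_rank S
    have h2 := orth_rank (cx (orth S))
    rw [cx_rank] at h2 ⊢
    omega

/-- With `Λ` the rational span of the integer vectors `ν`, `per ν ∈ U`, one has `ann U = orth Λ`,
`cx Λ ≤ orth (cx (ann U))`, and the dimensions agree (`orth_rank`, `cx_rank`). -/
theorem orth_ann (A : AbVar g N) (U : Submodule ℂ (Fin g → ℂ)) : orth (cx (A.ann U)) ≤
    Submodule.span ℂ {μ | ∃ ν : Fin (2 * g) → ℤ, A.per ν ∈ U ∧ μ = fun j => (ν j : ℂ)} := by
  rw [gd_ann, ← gd_orth]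
  refine Submodule.span_le.2 ?_
  rintro _ ⟨x, hx, rfl⟩
  induction hx using Submodule.span_induction with
  | mem y hy =>
    obtain ⟨ν, hν, rfl⟩ := hy
    exact Submodule.subset_span ⟨ν, hν, funext fun j => Rat.cast_intCast _⟩
  | zero => exact Set.mem_of_eq_of_mem (funext fun _ => Rat.cast_zero) (Submodule.zero_mem _)
  | add x y _ _ hx hy =>
    exact Set.mem_of_eq_of_mem (funext fun j => Rat.cast_add (x j) (y j))
      (Submodule.add_mem _ hx hy)
  | smul t x _ hx =>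
    exact Set.mem_of_eq_of_mem (funext fun j => Rat.cast_mul t (x j))
      (Submodule.smul_mem _ (t : ℂ) hx)

theorem gd_per (A : AbVar g N) (ν : Fin (2 * g) → ℤ) :
    Fintype.linearCombination ℚ A.ω (fun j => (ν j : ℚ)) = A.per ν := by
  simp only [Fintype.linearCombination_apply, AbVar.per, ← Int.cast_smul_eq_zsmul ℚ]

/-- `finrank ℚ Λ` is the real dimension of the real span of the periods in `U` (`finrank_bc` type
argument over `ℝ`: `lin_basis`, `linearIndependent_algebraMap_comp_iff`, `A.ω.equivFun`), which is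
`U`; `finrank_real_of_complex`. -/
theorem ann_rank (hU : A.IsSub U) : finrank ℚ (A.ann U) + 2 * finrank ℂ U = 2 * g := by
  obtain ⟨v, hv, h1, h2⟩ := Submodule.exists_fun_fin_finrank_span_eq ℚ
    {μ | ∃ ν : Fin (2 * g) → ℤ, A.per ν ∈ U ∧ μ = fun j => (ν j : ℚ)}
  choose z hz e using hv
  have hi : LinearIndependent ℝ fun a => A.per (z a) := by
    have := ((linearIndependent_algebraMap_comp_iff (S := ℝ)).2 h2).map'
      A.ω.equivFun.symm.toLinearMap A.ω.equivFun.symm.ker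
    refine (funext fun a => ?_ : _ = fun a => A.per (z a)) ▸ this
    simp only [AbVar.per, LinearEquiv.coe_coe, Function.comp_apply, e a, Basis.equivFun_symm_apply, map_intCast, ← Int.cast_smul_eq_zsmul ℝ]
  have hs : Submodule.span ℝ (Set.range fun a => A.per (z a)) = U.restrictScalars ℝ := by
    refine le_antisymm (Submodule.span_le.2 ?_) fun u hu => Submodule.span_le.2 ?_ (hU u hu)
    · rintro _ ⟨a, rfl⟩
      exact hz a
    · rintro _ ⟨hx, ν, rfl⟩
      have h3 := Submodule.mem_map_of_mem (f := Fintype.linearCombination ℚ A.ω)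
        (h1.ge (Submodule.subset_span ⟨ν, hx, rfl⟩))
      rw [gd_per, Submodule.map_span, ← Set.range_comp,
        (funext fun a => (congrArg _ (e a)).trans (gd_per A _) : _ ∘ v = fun a => A.per (z a))] at h3
      exact Submodule.span_le_restrictScalars ℚ ℝ _ h3
  have h4 := finrank_span_eq_card hi
  rw [hs, Fintype.card_fin] at h4
  have h5 := orth_rank (gd_lam A U)
  rw [Fintype.card_fin, ← gd_ann] at h5
  rw [← finrank_real_of_complex]
  exact (congrArg _ h4).trans h5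

theorem gd_comap {E F : Type} [AddCommGroup E] [Module ℂ E] [AddCommGroup F] [Module ℂ F]
    [FiniteDimensional ℂ E] [FiniteDimensional ℂ F] (π : E →ₗ[ℂ] F) (hπ : Function.Surjective π)
    (W : Submodule ℂ F) : finrank ℂ (W.comap π) + finrank ℂ F = finrank ℂ W + finrank ℂ E := by
  have h1 := (W.mkQ ∘ₗ π).finrank_range_add_finrank_ker
  rw [LinearMap.ker_comp, Submodule.ker_mkQ, LinearMap.range_comp, LinearMap.range_eq_top.2 hπ,
    Submodule.map_top, Submodule.range_mkQ, finrank_top] at h1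
  have h2 := W.finrank_quotient_add_finrank
  omega

/-- `Wt = W.comap π` by counting dimensions, `(W ⊓ L).comap π = Wt ⊓ L.comap π`;
`Submodule.finrank_sup_add_finrank_inf_eq` for `Wt ⊓ L.comap π` and `Nt`. -/
theorem lin_key {E F : Type} [AddCommGroup E] [Module ℂ E] [AddCommGroup F] [Module ℂ F]
    [FiniteDimensional ℂ E] [FiniteDimensional ℂ F] (π : E →ₗ[ℂ] F) (hπ : Function.Surjective π)
    {Wt Nt : Submodule ℂ E} {W L : Submodule ℂ F} (hW : Wt ≤ W.comap π)
    (hd : finrank ℂ W + finrank ℂ E ≤ finrank ℂ Wt + finrank ℂ F) (hN : Nt ≤ L.comap π) :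
    finrank ℂ (W ⊓ L : Submodule ℂ F) + finrank ℂ Nt ≤
      finrank ℂ (Wt ⊓ Nt : Submodule ℂ E) + finrank ℂ L := by
  have h1 := gd_comap π hπ W
  obtain rfl : Wt = W.comap π := Submodule.eq_of_le_of_finrank_le hW (by omega)
  have h2 := gd_comap π hπ (W ⊓ L)
  have h3 := gd_comap π hπ L
  have h4 := Submodule.finrank_sup_add_finrank_inf_eq (W.comap π ⊓ L.comap π) Nt
  have h5 := Submodule.finrank_mono (sup_le inf_le_right hN : W.comap π ⊓ L.comap π ⊔ Nt ≤ _)
  rw [inf_assoc, inf_eq_right.2 hN] at h4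
  rw [Submodule.comap_inf] at h2
  omega

theorem ge_rank {U : Submodule ℂ (Fin g → ℂ)} {L : Submodule ℂ (LG g r)}
    (h : L.map (LinearMap.fst ℂ (Fin g → ℂ) (Fin r → ℂ)) = U) :
    finrank ℂ L ≤ finrank ℂ U + r := by
  have := LinearMap.finrank_le_finrank_of_injective
    (f := ((LinearMap.fst ℂ (Fin g → ℂ) (Fin r → ℂ)).restrict
      (p := L) (q := U) fun x hx => h ▸ Submodule.mem_map_of_mem hx).prod
        ((LinearMap.snd ℂ (Fin g → ℂ) (Fin r → ℂ)).comp L.subtype))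
    fun x y e => Subtype.ext (Prod.ext (congrArg (fun z => z.1.1) e) (congrArg (fun z => z.2) e))
  simpa only [ge_iff_le, finrank_prod, finrank_fintype_fun_eq_card, Fintype.card_fin] using this

theorem ge_num {q u wl x k d L n r g m : ℕ} (hk : k + 2 * d = 2 * g)
    (hV : 2 * q * x + u * k ≤ q * k) (hn : n + m = g + r) (h : wl + m ≤ x + L) :
    q * (wl + r + d) + u * g ≤ q * (n + L) + u * d := by
  obtain ⟨c, rfl⟩ : ∃ c, g = d + c := ⟨g - d, by omega⟩
  obtain rfl : k = 2 * c := by omega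
  have h1 : q * (wl + r + (d + c)) ≤ q * (x + L + n) := Nat.mul_le_mul_left q (by omega)
  linarith only [hV, h1]

/-- `lin_key` for `π y = (y ∘ inl, -(X₁ᵀ *ᵥ (y ∘ inr)))`, `Wt = (orth (cx V)).map Q₁.vecMulLinear`,
`Nt = (orth (cx (ann U))).map Q₁.vecMulLinear`.  `vecMul Q₁` is injective (it is onto by `hQ`, and
the dimensions agree).  `Nt ≤ L.comap π` by `hN`, `orth_ann`.  `Wt ⊓ Nt` is the image of
`orth (cx V ⊔ cx (ann U))`; `orth_rank`, `cx_rank`, `cx_inf`, `ann_rank`, `dir_facts`.  The strict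
inequality follows from `hs` and `finrank L ≤ finrank U + r`. -/
theorem good_gen (A : AbVar g N) (η : Fin g → Fin (2 * g) → ℂ)
    (V : Submodule ℚ (Fin (2 * g) → ℚ)) {q u : ℕ} (h1n : 1 ≤ n)
    (hs : ∀ U, A.IsSub U → U ≠ ⊥ → U ≠ ⊤ →
      2 * finrank ℚ (V ⊓ A.ann U : Submodule ℚ _) < finrank ℚ (A.ann U))
    (hV : ∀ U, A.IsSub U → 2 * q * finrank ℚ (V ⊓ A.ann U : Submodule ℚ _) +
      u * finrank ℚ (A.ann U) ≤ q * finrank ℚ (A.ann U))
    (hn : n + finrank ℚ V = g + r) (Ω₁ : Matrix (Fin g) (Fin n) ℂ) (B₁ : Matrix (Fin r) (Fin n) ℂ)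
    (X₁ : Matrix (Fin g) (Fin r) ℂ) (hΩ : ∃ Ω' : Matrix (Fin n) (Fin g) ℂ, Ω' * Ω₁ = 1)
    (hX : ∃ X' : Matrix (Fin r) (Fin g) ℂ, X' * X₁ = 1)
    (Q₁ : Matrix (Fin (2 * g)) (Fin g ⊕ Fin g) ℂ)
    (hQ : ∃ R : Matrix (Fin g ⊕ Fin g) (Fin (2 * g)) ℂ, R * Q₁ = 1)
    (hW : ∀ μ ∈ orth (cx V), ∃ x : Fin n → ℂ, Ω₁ *ᵥ x = (μ ᵥ* Q₁) ∘ Sum.inl ∧
      B₁ *ᵥ x = -(X₁ᵀ *ᵥ ((μ ᵥ* Q₁) ∘ Sum.inr)))
    (hN : ∀ U, A.IsSub U → ∀ μ ∈ orth (cx (A.ann U)), ∃ μ' ∈ orth (cx (A.ann U)),
      μ ᵥ* Q₁ = μ' ᵥ* pm A η) :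
    GoodW A q u (fun j i => ∑ l, X₁ l i * η l j) (Submodule.span ℂ (Set.range (dir Ω₁ B₁))) := by
  intro U L hU hT hL hp
  obtain ⟨X', hX⟩ := hX
  obtain ⟨R, hR⟩ := hQ
  obtain ⟨d1, d2, d3⟩ := dir_facts hΩ B₁
  let π : (Fin g ⊕ Fin g → ℂ) →ₗ[ℂ] LG g r := (LinearMap.funLeft ℂ ℂ Sum.inl).prod
    (-(X₁ᵀ.mulVecLin ∘ₗ LinearMap.funLeft ℂ ℂ Sum.inr))
  have pe : ∀ y, π y = (y ∘ Sum.inl, -(X₁ᵀ *ᵥ (y ∘ Sum.inr))) := fun _ => rfl
  have hπ : Function.Surjective π := fun z => ⟨Sum.elim z.1 (-(X'ᵀ *ᵥ z.2)), by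
    rw [pe, Sum.elim_comp_inl, Sum.elim_comp_inr, mulVec_neg, neg_neg, mulVec_mulVec,
      ← transpose_mul, hX, transpose_one, one_mulVec]⟩
  have hi : Function.Injective Q₁.vecMulLinear :=
    (LinearMap.injective_iff_surjective_of_finrank_eq_finrank (by simp only [finrank_fintype_fun_eq_card, two_mul, Fintype.card_fin, Fintype.card_sum, Nat.add_left_cancel_iff])).2 fun y =>
      ⟨y ᵥ* R, by rw [vecMulLinear_apply, vecMul_vecMul, hR, vecMul_one]⟩
  have fr : ∀ S : Submodule ℂ (Fin (2 * g) → ℂ),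
      finrank ℂ ((orth S).map Q₁.vecMulLinear) + finrank ℂ S = 2 * g := fun S => by
    rw [← (Submodule.equivMapOfInjective _ hi _).finrank_eq, orth_rank, Fintype.card_fin]
  have e1 := fr (cx V)
  have e2 := fr (cx (A.ann U))
  have e3 := fr (cx V ⊔ cx (A.ann U))
  have e4 := Submodule.finrank_sup_add_finrank_inf_eq (cx V) (cx (A.ann U))
  rw [← cx_inf] at e4
  simp only [cx_rank] at e1 e2 e4
  have e5 : finrank ℂ ((orth (cx V)).map Q₁.vecMulLinear ⊓
      (orth (cx (A.ann U))).map Q₁.vecMulLinear : Submodule ℂ _) ≤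
        finrank ℂ ((orth (cx V ⊔ cx (A.ann U))).map Q₁.vecMulLinear) := by
    rw [← Submodule.map_inf _ hi]
    refine Submodule.finrank_mono (Submodule.map_mono fun μ h v hv => ?_)
    obtain ⟨a, ha, b, hb, rfl⟩ := Submodule.mem_sup.1 hv
    rw [dotProduct_add, h.1 a ha, h.2 b hb, add_zero]
  have key := lin_key π hπ (Wt := (orth (cx V)).map Q₁.vecMulLinear)
    (Nt := (orth (cx (A.ann U))).map Q₁.vecMulLinear)
    (W := Submodule.span ℂ (Set.range (dir Ω₁ B₁))) (L := L)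
    (by
      rintro _ ⟨μ, h, rfl⟩
      obtain ⟨x, h1, h2⟩ := hW μ h
      rw [Submodule.mem_comap, pe, vecMulLinear_apply, ← h1, ← h2]
      exact d3 x)
    (by
      rw [d1]
      simp only [finrank_prod, finrank_fintype_fun_eq_card, Fintype.card_sum, Fintype.card_fin]
      omega)
    (by
      rintro _ ⟨μ, h, rfl⟩
      obtain ⟨μ', h1, h2⟩ := hN U hU μ h
      rw [vecMulLinear_apply, h2]
      refine (Submodule.span_le (p := (L.comap π).comap (pm A η).vecMulLinear)).2 ?_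
        (orth_ann A U h1)
      rintro _ ⟨ν, h3, rfl⟩
      convert hp ν h3 using 1
      change π (_ ᵥ* pm A η) ∈ L ↔ _
      rw [pe]
      refine iff_of_eq (congrArg (· ∈ L) (Prod.ext (funext fun i => ?_) (funext fun i => ?_)))
      · simp only [pm, Function.comp_apply, vecMul, dotProduct, of_apply, Sum.elim_inl, AbVar.per, zsmul_eq_mul, Finset.sum_apply, Pi.mul_apply, Pi.intCast_apply]
      · simp only [pm, vecMul, mulVec, dotProduct, Function.comp, Pi.neg_apply, Finset.sum_apply,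
          zsmul_eq_mul, of_apply, Sum.elim_inr, transpose_apply, Finset.mul_sum, Pi.mul_apply,
          Pi.intCast_apply, mul_left_comm (X₁ _ i)]
        rw [Finset.sum_comm])
  have e6 := ann_rank hU
  rw [d1]
  refine ⟨?_, ge_num e6 (hV U hU) hn (by omega)⟩
  by_cases h0 : U = ⊥
  · have e7 : Submodule.span ℂ (Set.range (dir Ω₁ B₁)) ⊓ L = ⊥ :=
      (Submodule.eq_bot_iff _).2 fun p hp => d2 p hp.1
        ((Submodule.mem_bot ℂ).1 ((hL.trans h0).le (Submodule.mem_map_of_mem hp.2)))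
    rw [e7, finrank_bot]
    exact h1n
  · have e7 := hs U hU h0 hT
    have e8 := ge_rank hL
    omega

theorem gf_cx {ι : Type} [Fintype ι] {S : Submodule ℚ (ι → ℚ)} {f : Matrix ι ι ℚ}
    (h : ∀ v ∈ S, f *ᵥ v = v) {v : ι → ℂ} (hv : v ∈ cx S) :
    f.map (Rat.cast : ℚ → ℂ) *ᵥ v = v := by
  induction hv using Submodule.span_induction with
  | mem x hx =>
    obtain ⟨w, hw, rfl⟩ := hx
    funext j
    have := congrFun (h w hw) j
    simp only [mulVec, dotProduct, map_apply] at this ⊢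
    exact_mod_cast this
  | zero => exact mulVec_zero _
  | add x y _ _ hx hy => rw [mulVec_add, hx, hy]
  | smul t x _ hx => rw [mulVec_smul, hx]

/-- `f` from `exists_proj`; `f * pm = pm * f'` with `f'` algebraic (`end_dR`, `omega_mem`, `dR_repr`,
`lic_inj`).  The relation `(1 - f) Q f' = 0` is linear in the entries of `Q = Z * pm` (`Sp.bil` with
`b = 0`).  A vector `μ` is in `orth (cx (ann U))` iff `μ ᵥ* f = 0`; `vecMul (pm)` is bijective. -/
theorem spec_N {η : Fin g → Fin (2 * g) → ℂ} (hη : ∀ l, η l ∈ A.dR)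
    (hP : Submodule.span ℂ (Set.range fun j => ((A.ω j, fun l => η l j) : LG g g)) = ⊤)
    (hU : A.IsSub U) {Z : Matrix (Fin (2 * g)) (Fin (2 * g)) ℂ}
    (hZ : ∀ v ∈ cx (A.ann U), Z *ᵥ v ∈ cx (A.ann U)) {σ : Type} {x χ : σ → ℂ} (h : Sp x χ)
    (f : Fin (2 * g) → Fin g ⊕ Fin g → σ) (hf : ∀ j c, x (f j c) = (Z * pm A η) j c) :
    ∀ μ ∈ orth (cx (A.ann U)), ∃ μ' ∈ orth (cx (A.ann U)),
      μ ᵥ* (Matrix.of fun j c => χ (f j c)) = μ' ᵥ* pm A η := by
  intro μ hμ
  obtain ⟨p, hJ, h1, h2⟩ := exists_proj hU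
  set F := p.map (Rat.cast : ℚ → ℂ) with hF
  have hd : ∀ c, (Sum.elim (fun i j => A.ω j i) η : Fin g ⊕ Fin g → Fin (2 * g) → ℂ) c ∈ A.dR := by
    rintro (i | l)
    exacts [omega_mem A i, hη l]
  choose e he he' using fun c => dR_repr (lic_inj A η hP) (by simp only [Fintype.card_sum, Fintype.card_fin, two_mul, Nat.add_left_cancel_iff])
    (fun i => Submodule.subset_span (hd i)) (end_dR hJ (hd c))
  have hc : F * pm A η = pm A η * (Matrix.of e)ᵀ := by
    ext j c
    have := congrFun (he' c) j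
    rcases c with i | l <;>
      simpa only [hF, pm, mul_apply, map_apply, of_apply, Sum.elim_inl, transpose_apply, mul_comm, Fintype.sum_sum_type, Sum.elim_inr, mulVec, dotProduct, Finset.sum_apply, Pi.smul_apply, smul_eq_mul] using this
  have hcol : ∀ j, (fun i => F i j) ∈ cx (A.ann U) := fun j =>
    Submodule.subset_span ⟨_, h1 (Pi.single j 1), funext fun i => by simp [hF]⟩
  have hZF : (1 - F) * (Z * F) = 0 := by
    ext i j
    have := congrFun (gf_cx h2 (hZ _ (hcol j))) i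
    rw [Matrix.sub_mul, Matrix.one_mul, Matrix.sub_apply, Matrix.zero_apply, sub_eq_zero]
    exact this.symm
  have h0 : (1 - F) * (Z * pm A η) * (Matrix.of e)ᵀ = 0 := by
    rw [Matrix.mul_assoc, Matrix.mul_assoc, ← hc, ← Matrix.mul_assoc Z, ← Matrix.mul_assoc, hZF,
      Matrix.zero_mul]
  have key : ∀ (y : σ → ℂ) (j : Fin (2 * g)) (c : Fin g ⊕ Fin g),
      ((1 - F) * (Matrix.of fun j c => y (f j c)) * (Matrix.of e)ᵀ : Matrix _ _ ℂ) j c =
        ∑ i : (Fin g ⊕ Fin g) × Fin (2 * g), (1 - F) j i.2 * e c i.1 * y (f i.2 i.1) +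
          ∑ i : (Fin g ⊕ Fin g) × Fin (2 * g), 0 * (y (f i.2 i.1) * y (f i.2 i.1)) := by
    intro y j c
    simp only [mul_apply, of_apply, transpose_apply, Fintype.sum_prod_type, Finset.sum_mul,
      zero_mul, Finset.sum_const_zero, add_zero, mul_right_comm]
  have h3 : (1 - F) * (Matrix.of fun j c => χ (f j c)) * (Matrix.of e)ᵀ = 0 := by
    ext j c
    rw [key]
    refine h.bil (fun i => IsAlgebraic.mul ?_ (he _ _)) (fun _ => isAlgebraic_zero)
      isAlgebraic_zero _ _ _ ?_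
    · rw [Matrix.sub_apply, Matrix.one_apply]
      refine IsAlgebraic.sub ?_ (isAlgebraic_ratCast ℚ _)
      split_ifs
      exacts [isAlgebraic_one, isAlgebraic_zero]
    · rw [← key, show (Matrix.of fun j c => x (f j c)) = Z * pm A η from ext hf, h0]
      rfl
  have hs : Function.Surjective (pm A η).vecMulLinear := by
    intro y
    obtain ⟨c, hc⟩ := (Submodule.mem_span_range_iff_exists_fun ℂ).1
      (hP.ge (Submodule.mem_top (x := ((y ∘ Sum.inl, y ∘ Sum.inr) : LG g g))))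
    refine ⟨c, funext ?_⟩
    rintro (i | l)
    · simpa only [pm, LinearMap.flip_apply, vecMulBilin_apply, vecMul, dotProduct, of_apply, Sum.elim_inl, Prod.smul_mk, Prod.fst_sum, Finset.sum_apply, Pi.smul_apply, smul_eq_mul, Function.comp_apply] using
        congrFun (congrArg Prod.fst hc) i
    · simpa only [pm, LinearMap.flip_apply, vecMulBilin_apply, vecMul, dotProduct, of_apply, Sum.elim_inr, Prod.smul_mk, Prod.snd_sum, Finset.sum_apply, Pi.smul_apply, smul_eq_mul, Function.comp_apply] using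
        congrFun (congrArg Prod.snd hc) l
  have hi := (LinearMap.injective_iff_surjective_of_finrank_eq_finrank
    (by simp only [finrank_fintype_fun_eq_card, two_mul, Fintype.card_fin, Fintype.card_sum, Nat.add_left_cancel_iff])).2 hs
  obtain ⟨μ', hμ'⟩ := hs (μ ᵥ* (Matrix.of fun j c => χ (f j c)))
  rw [vecMulLinear_apply] at hμ'
  have h4 : μ ᵥ* (1 - F) = μ := by
    rw [vecMul_sub, vecMul_one, show μ ᵥ* F = 0 from funext fun j => hμ _ (hcol j), sub_zero]
  have h5 : μ' ᵥ* F = 0 := hi (by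
    rw [vecMulLinear_apply, map_zero, vecMul_vecMul, hc, ← vecMul_vecMul, hμ', ← h4, vecMul_vecMul,
      vecMul_vecMul, ← Matrix.mul_assoc, h3, vecMul_zero])
  exact ⟨μ', fun v hv => by rw [← gf_cx h2 hv, dotProduct_mulVec, h5, zero_dotProduct], hμ'.symm⟩

/-- The parameters `t a = Ω' *ᵥ ((ν a ᵥ* Q) ∘ inl)`.  `ν a ᵥ* Z ∈ orth (cx V)`, so `T.rel` gives two
families of bilinear relations with integer coefficients (`Sp.bil`); `T.span`,
`Submodule.span_induction`. -/
theorem spec_W {η : Fin g → Fin (2 * g) → ℂ} {V : Submodule ℚ (Fin (2 * g) → ℚ)}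
    {K : IntermediateField ℚ ℂ} (T : Dat A η V K n r ℓ) {Z : Matrix (Fin (2 * g)) (Fin (2 * g)) ℂ}
    (hZ : ∀ v ∈ cx V, Z *ᵥ v ∈ cx V) {κ : Type} {y y₁ : κ → ℂ} {Ω₁ : Matrix (Fin g) (Fin n) ℂ}
    {B₁ : Matrix (Fin r) (Fin n) ℂ} {X₁ : Matrix (Fin g) (Fin r) ℂ}
    (h : Sp (Sum.elim (par T.Ω T.B T.X) y) (Sum.elim (par Ω₁ B₁ X₁) y₁))
    (f : Fin (2 * g) → Fin g ⊕ Fin g → κ) (hf : ∀ j c, y (f j c) = (Z * pm A η) j c)
    (t : Fin ℓ → Fin n → κ) (ht : ∀ a i, y (t a i) =
      (T.Ω' *ᵥ (((fun j => (T.ν a j : ℂ)) ᵥ* (Z * pm A η)) ∘ Sum.inl)) i) :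
    ∀ μ ∈ orth (cx V), ∃ x : Fin n → ℂ,
      Ω₁ *ᵥ x = (μ ᵥ* (Matrix.of fun j c => y₁ (f j c))) ∘ Sum.inl ∧
      B₁ *ᵥ x = -(X₁ᵀ *ᵥ ((μ ᵥ* (Matrix.of fun j c => y₁ (f j c))) ∘ Sum.inr)) := by
  intro μ hμ
  rw [← T.span] at hμ
  induction hμ using Submodule.span_induction with
  | mem μ hμ =>
    obtain ⟨a, rfl⟩ := hμ
    obtain ⟨h1, h2⟩ := T.rel ((fun j => (T.ν a j : ℂ)) ᵥ* Z) fun v hv => by
      rw [← dotProduct_mulVec]
      exact T.span.le (Submodule.subset_span ⟨a, rfl⟩) _ (hZ v hv)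
    rw [vecMul_vecMul, ← funext (ht a), ← show (Matrix.of fun j c => y (f j c)) = Z * pm A η from
      ext hf] at h1 h2
    refine ⟨fun i => y₁ (t a i), funext fun k => ?_, funext fun k => ?_⟩
    · have := h (∑ i, .X (.inl (.inl (k, i))) * .X (.inr (t a i)) -
        ∑ j, (T.ν a j : MvPolynomial _ Qb) * .X (.inr (f j (.inl k))))
        (by simpa only [par, map_sub, map_sum, map_mul, MvPolynomial.aeval_X, Sum.elim_inl, Sum.elim_inr, map_intCast, sub_eq_zero, mulVec, dotProduct, Function.comp_apply, vecMul, of_apply] using congrFun h1 k)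
      simpa only [mulVec, dotProduct, Function.comp_apply, vecMul, of_apply, par, map_sub, map_sum, map_mul, MvPolynomial.aeval_X, Sum.elim_inl, Sum.elim_inr, map_intCast, sub_eq_zero] using this
    · have := h (∑ i, .X (.inl (.inr (.inl (k, i)))) * .X (.inr (t a i)) +
        ∑ l, .X (.inl (.inr (.inr (l, k)))) *
          ∑ j, (T.ν a j : MvPolynomial _ Qb) * .X (.inr (f j (.inr l))))
        (by simpa only [par, map_add, map_sum, map_mul, MvPolynomial.aeval_X, Sum.elim_inl, Sum.elim_inr, map_intCast, add_eq_zero_iff_eq_neg, mulVec, dotProduct, Pi.neg_apply, transpose_apply, Function.comp_apply, vecMul, of_apply] using congrFun h2 k)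
      simpa only [mulVec, dotProduct, Pi.neg_apply, transpose_apply, Function.comp_apply, vecMul, of_apply, par, map_add, map_sum, map_mul, MvPolynomial.aeval_X, Sum.elim_inl, Sum.elim_inr, map_intCast, add_eq_zero_iff_eq_neg] using this
  | zero => exact ⟨0, by simp, by simp⟩
  | add μ μ' _ _ hx hy =>
    obtain ⟨x, h1, h2⟩ := hx
    obtain ⟨x', h1', h2'⟩ := hy
    refine ⟨x + x', ?_, ?_⟩
    · rw [mulVec_add, h1, h1', add_vecMul]; rfl
    · rw [mulVec_add, h2, h2', add_vecMul, ← neg_add, ← mulVec_add]; rfl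
  | smul c μ _ hx =>
    obtain ⟨x, h1, h2⟩ := hx
    refine ⟨c • x, ?_, ?_⟩
    · rw [mulVec_smul, h1, smul_vecMul]; rfl
    · rw [mulVec_smul, h2, smul_vecMul, smul_neg, ← mulVec_smul]; rfl

/-- `lib_left`-type argument over the field `algebraicClosure K ℂ`
(`LinearMap.exists_leftInverse_of_injective`). -/
theorem left_alg {ι κ : Type} [Fintype ι] [Fintype κ] [DecidableEq κ] (K : IntermediateField ℚ ℂ)
    (Q : Matrix ι κ ℂ) (hQ : ∀ i j, IsAlgebraic K (Q i j)) (hi : Function.Injective Q.mulVec) :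
    ∃ R : Matrix κ ι ℂ, (∀ i j, IsAlgebraic K (R i j)) ∧ R * Q = 1 := by
  classical
  let Q' : Matrix ι κ (algebraicClosure K ℂ) :=
    Matrix.of fun i j => ⟨Q i j, mem_algebraicClosure_iff.2 (hQ i j)⟩
  have e : Q'.map (algebraMap _ ℂ) = Q := rfl
  obtain ⟨f, hf⟩ := (Matrix.toLin' Q').exists_leftInverse_of_injective
    (LinearMap.ker_eq_bot'.2 fun v hv => by
      have h1 : Q *ᵥ (algebraMap _ ℂ ∘ v) = Q *ᵥ 0 := funext fun i => by
        rw [← e, ← RingHom.map_mulVec, mulVec_zero, show Q' *ᵥ v = 0 from hv]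
        simp only [Pi.zero_apply, IntermediateField.algebraMap_apply, ZeroMemClass.coe_zero]
      exact funext fun j => Subtype.ext (congrFun (hi h1) j))
  have h2 := congrArg LinearMap.toMatrix' hf
  rw [LinearMap.toMatrix'_comp, LinearMap.toMatrix'_toLin', LinearMap.toMatrix'_id] at h2
  refine ⟨(LinearMap.toMatrix' f).map (algebraMap _ ℂ),
    fun i j => mem_algebraicClosure_iff.1 (LinearMap.toMatrix' f i j).2, ?_⟩
  rw [← e, ← Matrix.map_mul, h2, Matrix.map_one _ (map_zero _) (map_one _)]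

/-- With `P` from `exists_basis`, `Q = Z Pᵀ`, `R` from `left_alg` (also a right inverse): for
rational `v ∈ V` the vector `Pᵀ R v = Z⁻¹ v` lies in `span (clo K) dR` and in `cx V` (`Z` is a
bijection of `cx V`), and these vectors span `cx V`. -/
theorem field_Z {V : Submodule ℚ (Fin (2 * g) → ℚ)} {Z : Matrix (Fin (2 * g)) (Fin (2 * g)) ℂ}
    (hd : Z.det ≠ 0) (hZ : ∀ v ∈ cx V, Z *ᵥ v ∈ cx V) {K : IntermediateField ℚ ℂ}
    (hK : ∀ η ∈ A.dR, ∀ j, IsAlgebraic K ((Z *ᵥ η) j)) :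
    cx V ≤ Submodule.span ℂ ((Submodule.span (clo K) A.dR : Set (Fin (2 * g) → ℂ)) ∩ cx V) := by
  obtain ⟨P, hP, hP'⟩ := exists_basis A
  have hZi : Function.Injective Z.mulVec :=
    mulVec_injective_iff_isUnit.2 ((isUnit_iff_isUnit_det _).2 hd.isUnit)
  obtain ⟨R, hR, h1⟩ := left_alg K (Z * Pᵀ) (fun i j => hK _ (hP' j) i)
    (mulVec_injective_iff_isUnit.2 ((isUnit_iff_isUnit_det _).2 (by
      rw [det_mul, det_transpose]; exact (mul_ne_zero hd hP).isUnit)))
  have h2 : Z * (Pᵀ * R) = 1 := by rw [← Matrix.mul_assoc, mul_eq_one_comm.1 h1]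
  have h3 : ∀ x, (Pᵀ * R) *ᵥ (Z *ᵥ x) = x := fun x => by
    rw [mulVec_mulVec, mul_eq_one_comm.1 h2, one_mulVec]
  have h4 : Function.Surjective (Z.mulVecLin.restrict hZ) :=
    LinearMap.injective_iff_surjective.1 fun x y h => Subtype.ext (hZi (congrArg Subtype.val h))
  have h5 : cx V ≤ (Submodule.span ℂ
      ((Submodule.span (clo K) A.dR : Set (Fin (2 * g) → ℂ)) ∩ cx V)).comap (Pᵀ * R).mulVecLin := by
    refine Submodule.span_le.2 ?_
    rintro _ ⟨v, hv, rfl⟩
    refine Submodule.subset_span ⟨?_, ?_⟩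
    · rw [mulVecLin_apply, ← mulVec_mulVec, mulVec_transpose, vecMul_eq_sum]
      refine Submodule.sum_mem _ fun i _ => Submodule.smul_mem _
        (⟨_, ?_⟩ : clo K) (Submodule.subset_span (hP' i))
      exact sum_mem (t := Finset.univ) (f := fun j => R i j * (v j : ℂ)) fun j _ =>
        mul_mem (mem_clo.2 (hR i j)) (SubfieldClass.ratCast_mem _ _)
    · obtain ⟨w, hw⟩ := h4 ⟨_, Submodule.subset_span ⟨v, hv, rfl⟩⟩
      have h6 : Z *ᵥ w.1 = fun j => (v j : ℂ) := congrArg Subtype.val hw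
      change (Pᵀ * R) *ᵥ (fun j => (v j : ℂ)) ∈ cx V
      rw [← h6, h3]
      exact w.2
  exact fun x hx => h3 x ▸ h5 (hZ x hx)

/-- `mid_b` for `clo K` and `u = q - p`; `finrank V ≤ g` from `U = ⊥` (`ann_rank`).  The extra
parameters are the entries of `Q = Z * pm`, of `R` (`left_alg`, `lic_inj`) and the `t a i`;
`R Q = 1` specialises (`Sp.bil`); `good_gen`, `spec_W`, `spec_N`, `trdeg_clo`. -/
theorem gen_b (A : AbVar g N) (V : Submodule ℚ (Fin (2 * g) → ℚ)) {p q : ℕ} (hq : 1 ≤ q)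
    (hpq : p ≤ q) (hV : ∀ U, A.IsSub U → 2 * q * finrank ℚ (V ⊓ A.ann U : Submodule ℚ _) ≤
      p * finrank ℚ (A.ann U))
    (hs : p = q → ∀ U, A.IsSub U → U ≠ ⊥ → U ≠ ⊤ →
      2 * finrank ℚ (V ⊓ A.ann U : Submodule ℚ _) < finrank ℚ (A.ann U))
    (Z : Matrix (Fin (2 * g)) (Fin (2 * g)) ℂ) (hd : Z.det ≠ 0) (hZ : ∀ v ∈ cx V, Z *ᵥ v ∈ cx V)
    (hZU : ∀ U, A.IsSub U → ∀ v ∈ cx (A.ann U), Z *ᵥ v ∈ cx (A.ann U))
    (K : IntermediateField ℚ ℂ) (hK : ∀ η ∈ A.dR, ∀ j, IsAlgebraic K ((Z *ᵥ η) j)) :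
    ((finrank ℚ V * (2 * q - p) : ℕ) : Cardinal) ≤
      ((q * (finrank ℚ V - 2 * finrank ℂ (cx V ⊓ hol A : Submodule ℂ _)) : ℕ) : Cardinal) *
        Algebra.trdeg ℚ K := by
  classical
  have hm : finrank ℚ V ≤ g := by
    have h0 : A.IsSub ⊥ := fun u hu => (Submodule.mem_bot ℂ).1 hu ▸ Submodule.zero_mem _
    have h1 := ann_rank h0
    have h2 := hV _ h0
    rw [finrank_bot, mul_zero, add_zero] at h1
    rw [h1, Submodule.eq_top_of_finrank_eq (S := A.ann ⊥) (by simpa only [finrank_fintype_fun_eq_card, Fintype.card_fin] using h1), inf_top_eq] at h2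
    exact Nat.le_of_mul_le_mul_left (by nlinarith only [hpq, h2]) (show 0 < 2 * q by omega)
  have h := mid_b A V hm _ (field_Z hd hZ hK) q (q - p) (by omega) (by omega)
    fun η n r ℓ T hn => ?_
  · rwa [trdeg_clo, show q + (q - p) = 2 * q - p by omega, mul_comm (2 * q - p)] at h
  have hQ : ∀ j c, IsAlgebraic (clo K) ((Z * pm A η) j c) := fun j c =>
    isAlgebraic_algebraMap (⟨_, mem_clo.2 (by
      rcases c with c | c
      exacts [hK _ (omega_mem A c) j, hK _ (T.dR c) j])⟩ : clo K)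
  obtain ⟨R, hR, h1⟩ := left_alg _ _ hQ (by
    have h2 : Function.Injective (pm A η).mulVec := mulVec_injective_iff.2 (by
      rw [show (pm A η).col = Sum.elim (fun i j => A.ω j i) η from
        funext fun c => by rcases c with c | c <;> rfl]
      exact lic_inj A η T.top)
    intro x y h
    rw [← mulVec_mulVec, ← mulVec_mulVec] at h
    exact h2 (mulVec_injective_iff_isUnit.2 ((isUnit_iff_isUnit_det _).2 hd.isUnit) h))
  refine ⟨(Fin (2 * g) × (Fin g ⊕ Fin g)) ⊕ ((Fin g ⊕ Fin g) × Fin (2 * g)) ⊕ (Fin ℓ × Fin n),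
    inferInstance, Sum.elim (fun a => (Z * pm A η) a.1 a.2) (Sum.elim (fun a => R a.1 a.2) fun a =>
      (T.Ω' *ᵥ (((fun j => (T.ν a.1 j : ℂ)) ᵥ* (Z * pm A η)) ∘ Sum.inl)) a.2), ?_,
    fun Ω₁ B₁ X₁ y₁ h hΩ hX => good_gen A η V hn (fun U hU h0 hT => ?_) (fun U hU => ?_)
      (by have := T.hn; have := T.hr; omega) Ω₁ B₁ X₁ hΩ hX
      (Matrix.of fun j c => y₁ (.inl (j, c))) ⟨Matrix.of fun c j => y₁ (.inr (.inl (c, j))), ?_⟩
      (spec_W T hZ h (fun j c => .inl (j, c)) (fun _ _ => rfl) (fun a i => .inr (.inr (a, i)))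
        fun _ _ => rfl) fun U hU =>
      spec_N T.dR T.top hU (hZU U hU) h (fun j c => .inr (.inl (j, c))) fun _ _ => rfl⟩
  · rintro (a | a | a)
    exacts [hQ _ _, hR _ _, mem_clo.1 (sum_mem (t := Finset.univ) (f := fun i => T.Ω' a.2 i *
      ∑ j, (T.ν a.1 j : ℂ) * (Z * pm A η) j (.inl i)) fun i _ => mul_mem (mem_clo.2 (T.alg _ i))
      (sum_mem fun j _ => mul_mem (intCast_mem _ _) (mem_clo.2 (hQ j _))))]
  · rcases hpq.eq_or_lt with h2 | h2
    · exact hs h2 U hU h0 hT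
    · have h3 := hV U hU
      have h4 := ann_rank hU
      have h5 : finrank ℂ U < g := by simpa only [finrank_fintype_fun_eq_card, Fintype.card_fin] using Submodule.finrank_lt hT
      exact Nat.lt_of_mul_lt_mul_left (a := q) ((mul_left_comm q 2 _).trans_lt
        (((mul_assoc _ _ _).ge.trans h3).trans_lt (Nat.mul_lt_mul_of_pos_right h2 (by omega))))
  · have h2 := hV U hU
    obtain ⟨d, rfl⟩ := Nat.exists_eq_add_of_le hpq
    rw [Nat.add_sub_cancel_left, add_mul]
    omega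
  · ext c d
    have h2 := h.bil (a := fun _ => 0) (b := fun _ => 1) (c := (1 : Matrix _ _ ℂ) c d)
      (fun _ => isAlgebraic_zero) (fun _ => isAlgebraic_one)
      (by rw [Matrix.one_apply]; split_ifs; exacts [isAlgebraic_one, isAlgebraic_zero])
      (fun j => .inr (.inl (j, d))) (fun j => .inr (.inr (.inl (c, j))))
      (fun j => .inr (.inl (j, d))) (by simp only [Sum.elim_inr, Sum.elim_inl, zero_mul, Finset.sum_const_zero, one_mul, zero_add, ← h1, Matrix.mul_apply (M := R)])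
    simpa only [Matrix.mul_apply, of_apply, Sum.elim_inr, zero_mul, Finset.sum_const_zero, one_mul, zero_add] using h2

/-- An invertible complex matrix has an invertible image under some linear form. -/
theorem exists_form {ι : Type} [Fintype ι] [DecidableEq ι] (L : Type) [Field L] [Infinite L]
    [Algebra L ℂ] {P : Matrix ι ι ℂ} (hP : P.det ≠ 0) : ∃ π : ℂ →ₗ[L] L, (P.map π).det ≠ 0 := by
  let b := Basis.ofVectorSpace L ℂ
  let T : ℂ →ₗ[L] MvPolynomial (Basis.ofVectorSpaceIndex L ℂ) L :=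
    Finsupp.linearCombination L MvPolynomial.X ∘ₗ b.repr.toLinearMap
  have h1 : ∀ z, MvPolynomial.aeval b (T z) = z := fun z => by
    have := Finsupp.apply_linearCombination L (MvPolynomial.aeval (R := L) b).toLinearMap
      MvPolynomial.X (b.repr z)
    exact this.trans ((congrArg (fun f => Finsupp.linearCombination L f (b.repr z))
      (funext fun i => MvPolynomial.aeval_X _ i)).trans (b.linearCombination_repr z))
  by_contra h
  push Not at h
  have h2 : (P.map T).det = 0 := MvPolynomial.funext fun x => by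
    rw [RingHom.map_det, map_zero]
    exact h ((MvPolynomial.aeval x).toLinearMap ∘ₗ T)
  have h3 := (MvPolynomial.aeval (R := L) b).map_det (P.map T)
  rw [h2, map_zero] at h3
  exact hP ((congrArg det (ext fun i j => (h1 _).symm)).trans h3.symm)

/-- A change of the comparison isomorphism that respects `V` and all subtori. -/
theorem exists_Z (A : AbVar g N) (V : Submodule ℚ (Fin (2 * g) → ℚ)) (K : IntermediateField ℚ ℂ)
    (hK : cx V ≤ Submodule.span ℂ ((Submodule.span K A.dR : Set (Fin (2 * g) → ℂ)) ∩ cx V)) :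
    ∃ Z : Matrix (Fin (2 * g)) (Fin (2 * g)) ℂ, Z.det ≠ 0 ∧ (∀ v ∈ cx V, Z *ᵥ v ∈ cx V) ∧
      (∀ U, A.IsSub U → ∀ v ∈ cx (A.ann U), Z *ᵥ v ∈ cx (A.ann U)) ∧
      ∀ η ∈ A.dR, ∀ j, IsAlgebraic K ((Z *ᵥ η) j) := by
  obtain ⟨Q, hQ, hr⟩ := exists_basis A
  have hP : Qᵀ.det ≠ 0 := by rwa [det_transpose]
  obtain ⟨π, hπ⟩ := exists_form (clo K) hP
  set Z := (Qᵀ.map π).map (algebraMap (clo K) ℂ) * Qᵀ⁻¹ with hZ
  have h1 : ∀ w, (∀ i, (Qᵀ⁻¹ *ᵥ w) i ∈ clo K) → Z *ᵥ w = fun j => (π (w j) : ℂ) := fun w hw => by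
    have e : w = Qᵀ *ᵥ (Qᵀ⁻¹ *ᵥ w) := by
      rw [mulVec_mulVec, mul_nonsing_inv _ hP.isUnit, one_mulVec]
    funext j
    rw [hZ, ← mulVec_mulVec]
    conv_rhs => rw [e]
    simp only [mulVec, dotProduct, map_sum, map_apply] at hw ⊢
    rw [IntermediateField.coe_sum]
    refine Finset.sum_congr rfl fun k _ => ?_
    rw [mul_comm (Qᵀ j k)]
    exact (mul_comm _ _).trans (congrArg Subtype.val (π.map_smul ⟨_, hw k⟩ _)).symm
  have h2 : ∀ w ∈ Submodule.span Qb A.dR, ∀ i, (Qᵀ⁻¹ *ᵥ w) i ∈ clo K := fun w hw i =>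
    mem_clo.2 ((dR_coord hP hr hw i).tower_top K)
  have h3 : ∀ (S : Submodule ℚ (Fin (2 * g) → ℚ)), ∀ w ∈ cx S,
      (fun j => (π (w j) : ℂ)) ∈ cx S := fun S w hw => (mem_bc S _).2 fun ρ =>
    (mem_bc S w).1 hw (ρ ∘ₗ (Algebra.linearMap (clo K) ℂ).restrictScalars ℚ ∘ₗ π.restrictScalars ℚ)
  refine ⟨Z, ?_, fun v hv => ?_, fun U hU v hv => ?_, fun η hη j => ?_⟩
  · rw [hZ, det_mul, det_nonsing_inv, Ring.inverse_eq_inv']
    refine mul_ne_zero ?_ (inv_ne_zero hP)
    rw [← RingHom.mapMatrix_apply, ← RingHom.map_det]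
    exact (_root_.map_ne_zero _).2 hπ
  · refine (Submodule.span_le (p := (cx V).comap Z.mulVecLin)).2 (fun w hw => ?_) (hK hv)
    show Z *ᵥ w ∈ cx V
    rw [h1 w]
    · exact h3 V w hw.2
    · intro i
      obtain ⟨hw, -⟩ := hw
      induction hw using Submodule.span_induction with
      | mem x hx => exact h2 x (Submodule.subset_span hx) i
      | zero => rw [mulVec_zero]; exact zero_mem _
      | add x y _ _ hx hy => rw [mulVec_add]; exact add_mem hx hy
      | smul t x _ hx =>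
        rw [← algebraMap_smul ℂ t x, mulVec_smul]
        exact mul_mem (mem_clo.2 (isAlgebraic_algebraMap t)) hx
  · obtain ⟨f, hJ, f1, f2⟩ := exists_proj hU
    have e : v = ∑ i, (Qᵀ⁻¹ *ᵥ v) i • f.map (Rat.cast : ℚ → ℂ) *ᵥ Q i := by
      simp only [← mulVec_smul]
      rw [← mulVec_sum, ← vecMul_eq_sum, ← mulVec_transpose, mulVec_mulVec v,
        mul_nonsing_inv _ hP.isUnit, one_mulVec, gf_cx f2 hv]
    rw [e, mulVec_sum]
    refine sum_mem fun i _ => ?_
    rw [mulVec_smul, h1 _ (h2 _ (end_dR hJ (hr i)))]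
    refine Submodule.smul_mem _ _ (h3 _ _ ((mem_bc _ _).2 fun ρ => ?_))
    convert f1 fun k => ρ (Q i k) using 2 with j
    simp only [mulVec, dotProduct, map_sum, map_apply, ← Rat.smul_def, map_smul, smul_eq_mul]
  · rw [h1 _ (h2 _ (Submodule.subset_span hη))]
    exact mem_clo.1 (π _).2

/-- Rational subspaces that are stable under the complex structure come from subtori. -/
theorem sub_of_J (A : AbVar g N) (S : Submodule ℚ (Fin (2 * g) → ℚ))
    (hS : ∀ l : ℝ →ₗ[ℚ] ℚ, ∀ v ∈ S, A.J.map l *ᵥ v ∈ S) : ∃ U, A.IsSub U ∧ A.ann U = S := by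
  obtain ⟨z, -, hz⟩ := lin_basis (orth S)
  have hI : ∀ u : Fin g → ℂ, (fun k => (A.ω.repr (I • u) k : ℂ)) =
      (fun j => (A.ω.repr u j : ℂ)) ᵥ* A.J.map ofReal := fun u => by
    funext k
    conv_lhs => rw [← A.ω.sum_repr u]
    simp only [Finset.smul_sum, smul_comm I, map_sum, map_smul, Finsupp.finsetSum_apply,
      Finsupp.smul_apply, smul_eq_mul, ofReal_sum, ofReal_mul]
    rfl
  have hJ : ∀ v ∈ cx S, A.J.map ofReal *ᵥ v ∈ cx S := fun v hv => by
    refine (Submodule.span_le (p := (cx S).comap (A.J.map ofReal).mulVecLin)).2 ?_ hv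
    rintro _ ⟨w, hw, rfl⟩
    refine (mem_bc S _).2 fun ρ => ?_
    convert hS (ρ ∘ₗ ofRealCLM.toLinearMap.restrictScalars ℚ) w hw using 2 with j
    simp only [mulVecLin_apply, mulVec, dotProduct, map_sum, map_apply, mul_comm _ (w _ : ℂ),
      ← Rat.smul_def, map_smul, smul_eq_mul, mul_comm (w _)]
    rfl
  let R : (Fin g → ℂ) →ₗ[ℝ] Fin (2 * g) → ℂ :=
    ofRealCLM.toLinearMap.compLeft _ ∘ₗ A.ω.equivFun.toLinearMap
  let U : Submodule ℂ (Fin g → ℂ) :=
    { carrier := {u | R u ∈ orth (cx S)}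
      add_mem' := fun h h' => by
        show R _ ∈ orth (cx S)
        rw [map_add]
        exact add_mem h h'
      zero_mem' := by
        show R _ ∈ orth (cx S)
        rw [map_zero]
        exact zero_mem _
      smul_mem' := fun c u h => by
        show R _ ∈ orth (cx S)
        rw [← re_add_im c, add_smul, mul_smul, Complex.coe_smul, Complex.coe_smul, map_add,
          map_smul, map_smul]
        refine add_mem (Submodule.smul_of_tower_mem _ _ h)
          (Submodule.smul_of_tower_mem _ _ fun v hv => ?_)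
        rw [show R (I • u) = _ from hI u, ← dotProduct_mulVec]
        exact h _ (hJ v hv) }
  have hR : ∀ n, R (A.per n) = fun j => ((n j : ℚ) : ℂ) := fun n => by
    funext j
    have : A.per n = ∑ j, (n j : ℝ) • A.ω j := by simp only [AbVar.per, zsmul_eq_mul, Int.cast_smul_eq_zsmul]
    show (A.ω.repr (A.per n) j : ℂ) = _
    rw [this, A.ω.repr_sum_self]
    simp
  have hU : ∀ n, A.per n ∈ U ↔ (fun j => (n j : ℚ)) ∈ orth S := fun n => by
    show R _ ∈ orth (cx S) ↔ _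
    rw [hR, ← show bc (orth S) = orth (cx S) from gb_orth S]
    refine ⟨fun h => ?_, fun h => Submodule.subset_span ⟨_, h, rfl⟩⟩
    obtain ⟨ρ, hρ⟩ := (Algebra.linearMap ℚ ℂ).exists_leftInverse_of_injective
      (LinearMap.ker_eq_bot.2 (algebraMap ℚ ℂ).injective)
    convert (mem_bc _ _).1 h ρ using 2 with j
    exact (LinearMap.congr_fun hρ _).symm
  have hzz : ∀ l, A.per (fun j => z j l) ∈ U := fun l =>
    (hU _).2 (hz ▸ Submodule.subset_span ⟨l, rfl⟩)
  refine ⟨U, fun u hu => ?_, ?_⟩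
  · have h1 : R u ∈ Submodule.span ℂ (Set.range fun l j => ((z j l : ℚ) : ℂ)) := by
      refine (Submodule.span_le.2 ?_ : bc (orth S) ≤ _) ((gb_orth S).ge hu)
      rintro _ ⟨w, hw, rfl⟩
      obtain ⟨c, rfl⟩ := (Submodule.mem_span_range_iff_exists_fun ℚ).1 (hz.ge hw)
      exact (Submodule.mem_span_range_iff_exists_fun ℂ).2 ⟨fun l => c l, funext fun j => by simp only [Rat.cast_intCast, Finset.sum_apply, Pi.smul_apply, smul_eq_mul, map_sum, eq_ratCast, Rat.cast_mul]⟩
    obtain ⟨c, hc⟩ := (Submodule.mem_span_range_iff_exists_fun ℂ).1 h1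
    have h3 : u = ∑ l, (c l).re • A.per fun j => z j l := by
      refine A.ω.equivFun.injective (funext fun j => ?_)
      have h4 := congrArg re (congrFun hc j)
      have h5 := fun l => congrArg re (congrFun (hR fun j => z j l) j)
      rw [map_sum]
      simp only [map_smul, Finset.sum_apply, Pi.smul_apply, smul_eq_mul, re_sum, mul_re,
        ratCast_re, ratCast_im, mul_zero, sub_zero] at h4 h5 ⊢
      exact h4.symm.trans (Finset.sum_congr rfl fun l _ => congrArg _ (h5 l).symm)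
    rw [h3]
    exact sum_mem fun l _ => Submodule.smul_mem _ _ (Submodule.subset_span ⟨hzz l, _, rfl⟩)
  · have h1 : gd_lam A U = orth S := by
      refine le_antisymm (Submodule.span_le.2 ?_) (hz ▸ Submodule.span_le.2 ?_)
      · rintro _ ⟨n, hn, rfl⟩
        exact (hU n).1 hn
      · rintro _ ⟨l, rfl⟩
        exact Submodule.subset_span ⟨_, hzz l, rfl⟩
    rw [gd_ann, h1]
    refine (Submodule.eq_of_le_of_finrank_eq (fun v hv μ hμ => ?_) ?_).symm
    · rw [dotProduct_comm, hμ v hv]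
    · have := orth_rank S
      have := orth_rank (orth S)
      omega

/-- The case `m ≤ g`. -/
theorem half_b (A : AbVar g N) (V : Submodule ℚ (Fin (2 * g) → ℚ)) (hm : finrank ℚ V ≤ g)
    (hV : ∀ U, A.IsSub U → U ≠ ⊥ → U ≠ ⊤ →
      2 * g * finrank ℚ (V ⊓ A.ann U : Submodule ℚ _) ≤ finrank ℚ V * finrank ℚ (A.ann U) ∧
        (finrank ℚ V = g → 2 * finrank ℚ (V ⊓ A.ann U : Submodule ℚ _) < finrank ℚ (A.ann U)))
    (K : IntermediateField ℚ ℂ)
    (hK : cx V ≤ Submodule.span ℂ ((Submodule.span K A.dR : Set (Fin (2 * g) → ℂ)) ∩ cx V)) :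
    ((finrank ℚ V * (2 * g - finrank ℚ V) : ℕ) : Cardinal) ≤
      ((g * (finrank ℚ V - 2 * finrank ℂ (cx V ⊓ hol A : Submodule ℂ _)) : ℕ) : Cardinal) *
        Algebra.trdeg ℚ K := by
  rcases Nat.eq_zero_or_pos g with hg | hg
  · rw [show finrank ℚ V = 0 by omega, zero_mul, Nat.cast_zero]
    exact zero_le
  obtain ⟨Z, h1, h2, h3, h4⟩ := exists_Z A V K hK
  refine gen_b A V hg hm (fun U hU => ?_) (fun h U hU h0 hT => (hV U hU h0 hT).2 h) Z h1 h2 h3 K h4
  have h5 := ann_rank hU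
  by_cases h0 : U = ⊥
  · rw [h0, finrank_bot] at h5
    rw [h0, show finrank ℚ (A.ann ⊥) = 2 * g from h5, mul_comm]
    exact Nat.mul_le_mul_right _ (Submodule.finrank_mono inf_le_left)
  by_cases hT : U = ⊤
  · have h6 := Submodule.finrank_mono (inf_le_right : V ⊓ A.ann U ≤ _)
    rw [hT, finrank_top, finrank_fin_fun, ← hT] at h5
    rw [show finrank ℚ (V ⊓ A.ann U : Submodule ℚ _) = 0 by omega, mul_zero]
    exact Nat.zero_le _
  exact (hV U hU h0 hT).1

/-- The complementary subtorus. -/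
theorem dual_sub {F : Matrix (Fin (2 * g)) (Fin (2 * g)) ℚ} (hF : Rf A F)
    (V : Submodule ℚ (Fin (2 * g) → ℚ)) (hU : A.IsSub U) : ∃ U', A.IsSub U' ∧
      finrank ℚ (A.ann U') + finrank ℚ (A.ann U) = 2 * g ∧
      finrank ℚ (orth (V.map F.mulVecLin) ⊓ A.ann U : Submodule ℚ _) + finrank ℚ V +
        finrank ℚ (A.ann U') = 2 * g + finrank ℚ (V ⊓ A.ann U' : Submodule ℚ _) := by
  obtain ⟨U', h1, h2⟩ := sub_of_J A _ (orth_J hF hU)
  have h3 := gb_rank (A.ann U) hF.det
  have h4 := gb_rank (A.ann U') hF.det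
  have h5 := gb_rank (V ⊔ A.ann U') hF.det
  have h6 := Submodule.finrank_sup_add_finrank_inf_eq V (A.ann U')
  rw [← h2] at h3
  have h7 : A.ann U = orth ((A.ann U').map F.mulVecLin) := by
    refine Submodule.eq_of_le_of_finrank_eq ?_ (by omega)
    rintro v hv _ ⟨w, hw, rfl⟩
    have h8 := (h2 ▸ hw) _ ⟨v, hv, rfl⟩
    rw [mulVecLin_apply] at h8 ⊢
    rw [dotProduct_mulVec, ← mulVec_transpose, hF.skew, neg_mulVec, neg_dotProduct,
      dotProduct_comm, h8, neg_zero]
  rw [Submodule.map_sup, gb_sup, ← h7] at h5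
  rw [Fintype.card_fin] at h3 h5
  exact ⟨U', h1, h3, by omega⟩

theorem stable_b (A : AbVar g N) (V : Submodule ℚ (Fin (2 * g) → ℚ))
    (hV : ∀ U, A.IsSub U → U ≠ ⊥ → U ≠ ⊤ →
      2 * g * finrank ℚ (V ⊓ A.ann U : Submodule ℚ _) ≤ finrank ℚ V * finrank ℚ (A.ann U) ∧
        (finrank ℚ V = g → 2 * finrank ℚ (V ⊓ A.ann U : Submodule ℚ _) < finrank ℚ (A.ann U)))
    (K : IntermediateField ℚ ℂ)
    (hK : cx V ≤ Submodule.span ℂ ((Submodule.span K A.dR : Set (Fin (2 * g) → ℂ)) ∩ cx V)) :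
    ((finrank ℚ V * (2 * g - finrank ℚ V) : ℕ) : Cardinal) ≤
      ((g * (finrank ℚ V - 2 * finrank ℂ (cx V ⊓ hol A : Submodule ℂ _)) : ℕ) : Cardinal) *
        Algebra.trdeg ℚ K := by
  rcases le_or_gt (finrank ℚ V) g with hm | hm
  · exact half_b A V hm hV K hK
  obtain ⟨F, hF⟩ := exists_rf A
  obtain ⟨h2, h3⟩ := exists_dual hF V K hK
  have h1 := gb_rank V hF.det
  rw [Fintype.card_fin] at h1
  have h4 := half_b A _ (by omega) (fun U hU h0 hT => ⟨?_, fun h => by omega⟩) _ h3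
  · rwa [trdeg_clo, show 2 * g - finrank ℚ (orth (V.map F.mulVecLin)) = finrank ℚ V by omega,
      show finrank ℚ (orth (V.map F.mulVecLin)) -
        2 * finrank ℂ (cx (orth (V.map F.mulVecLin)) ⊓ hol A : Submodule ℂ _) =
        finrank ℚ V - 2 * finrank ℂ (cx V ⊓ hol A : Submodule ℂ _) by omega,
      show finrank ℚ (orth (V.map F.mulVecLin)) = 2 * g - finrank ℚ V by omega,
      mul_comm (2 * g - _)] at h4
  obtain ⟨U', h5, h6, h7⟩ := dual_sub hF V hU
  have h8 := ann_rank hU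
  have h9 := ann_rank h5
  have h10 : finrank ℂ U < g := by simpa only [finrank_fintype_fun_eq_card, Fintype.card_fin] using Submodule.finrank_lt hT
  have h11 : finrank ℂ U ≠ 0 := fun h => h0 (Submodule.finrank_eq_zero.1 h)
  have h12 := (hV U' h5 (fun h => by rw [h, finrank_bot, ← h] at h9; omega) fun h => by
    rw [h, finrank_top, finrank_fin_fun, ← h] at h9; omega).1
  zify at h1 h6 h7 h12 ⊢
  nlinarith only [h1, h6, h7, h12]

end GPC33
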