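import Pool.Agent.MP_57341d_ag.H33.Fb

attribute [-instance] Fintype.decidableForallFintype IntermediateField.module'
  ContinuousMonoidHom.instCoeOutOfMonoidHomClassOfContinuousMapClass instCoeHTCTOfCoeTailOfCoeHTC
  SetLike.GradeZero.instCommSemiring SetLike.GradeZero.instSemiring instCoeHTCOfCoeHeadOfCoeOTC
  instCoeTCOfCoe RKHS.instFunLike SetLike.GradeZero.instCommRing SetLike.GradeZero.instRing
  AddQuantale.instAddLeftMono Module.FaithfullyFlat.of_isIntegral_of_isDomain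
  LieAdmissibleAlgebra.toModule IdemSemiring.toMulLeftMono RightPreLieAlgebra.toModule
  LeftPreLieAlgebra.toModule Finset.decidableDforallFinset
  NonUnitalAlgHomClass.toNonUnitalRingHomClass Vector.instDecidableForallForallMemOfDecidablePred
  Multiset.decidableDforallMultiset
  ContinuousAddMonoidHom.instCoeOutOfAddMonoidHomClassOfContinuousMapClass instCoeOutOfCoeFun
  instZeroLEOneClass Array.instDecidableForallForallMemOfDecidablePred
  IsometryClass.instCoeOutIsometryEquiv Int.decidableLTLE IdemSemiring.toCanonicallyOrderedAdd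
  Option.decidableForallMem HomeomorphClass.instCoeOutHomeomorph Quantale.instMulLeftMono
  IsOrderedMonoid.toMulLeftMono NumberField.to_charZero

/-! The transcendence argument with two degrees. -/

open MvPolynomial GPC96 GPC73 GPC42 Module Matrix

namespace GPC33

/-- As `numerics` with `a = (t + 2) e + 2`, `D = ν ^ (2 q a)`, `s = ν ^ (u a)`,
`τ₀ = ν ^ (2 q a + 2)`, `ρ = ν ^ b`, `b = (q a + 1) (t + 1) + 1`, `k = 2 b + 1`;
`u a ℓ + b e + 2 ≤ 2 q a r + 2 g u a`. -/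
theorem numerics_b (c₁ C e r t q u ℓ g : ℕ) (hq : 1 ≤ q) (hu : u ≤ q)
    (h : q * e * (t + 1) + u * ℓ < 2 * q * r + 2 * u * g) :
    ∃ D s ρ k τ₀ : ℕ, 1 ≤ D ∧ 1 ≤ s ∧ 1 ≤ ρ ∧ 1 ≤ k ∧ 1 ≤ τ₀ ∧ s ^ 2 ≤ D ∧ s ^ (2 * q) ≤ D ^ u ∧
      r * D ≤ ρ ^ 2 ∧ ((c₁ * (D + ρ) : ℕ) : ℝ) ^ (c₁ * D) ≤ Real.exp τ₀ ∧
      (k + 1) * τ₀ + 1 ≤ ρ ^ 2 ∧
      16 * ρ ^ 2 * (c₁ * s ^ ℓ * ρ ^ e) ^ k ≤ (D ^ r * s ^ (2 * g)) ^ k ∧
      C * (3 * k * τ₀) ^ (t + 1) + 18 * k * τ₀ < ρ ^ 2 := by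
  obtain ⟨a, ha⟩ : ∃ a, a = (t + 2) * e + 2 := ⟨_, rfl⟩
  obtain ⟨A, hA⟩ : ∃ A, A = 2 * q * a := ⟨_, rfl⟩
  obtain ⟨b, hb⟩ : ∃ b, b = (q * a + 1) * (t + 1) + 1 := ⟨_, rfl⟩
  obtain ⟨k, hk⟩ : ∃ k, k = 2 * b + 1 := ⟨_, rfl⟩
  obtain ⟨ν, hν⟩ : ∃ ν, ν = c₁ * (A + b + 2) + c₁ + r + 16 + (C * (3 * k) ^ (t + 1) + 18 * k) + 2 :=
    ⟨_, rfl⟩
  have h2b : 2 * b = (A + 2) * (t + 1) + 2 := by rw [hA, hb]; ring
  have hab : A + 4 ≤ 2 * b := by rw [h2b, mul_add, mul_one]; omega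
  have hbe : u * a * ℓ + b * e + 2 ≤ A * r + u * a * (2 * g) :=
    calc _ = a * (q * e * (t + 1) + u * ℓ + 1) := by
          rw [hb, mul_add a _ 1, mul_one]
          nth_rewrite 4 [ha]
          ring
      _ ≤ a * (2 * q * r + 2 * u * g) := Nat.mul_le_mul_left _ h
      _ = _ := by rw [hA]; ring
  have hν1 : 1 ≤ ν := by omega
  have hp : ∀ j, 1 ≤ ν ^ j := fun j => Nat.one_le_pow _ _ hν1
  have hm : ∀ {i j}, i ≤ j → ν ^ i ≤ ν ^ j := fun hij => Nat.pow_le_pow_right hν1 hij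
  have hρ : (ν ^ b) ^ 2 = ν ^ (2 * b) := by rw [← pow_mul, mul_comm]
  refine ⟨ν ^ A, ν ^ (u * a), ν ^ b, k, ν ^ (A + 2), hp _, hp _, hp _, by omega, hp _, ?_, ?_, ?_,
    ?_, ?_, ?_, ?_⟩
  · rw [← pow_mul]
    refine hm ?_
    have := Nat.mul_le_mul_right a hu
    rw [hA, mul_assoc 2]
    omega
  · rw [← pow_mul, ← pow_mul, hA]
    exact hm (le_of_eq (by ring))
  · rw [hρ]
    calc r * ν ^ A ≤ ν * ν ^ A := Nat.mul_le_mul_right _ (by omega)
      _ = ν ^ (A + 1) := by ring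
      _ ≤ _ := hm (by omega)
  · have h1 : c₁ * (ν ^ A + ν ^ b) ≤ ν ^ (A + b + 2) := by
      have h2 : ν ^ A + ν ^ b ≤ ν * ν ^ (A + b) := by
        have := hm (Nat.le_add_right A b)
        have := hm (Nat.le_add_left b A)
        calc _ ≤ 2 * ν ^ (A + b) := by omega
          _ ≤ _ := Nat.mul_le_mul_right _ (by omega)
      calc _ ≤ ν * (ν * ν ^ (A + b)) := Nat.mul_le_mul (by omega) h2
        _ = _ := by ring
    have h3 : (ν : ℝ) ≤ Real.exp ν := by linarith only [Real.add_one_le_exp (ν : ℝ)]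
    have h4 : ν * (A + b + 2) * (c₁ * ν ^ A) ≤ ν ^ (A + 2) := by
      calc _ = (c₁ * (A + b + 2)) * (ν * ν ^ A) := by ring
        _ ≤ ν * (ν * ν ^ A) := Nat.mul_le_mul_right _ (by omega)
        _ = _ := by ring
    calc ((c₁ * (ν ^ A + ν ^ b) : ℕ) : ℝ) ^ (c₁ * ν ^ A)
        ≤ (Real.exp ν ^ (A + b + 2)) ^ (c₁ * ν ^ A) := by
          gcongr
          calc _ ≤ ((ν ^ (A + b + 2) : ℕ) : ℝ) := by exact_mod_cast h1
            _ ≤ _ := by
              rw [Nat.cast_pow]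
              gcongr
      _ = Real.exp ((ν * (A + b + 2) * (c₁ * ν ^ A) : ℕ) : ℝ) := by
          rw [← pow_mul, ← Real.exp_nat_mul]
          congr 1
          push_cast
          ring
      _ ≤ _ := Real.exp_le_exp.2 (by exact_mod_cast h4)
  · rw [hρ]
    have := hp (A + 2)
    calc (k + 1) * ν ^ (A + 2) + 1 ≤ (k + 2) * ν ^ (A + 2) := by
          rw [show k + 2 = k + 1 + 1 from rfl, add_mul (k + 1)]; omega
      _ ≤ ν * ν ^ (A + 2) := Nat.mul_le_mul_right _ (by omega)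
      _ = ν ^ (A + 3) := by ring
      _ ≤ _ := hm (by omega)
  · rw [hρ]
    calc 16 * ν ^ (2 * b) * (c₁ * (ν ^ (u * a)) ^ ℓ * (ν ^ b) ^ e) ^ k
        ≤ ν * ν ^ (2 * b) * (ν * (ν ^ (u * a)) ^ ℓ * (ν ^ b) ^ e) ^ k := by gcongr <;> omega
      _ = ν ^ ((u * a * ℓ + b * e + 2) * k) := by
          rw [← pow_succ', ← hk, ← mul_pow, ← pow_mul, ← pow_mul, mul_assoc ν, ← pow_add,
            ← pow_succ', ← pow_succ', ← pow_mul]
      _ ≤ ν ^ ((A * r + u * a * (2 * g)) * k) := hm (Nat.mul_le_mul_right _ hbe)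
      _ = _ := by rw [← pow_mul, ← pow_mul, ← pow_add, ← pow_mul]
  · rw [hρ, h2b]
    have h1 : ν ^ (A + 2) ≤ ν ^ ((A + 2) * (t + 1)) := hm (Nat.le_mul_of_pos_right _ (by omega))
    have h2 := hp ((A + 2) * (t + 1))
    calc C * (3 * k * ν ^ (A + 2)) ^ (t + 1) + 18 * k * ν ^ (A + 2)
        ≤ (C * (3 * k) ^ (t + 1) + 18 * k) * ν ^ ((A + 2) * (t + 1)) := by
          rw [mul_pow, ← pow_mul, add_mul (C * _), mul_assoc C]
          gcongr
      _ < ν * ν ^ ((A + 2) * (t + 1)) := Nat.mul_lt_mul_of_pos_right (by omega) h2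
      _ = ν ^ ((A + 2) * (t + 1) + 1) := by ring
      _ ≤ _ := hm (by omega)

/-- As `mab_nat`; `s ≤ s ^ 2 ≤ D`. -/
theorem nat_b (c C C' R w n r e g ℓ : ℕ) (hc : 1 ≤ c) (hr : 1 ≤ r) : ∃ c₁ : ℕ,
    C' * (g + 1) ^ ℓ ≤ c₁ ∧ ∀ (D s ρ τ₀ : ℕ), 1 ≤ D → 1 ≤ s → 1 ≤ ρ → s ^ 2 ≤ D →
      ((c₁ * (D + ρ) : ℕ) : ℝ) ^ (c₁ * D) ≤ Real.exp τ₀ →
      (((D + 1) ^ r * (s ^ 2) ^ g : ℕ) : ℝ) ≤ Real.exp τ₀ ∧
      ((C' * ((g + 1) * s) ^ ℓ * ρ ^ e : ℕ) : ℝ) ≤ Real.exp τ₀ ∧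
      (((n + 1) ^ (C * D) : ℕ) : ℝ) ≤ Real.exp τ₀ ∧
      (∀ a β, a ≤ C * D → β ≤ g * D + 1 → ((w ^ β * ((a + 1) ^ a *
        (C' ^ (((g + 1) * s) ^ 2) * (C' * (r * D + ρ)) ^ (r * D))) : ℕ) : ℝ) ≤ Real.exp τ₀) ∧
      ∀ a, a ≤ C * D + r * D + g * D → c * a ≤ τ₀ ∧
        (((c * (a + 1)) ^ (2 * a) : ℕ) : ℝ) ≤ Real.exp τ₀ ∧
        (((c * (a + 1)) ^ (2 * a) * R ^ (c * a) : ℕ) : ℝ) ≤ Real.exp τ₀ := by
  obtain ⟨G, hG⟩ : ∃ G, G = (g + 1) ^ 2 := ⟨_, rfl⟩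
  obtain ⟨c₁, a0, a1, a2, a3, a4, a5, a6⟩ : ∃ c₁ : ℕ, C' * (g + 1) ^ ℓ ≤ c₁ ∧
      (c + 2) * (C + r + g + G + 2) ≤ c₁ ∧ C' * r ≤ c₁ ∧ R ≤ c₁ ∧ w ≤ c₁ ∧ n + 1 ≤ c₁ ∧
      ℓ + e + 1 ≤ c₁ :=
    ⟨C' * (g + 1) ^ ℓ + (c + 2) * (C + r + g + G + 2) + C' * r + R + w + n + ℓ + e + 1, by omega,
      by omega, by omega, by omega, by omega, by omega, by omega⟩
  have a7 : C' ≤ c₁ := le_trans (Nat.le_mul_of_pos_right _ hr) a2
  have a8 : C + r + g + G + 2 ≤ c₁ := le_trans (Nat.le_mul_of_pos_left _ (by omega)) a1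
  refine ⟨c₁, a0, fun D s ρ τ₀ hD hs hρ hsD hS => ?_⟩
  have b1 : ∀ a, a ≤ c₁ → a * (D + ρ) ≤ c₁ * (D + ρ) := fun a h => Nat.mul_le_mul_right _ h
  have b2 : ∀ a, a ≤ c₁ → a * D ≤ c₁ * D := fun a h => Nat.mul_le_mul_right _ h
  have b3 : c₁ ≤ c₁ * (D + ρ) := Nat.le_mul_of_pos_right _ (by omega)
  have b4 : c₁ ≤ c₁ * D := Nat.le_mul_of_pos_right _ hD
  have b5 := b1 1 (by omega)
  have b6 : c₁ * D ≤ c₁ * (D + ρ) := Nat.mul_le_mul_left _ (by omega)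
  have b8 : (g + 1) * s ≤ c₁ * D :=
    Nat.mul_le_mul (by omega) ((Nat.le_self_pow two_ne_zero s).trans hsD)
  have b9 : ((g + 1) * s) ^ 2 ≤ G * D := by
    rw [mul_pow, hG]
    exact Nat.mul_le_mul_left _ hsD
  generalize c₁ * (D + ρ) = W at *
  have hW : ∀ a j : ℕ, a ≤ W ^ j → j ≤ c₁ * D → (a : ℝ) ≤ Real.exp τ₀ := fun a j h hj =>
    le_trans (by exact_mod_cast h.trans (Nat.pow_le_pow_right (by omega) hj)) hS
  have hP : ∀ {a i j : ℕ}, a ≤ W → i ≤ j → a ^ i ≤ W ^ j := fun h1 h2 =>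
    (Nat.pow_le_pow_left h1 _).trans (Nat.pow_le_pow_right (by omega) h2)
  have hdeg : c₁ * D ≤ τ₀ := by
    have h3 : Real.exp 1 ≤ W := Real.exp_one_lt_three.le.trans (by exact_mod_cast by omega)
    have h4 := (pow_le_pow_left₀ (Real.exp_pos _).le h3 (c₁ * D)).trans hS
    rw [← Real.exp_nat_mul, mul_one, Real.exp_le_exp] at h4
    exact_mod_cast h4
  have b7 := b2 _ a8
  simp only [add_mul] at b7
  refine ⟨hW _ (r + g) ?_ (by omega), hW _ (1 + ℓ + e) ?_ (by omega),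
    hW _ (C * D) (hP (by omega) le_rfl) (by omega),
    fun a β ha hβ => hW _ (g * D + 1 + (C * D + (G * D + r * D))) ?_ (by omega), fun a ha => ?_⟩
  · rw [pow_add]
    exact Nat.mul_le_mul (hP (by omega) le_rfl) (hP (by omega) le_rfl)
  · rw [pow_add, pow_add, pow_one]
    exact Nat.mul_le_mul (Nat.mul_le_mul (by omega) (hP (b8.trans b6) le_rfl))
      (hP (by omega) le_rfl)
  · rw [pow_add, pow_add W (C * D), pow_add W (G * D)]
    refine Nat.mul_le_mul (hP (by omega) hβ) (Nat.mul_le_mul (hP (by omega) ha)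
      (Nat.mul_le_mul (hP (by omega) b9) (hP (le_trans ?_ (b1 _ a2)) le_rfl)))
    rw [mul_assoc, mul_add r]
    exact Nat.mul_le_mul_left _ (Nat.add_le_add_left (Nat.le_mul_of_pos_left _ hr) _)
  · have h3 : a + 1 ≤ (C + r + g + G + 2) * D := by simp only [add_mul]; omega
    have h4 := (Nat.mul_le_mul_left (c + 2) h3).trans ((mul_assoc _ _ _).ge.trans (b2 _ a1))
    simp only [add_mul, mul_add, mul_one] at h4
    have h5 := Nat.pow_le_pow_left (show c * (a + 1) ≤ W by rw [mul_add]; omega) (2 * a)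
    refine ⟨by omega, hW _ _ h5 (by omega), hW _ (2 * a + c * a) ?_ (by omega)⟩
    rw [pow_add]
    exact Nat.mul_le_mul h5 (hP (by omega) le_rfl)

variable {g N n r ℓ e : ℕ}

theorem mb_par (x : Par g n r → ℂ) : ∃ (Ω : Matrix (Fin g) (Fin n) ℂ)
    (B : Matrix (Fin r) (Fin n) ℂ) (X : Matrix (Fin g) (Fin r) ℂ), x = par Ω B X :=
  ⟨fun i j => x (Sum.inl (i, j)), fun i j => x (Sum.inr (Sum.inl (i, j))),
    fun i j => x (Sum.inr (Sum.inr (i, j))), by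
      funext p
      rcases p with p | p | p <;> rfl⟩

/-- Copy `exists_Q'`.  Columns `(Fin r → Fin (D + 1)) × (Fin g → Fin (β + 1))` with `β + 1 = s ^ 2`
(`exists_mono`, lists of length `g β`); `jet_b`, `inj_b` with `c₀ = (g + 1) ^ q`, `small_b` with
`(g + 1) * s` in place of `s` (`g β + 1 ≤ (g + 1) s ^ 2`), `nat_b`, `mab_tens`, `mab_div` with
`θ k₀ x₀ ^ (g β + 1)` and `w ^ (g β + 1)`. -/
theorem exists_Q_b (A : AbVar g N) (k₀ : Fin (N + 1)) {x₀ : Fin g → ℂ} {τ : Type}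
    [Fintype τ] (ch : Chart (A.θ k₀) x₀ τ) (Y : Fin (N + 1) → τ)
    (hY : ∀ i, ∀ z ∈ ch.O, A.θ i z = A.θ k₀ z * ch.ξ (Y i) z) (Ω : Matrix (Fin g) (Fin n) ℂ)
    (B : Matrix (Fin r) (Fin n) ℂ) (X : Matrix (Fin g) (Fin r) ℂ)
    (ν : Fin ℓ → Fin (2 * g) → ℤ) (b : Basis (Fin ℓ ⊕ Fin e) ℝ (Fin n → ℂ)) (hr : 1 ≤ r)
    (hn : 1 ≤ n) (h1 : ∀ a, Ω *ᵥ b (Sum.inl a) = A.per (ν a))
    (h2 : ∀ a, B *ᵥ b (Sum.inl a) = -∑ j, ν a j • wX A X j) {κ' : Type} (y : κ' → ℂ) (q u : ℕ)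
    (hq : 1 ≤ q)
    (hg : ∀ (Ω₁ : Matrix (Fin g) (Fin n) ℂ) (B₁ : Matrix (Fin r) (Fin n) ℂ)
      (X₁ : Matrix (Fin g) (Fin r) ℂ) (y₁ : κ' → ℂ),
      Sp (Sum.elim (par Ω B X) y) (Sum.elim (par Ω₁ B₁ X₁) y₁) →
      (∃ Ω' : Matrix (Fin n) (Fin g) ℂ, Ω' * Ω₁ = 1) ∧
      (∃ X' : Matrix (Fin r) (Fin g) ℂ, X' * X₁ = 1) ∧
      GoodW A q u (wX A X₁) (Submodule.span ℂ (Set.range (dir Ω₁ B₁)))) :
    ∃ (κ : Type) (_ : Fintype κ) (γ : κ → ℂ) (c₁ : ℕ), (∀ i, IsAlgebraic ℚ (γ i)) ∧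
      ∀ D s ρ k τ₀ : ℕ, 1 ≤ D → 1 ≤ s → 1 ≤ ρ → 1 ≤ k → 1 ≤ τ₀ → s ^ 2 ≤ D →
        s ^ (2 * q) ≤ D ^ u → r * D ≤ ρ ^ 2 →
        ((c₁ * (D + ρ) : ℕ) : ℝ) ^ (c₁ * D) ≤ Real.exp τ₀ → (k + 1) * τ₀ + 1 ≤ ρ ^ 2 →
        16 * ρ ^ 2 * (c₁ * s ^ ℓ * ρ ^ e) ^ k ≤ (D ^ r * s ^ (2 * g)) ^ k →
        ∃ (J : Type) (_ : Fintype J) (Q : J → MvPolynomial ((Par g n r ⊕ κ) ⊕ κ') ℤ),
          (Fintype.card J : ℝ) ≤ Real.exp (3 * k * τ₀ : ℕ) ∧
          (∀ j, Sz (3 * k * τ₀) (Real.exp (3 * k * τ₀ : ℕ)) (Q j)) ∧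
          (∀ χ, Sp (Sum.elim (Sum.elim (par Ω B X) γ) y) χ → ∃ j, aeval χ (Q j) ≠ 0) ∧
          ∀ j, ‖aeval (Sum.elim (Sum.elim (par Ω B X) γ) y) (Q j)‖ ≤
            Real.exp (18 * k * τ₀ - (ρ : ℝ) ^ 2) := by
  classical
  obtain ⟨κ, _, γ, c, Pol, hγ, hc, hSz, hent⟩ := jet_b A k₀ ch Y hY n r
  obtain ⟨C, hC, hinj⟩ := inj_b A k₀ x₀ hr hn q u ((g + 1) ^ q) hq
  obtain ⟨C', hC', hsm⟩ := small_b A k₀ x₀ Ω B X ν b h1 h2
  have hθ : 0 < ‖A.θ k₀ x₀‖ := norm_pos_iff.2 ch.ne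
  obtain ⟨w, hw⟩ := exists_nat_ge (1 / ‖A.θ k₀ x₀‖)
  obtain ⟨R, hR⟩ := exists_nat_ge (1 + ∑ i, ‖Sum.elim (par Ω B X) γ i‖)
  have hR0 : (0 : ℝ) ≤ ∑ i, ‖Sum.elim (par Ω B X) γ i‖ := Finset.sum_nonneg fun _ _ => norm_nonneg _
  have hR1 : (1 : ℝ) ≤ R := by linarith only [hR, hR0]
  have hR2 : ∀ i, ‖Sum.elim (par Ω B X) γ i‖ ≤ R := fun i => by
    linarith only [Finset.single_le_sum (f := fun i => ‖Sum.elim (par Ω B X) γ i‖)
      (fun _ _ => norm_nonneg _) (Finset.mem_univ i), hR]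
  obtain ⟨c₁, a7, hnat⟩ := nat_b c C C' R w n r e g ℓ hc hr
  refine ⟨κ, inferInstance, γ, c₁, hγ, fun D s ρ k τ₀ hD hs hρ hk hτ hsD hsq hrD hS hV hp => ?_⟩
  obtain ⟨n1, n2, n3, n4, n5⟩ := hnat D s ρ τ₀ hD hs hρ hsD hS
  obtain ⟨β, hβ⟩ : ∃ β, β + 1 = s ^ 2 := ⟨s ^ 2 - 1, Nat.sub_add_cancel (Nat.one_le_pow _ _ hs)⟩
  obtain ⟨μ, hμ, hI⟩ := exists_mono A k₀ ⟨x₀, ch.ne⟩ β
  have b1 : g * β ≤ g * D := Nat.mul_le_mul_left _ (by omega)
  have b2 : g * β + 1 ≤ (g + 1) * s ^ 2 := by rw [← hβ]; linarith only []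
  have b3 : g * β + 1 ≤ ((g + 1) * s) ^ 2 := by
    rw [mul_pow]
    exact b2.trans (Nat.mul_le_mul_right _ (Nat.le_self_pow two_ne_zero _))
  have b4 : (g * β + 1) ^ q ≤ (g + 1) ^ q * D ^ u := by
    refine (Nat.pow_le_pow_left b2 q).trans ?_
    rw [mul_pow, ← pow_mul]
    exact Nat.mul_le_mul_left _ hsq
  choose l hl using fun β : Fin r → Fin (D + 1) => core_exists_list fun i => (β i : ℕ)
  have hl' : ∀ β, (l β).length ≤ r * D := fun β => mab_len β _ fun i => (hl β i).symm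
  let wd : (Fin (C * D) → Option (Fin n)) → List (Fin n) := fun f => (List.ofFn f).reduceOption
  have hwd : ∀ f, (wd f).length ≤ C * D := fun f =>
    (List.reduceOption_length_le _).trans (by simp)
  obtain ⟨Γ, hΓ, hsmall⟩ := hsm ((g + 1) * s) ρ (Nat.mul_pos g.succ_pos hs) hρ
  have n6 := fun f β δ =>
    n5 _ (Nat.add_le_add (Nat.add_le_add (hwd f) (hl' β)) ((hμ δ).le.trans b1))
  obtain ⟨Q, q1, q2, q3⟩ := mab_tens (Γ := Γ)
    (ι := (Fin r → Fin (D + 1)) × (Fin g → Fin (β + 1))) (Sum.elim (par Ω B X) γ)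
    (fun f i => Pol (wd f) (l i.1) (μ i.2)) (fun z i => (col A k₀ X (l i.1) (μ i.2)).1 z)
    (ρ := (ρ : ℝ) ^ 2) hk hτ
    (fun f i => (hSz _ _ _).mono (n6 f i.1 i.2).1 (by exact_mod_cast (n6 f i.1 i.2).2.1))
    (fun f i => ((hSz _ _ _).aeval_le _ hR1 hR2).trans (by exact_mod_cast (n6 f i.1 i.2).2.2))
    (by simpa only [hβ, Fintype.card_prod, Fintype.card_pi, Fintype.card_fin, Finset.prod_const, Finset.card_univ, Nat.cast_mul, Nat.cast_pow, Nat.cast_add, Nat.cast_one] using n1) (by rw [Fintype.card_coe]; exact (Nat.cast_le.2 hΓ).trans n2)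
    (by exact_mod_cast hV) (by
      simp only [Fintype.card_coe, Fintype.card_prod, Fintype.card_fun, Fintype.card_fin, hβ]
      have h3 : 16 * ρ ^ 2 * Γ.card ^ k ≤ ((D + 1) ^ r * (s ^ 2) ^ g) ^ k := by
        refine le_trans (Nat.mul_le_mul_left _ (Nat.pow_le_pow_left (hΓ.trans ?_) _))
          (hp.trans (Nat.pow_le_pow_left ?_ _))
        · rw [mul_pow, ← mul_assoc]
          exact Nat.mul_le_mul_right _ (Nat.mul_le_mul_right _ a7)
        · rw [pow_mul]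
          exact Nat.mul_le_mul_right _ (Nat.pow_le_pow_left (by omega) _)
      exact_mod_cast h3) fun v hv f => by
      have h3 := hsmall (r * D) (g * β) ((Fin r → Fin (D + 1)) × (Fin g → Fin (β + 1)))
        (fun i => l i.1) (fun i => μ i.2) v (Nat.mul_pos hr hD) hrD b3 (fun i => hl' i.1)
        (fun i => hμ i.2) (fun z hz => hv ⟨z, hz⟩) (wd f)
      simp only [hent, hμ, mul_left_comm (v _), ← Finset.mul_sum] at h3
      refine mab_div (w := (w : ℝ) ^ (g * β + 1)) (by rw [norm_pow]; positivity) ?_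
        (Real.exp_pos _).le (Finset.sum_nonneg fun _ _ => norm_nonneg _) h3
        (by exact_mod_cast n4 _ _ (hwd f) (Nat.succ_le_succ b1))
      rw [norm_pow, ← _root_.one_div_pow]
      exact pow_le_pow_left₀ (by positivity) hw _
  refine ⟨_, inferInstance, fun j => rename Sum.inl (Q j), ?_, fun j => (q1 j).rename _,
    fun χ hχ => ?_, fun j => ?_⟩
  · rw [Fintype.card_fun, Fintype.card_fun, Fintype.card_option, Fintype.card_fin,
      Fintype.card_fin, Fintype.card_fin, Nat.cast_pow]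
    refine (pow_le_pow_left₀ (Nat.cast_nonneg _) n3 k).trans ?_
    rw [← Real.exp_nat_mul, Real.exp_le_exp, mul_assoc]
    exact_mod_cast Nat.le_mul_of_pos_left (k * τ₀) (by norm_num : 0 < 3)
  · obtain ⟨Ω₁, B₁, X₁, e0⟩ := mb_par fun p => χ (Sum.inl (Sum.inl p))
    have e1 : χ ∘ Sum.inl = Sum.elim (par Ω₁ B₁ X₁) γ := by
      funext p
      rcases p with p | p
      · exact congrFun e0 p
      · exact hχ.fix (i := Sum.inl (Sum.inr p)) (hγ p)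
    obtain ⟨e2, e3, e4⟩ := hg Ω₁ B₁ X₁ (χ ∘ Sum.inr) (by
      have h3 := hχ.comp (Sum.map Sum.inl id : Par g n r ⊕ κ' → (Par g n r ⊕ κ) ⊕ κ')
      convert h3 using 1
      · funext p
        rcases p with p | p <;> rfl
      · funext p
        rcases p with p | p
        · exact (congrFun e0 p).symm
        · rfl)
    obtain ⟨j, hj⟩ := q2 (Sum.elim (par Ω₁ B₁ X₁) γ) fun v hv =>
      hinj Ω₁ B₁ X₁ D (g * β) l _ μ e2 e3 e4 hD (fun β i => (hl β i).symm) hμ b4 hI v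
        fun u hu => by
          obtain ⟨f, rfl⟩ := exists_opt u hu
          simp only [hent, hμ, mul_left_comm (v _), ← Finset.mul_sum]
          exact mul_eq_zero_of_right _ (hv f)
    exact ⟨j, by rwa [aeval_rename, e1]⟩
  · rw [aeval_rename]
    exact q3 j

/-- The orthogonal for the dot product. -/
def orth {F ι : Type} [Field F] [Fintype ι] (S : Submodule F (ι → F)) : Submodule F (ι → F) where
  carrier := {μ | ∀ v ∈ S, μ ⬝ᵥ v = 0}
  add_mem' := fun h h' v hv => by rw [add_dotProduct, h v hv, h' v hv, add_zero]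
  zero_mem' := fun v _ => zero_dotProduct v
  smul_mem' := fun c μ h v hv => by rw [smul_dotProduct, h v hv, smul_zero]

/-- The period matrix with the columns `ω · i` and `η l`. -/
noncomputable def pm (A : AbVar g N) (η : Fin g → Fin (2 * g) → ℂ) :
    Matrix (Fin (2 * g)) (Fin g ⊕ Fin g) ℂ :=
  Matrix.of fun j => Sum.elim (A.ω j) fun l => η l j

/-- The data of the transcendence argument. -/
structure Dat (A : AbVar g N) (η : Fin g → Fin (2 * g) → ℂ) (V : Submodule ℚ (Fin (2 * g) → ℚ))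
    (K : IntermediateField ℚ ℂ) (n r ℓ : ℕ) where
  Ω : Matrix (Fin g) (Fin n) ℂ
  B : Matrix (Fin r) (Fin n) ℂ
  X : Matrix (Fin g) (Fin r) ℂ
  Ω' : Matrix (Fin n) (Fin g) ℂ
  ν : Fin ℓ → Fin (2 * g) → ℤ
  dR : ∀ l, η l ∈ A.dR
  top : Submodule.span ℂ (Set.range fun j => ((A.ω j, fun l => η l j) : LG g g)) = ⊤
  alg : ∀ i j, IsAlgebraic K (Ω' i j)
  hn : n + finrank ℂ (cx V ⊓ hol A : Submodule ℂ _) = g
  hr : r + finrank ℂ (cx V ⊓ hol A : Submodule ℂ _) = finrank ℚ V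
  span : Submodule.span ℂ (Set.range fun a j => (ν a j : ℂ)) = orth (cx V)
  rel : ∀ μ ∈ orth (cx V),
    Ω *ᵥ (Ω' *ᵥ ((μ ᵥ* pm A η) ∘ Sum.inl)) = (μ ᵥ* pm A η) ∘ Sum.inl ∧
      B *ᵥ (Ω' *ᵥ ((μ ᵥ* pm A η) ∘ Sum.inl)) = -(Xᵀ *ᵥ ((μ ᵥ* pm A η) ∘ Sum.inr))

/-- `LinearMap.BilinForm.finrank_orthogonal` as in `lib_orth`. -/
theorem orth_rank {F ι : Type} [Field F] [Fintype ι] (S : Submodule F (ι → F)) :
    finrank F (orth S) + finrank F S = Fintype.card ι := by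
  classical
  have h : orth S = S.dualAnnihilator.map (dotProductEquiv F ι).symm.toLinearMap := by
    rw [Submodule.map_equiv_eq_comap_symm]
    ext μ
    exact (Submodule.mem_dualAnnihilator (W := S) (dotProductEquiv F ι μ)).symm
  rw [h, LinearEquiv.finrank_map_eq, add_comm, Subspace.finrank_add_finrank_dualAnnihilator_eq,
    finrank_fintype_fun_eq_card]

theorem cx_rank {ι : Type} [Fintype ι] (S : Submodule ℚ (ι → ℚ)) :
    finrank ℂ (cx S) = finrank ℚ S := by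
  exact finrank_bc S

/-- `mem_bc` (`cx S = bc S` by `rfl`). -/
theorem cx_inf {ι : Type} [Fintype ι] (S T : Submodule ℚ (ι → ℚ)) : cx (S ⊓ T) = cx S ⊓ cx T := by
  ext y
  exact (mem_bc (S ⊓ T) y).trans (by
    simp only [Submodule.mem_inf, forall_and]
    exact and_congr (mem_bc S y).symm (mem_bc T y).symm)

/-- Copy `setup` with `lin_split'`; `rel` is `lid_lift` (as `hL` there, for complex `μ`); the `ν a`
of `exists_nu` are independent over `ℂ` (`lin_cast`; independence over `ℚ` follows from that of the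
periods) and orthogonal to `cx V`, and the dimensions agree (`orth_rank`, `cx_rank`). -/
theorem setup_b (A : AbVar g N) (η : Fin g → Fin (2 * g) → ℂ) (hη : ∀ l, η l ∈ A.dR)
    (hP : Submodule.span ℂ (Set.range fun j => ((A.ω j, fun l => η l j) : LG g g)) = ⊤)
    (V : Submodule ℚ (Fin (2 * g) → ℚ)) (hm : finrank ℚ V ≤ g) (K : IntermediateField ℚ ℂ)
    (hK : cx V ≤ Submodule.span ℂ ((Submodule.span K A.dR : Set (Fin (2 * g) → ℂ)) ∩ cx V)) :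
    ∃ (n r ℓ e : ℕ) (T : Dat A η V K n r ℓ) (X' : Matrix (Fin r) (Fin g) ℂ)
      (b : Basis (Fin ℓ ⊕ Fin e) ℝ (Fin n → ℂ)),
      (∀ i j, IsAlgebraic K (T.Ω i j)) ∧ (∀ i j, IsAlgebraic K (T.B i j)) ∧
      (∀ i j, IsAlgebraic K (T.X i j)) ∧ (∀ i j, IsAlgebraic K (X' i j)) ∧
      T.Ω' * T.Ω = 1 ∧ X' * T.X = 1 ∧ (∀ a, T.Ω *ᵥ b (Sum.inl a) = A.per (T.ν a)) ∧
      (∀ a, T.B *ᵥ b (Sum.inl a) = -∑ j, T.ν a j • fun i => ∑ l, T.X l i * η l j) ∧
      e + 2 * finrank ℂ (cx V ⊓ hol A : Submodule ℂ _) = finrank ℚ V ∧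
      ℓ + finrank ℚ V = 2 * g := by
  obtain ⟨S, hS1, hS2, hS3⟩ := exists_S A η hη hP V K hK
  obtain ⟨n, r, Ω, B, X, Ω', X', h1, h2, h3, h4, h5, -, -⟩ := lin_split' S
  obtain ⟨ℓ, ν, h6, h7, h8⟩ := exists_nu A V
  have hL := fun μ (hμ : μ ∈ orth (cx V)) => lid_lift S Ω B X Ω' h5 ((μ ᵥ* pm A η) ∘ Sum.inl)
    ((μ ᵥ* pm A η) ∘ Sum.inr) (by
    intro c hc
    rw [← hμ _ (hS3 c hc)]
    simp only [pm, Function.comp, Matrix.vecMul, dotProduct, Matrix.of_apply, Sum.elim_inl,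
      Sum.elim_inr, mul_add, Finset.sum_add_distrib, Finset.mul_sum]
    congr 1
    · rw [Finset.sum_comm]
      exact Finset.sum_congr rfl fun j _ => Finset.sum_congr rfl fun i _ => mul_left_comm _ _ _
    · rw [Finset.sum_comm]
      exact Finset.sum_congr rfl fun j _ => Finset.sum_congr rfl fun i _ => mul_left_comm _ _ _)
  have hν : ∀ a, (fun j => (ν a j : ℂ)) ∈ orth (cx V) := h8
  have hp : ∀ a, ((fun j => (ν a j : ℂ)) ᵥ* pm A η) ∘ Sum.inl = A.per (ν a) := fun a => by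
    funext i
    simp only [pm, Function.comp_apply, vecMul, dotProduct, of_apply, Sum.elim_inl, AbVar.per, zsmul_eq_mul, Finset.sum_apply, Pi.mul_apply, Pi.intCast_apply]
  have hL' := fun a => hL _ (hν a)
  simp only [hp] at hL'
  have hu : LinearIndependent ℝ fun a =>
      Ω'.map (algebraMap (algebraicClosure K ℂ) ℂ) *ᵥ A.per (ν a) := by
    refine LinearIndependent.of_comp
      ((Ω.map (algebraMap (algebraicClosure K ℂ) ℂ)).mulVecLin.restrictScalars ℝ) ?_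
    have : ((Ω.map (algebraMap (algebraicClosure K ℂ) ℂ)).mulVecLin.restrictScalars ℝ) ∘
        (fun a => Ω'.map (algebraMap (algebraicClosure K ℂ) ℂ) *ᵥ A.per (ν a)) =
        fun a => A.per (ν a) := _root_.funext fun a => (hL' a).1
    rw [this]
    exact h7
  obtain ⟨e, b, hb, he⟩ := exists_basis_ext _ hu
  have halg : ∀ x : algebraicClosure K ℂ,
      IsAlgebraic K (algebraMap (algebraicClosure K ℂ) ℂ x) := fun x =>
    mem_algebraicClosure_iff.1 x.2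
  have hi : LinearIndependent ℂ fun a j => (ν a j : ℂ) := by
    have h9 : LinearIndependent ℝ fun a j => (ν a j : ℝ) := by
      refine LinearIndependent.of_comp A.ω.equivFun.symm.toLinearMap ?_
      convert h7 using 2 with a
      simp only [LinearEquiv.coe_coe, Function.comp_apply, Basis.equivFun_symm_apply, AbVar.per, ← Int.cast_smul_eq_zsmul ℝ]
    have := (linearIndependent_algebraMap_comp_iff (S := ℂ)).2 h9
    simpa only [Complex.coe_algebraMap, Function.comp_def, Complex.ofReal_intCast] using this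
  have hs : Submodule.span ℂ (Set.range fun a j => (ν a j : ℂ)) = orth (cx V) := by
    refine Submodule.eq_of_le_of_finrank_eq (Submodule.span_le.2 (Set.range_subset_iff.2 hν)) ?_
    have := orth_rank (cx V)
    rw [cx_rank, Fintype.card_fin] at this
    rw [finrank_span_eq_card hi, Fintype.card_fin]
    omega
  have h9 := (Submodule.finrank_mono (inf_le_left : cx V ⊓ hol A ≤ cx V)).trans_eq (cx_rank V)
  rw [hS2] at h3 h4
  rw [hS1] at h4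
  refine ⟨n, r, ℓ, e, ⟨Ω.map (algebraMap _ ℂ), B.map (algebraMap _ ℂ), X.map (algebraMap _ ℂ),
    Ω'.map (algebraMap _ ℂ), ν, hη, hP, fun i j => halg _, h3, by omega, hs, hL⟩,
    X'.map (algebraMap _ ℂ), b, fun i j => halg _, fun i j => halg _,
    fun i j => halg _, fun i j => halg _, ?_, ?_, fun a => ?_, fun a => ?_, by omega, h6⟩
  · exact Matrix.map_mul.symm.trans (by rw [h1, Matrix.map_one _ (map_zero _) (map_one _)])
  · exact Matrix.map_mul.symm.trans (by rw [h2, Matrix.map_one _ (map_zero _) (map_one _)])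
  · rw [hb]
    exact (hL' a).1
  · rw [hb]
    refine (hL' a).2.trans (congrArg Neg.neg (_root_.funext fun i => ?_))
    simp only [pm, Function.comp, Matrix.vecMul, Matrix.mulVec, dotProduct, Matrix.map_apply,
      Matrix.transpose_apply, Finset.sum_apply, Pi.smul_apply, Matrix.of_apply, Sum.elim_inr]
    simp only [zsmul_eq_mul, Finset.mul_sum]
    rw [Finset.sum_comm]
    exact Finset.sum_congr rfl fun j _ => Finset.sum_congr rfl fun l _ => mul_left_comm _ _ _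

/-- The relation `M' M = 1` between coordinates specialises. -/
theorem md_left {σ : Type} {x χ : σ → ℂ} (h : Sp x χ) (f : Fin n → Fin g → σ)
    (f' : Fin g → Fin n → σ)
    (h1 : (Matrix.of fun i j => x (f i j)) * (Matrix.of fun i j => x (f' i j)) = 1) :
    (Matrix.of fun i j => χ (f i j)) * (Matrix.of fun i j => χ (f' i j)) = 1 := by
  ext i j
  have h2 := congrFun (congrFun h1 i) j
  rw [Matrix.mul_apply, Matrix.one_apply] at h2 ⊢
  have h3 := h (∑ l, MvPolynomial.X (f i l) * MvPolynomial.X (f' l j) - if i = j then 1 else 0) (by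
    rw [map_sub, map_sum, sub_eq_zero]
    split_ifs at h2 ⊢ <;> simpa only [map_mul, aeval_X, map_one, of_apply, map_zero] using h2)
  rw [map_sub, map_sum, sub_eq_zero] at h3
  split_ifs at h3 ⊢ <;> simpa only [of_apply, map_mul, aeval_X, map_one, map_zero] using h3

/-- Copy `mid` with `norm_b`, `setup_b`, `exists_Q_b`, `numerics_b`, `goodW_congr`.  The criterion
gives `2 q r + 2 u g ≤ q e (t + 1) + u ℓ`; use `r + h = m`, `e + 2 h = m`, `ℓ + m = 2 g`.  If `r = 0`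
then `m = 0`; otherwise `n ≥ r ≥ 1`. -/
theorem mid_b (A : AbVar g N) (V : Submodule ℚ (Fin (2 * g) → ℚ)) (hm : finrank ℚ V ≤ g)
    (K : IntermediateField ℚ ℂ)
    (hK : cx V ≤ Submodule.span ℂ ((Submodule.span K A.dR : Set (Fin (2 * g) → ℂ)) ∩ cx V))
    (q u : ℕ) (hq : 1 ≤ q) (hu : u ≤ q)
    (hg : ∀ (η : Fin g → Fin (2 * g) → ℂ) (n r ℓ : ℕ) (T : Dat A η V K n r ℓ), 1 ≤ n →
      ∃ (κ : Type) (_ : Fintype κ) (y : κ → ℂ), (∀ i, IsAlgebraic K (y i)) ∧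
        ∀ (Ω₁ : Matrix (Fin g) (Fin n) ℂ) (B₁ : Matrix (Fin r) (Fin n) ℂ)
          (X₁ : Matrix (Fin g) (Fin r) ℂ) (y₁ : κ → ℂ),
          Sp (Sum.elim (par T.Ω T.B T.X) y) (Sum.elim (par Ω₁ B₁ X₁) y₁) →
          (∃ Ω' : Matrix (Fin n) (Fin g) ℂ, Ω' * Ω₁ = 1) →
          (∃ X' : Matrix (Fin r) (Fin g) ℂ, X' * X₁ = 1) →
          GoodW A q u (fun j i => ∑ l, X₁ l i * η l j) (Submodule.span ℂ (Set.range (dir Ω₁ B₁)))) :
    (((q + u) * finrank ℚ V : ℕ) : Cardinal) ≤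
      ((q * (finrank ℚ V - 2 * finrank ℂ (cx V ⊓ hol A : Submodule ℂ _)) : ℕ) : Cardinal) *
        Algebra.trdeg ℚ K := by
  classical
  obtain ⟨A', k₀, x₀, hω, hη, ch, hY⟩ := norm_b A
  have hper : ∀ ν, A'.per ν = A.per ν := fun ν => by simp only [AbVar.per, hω]
  have hlin : ∀ {r : ℕ} (X : Matrix (Fin g) (Fin r) ℂ),
      wX A' X = fun j i => ∑ l, X l i * A'.a j (Pi.single l 1) := fun X =>
    funext fun j => funext fun i => end2_lin _ _
  have hP := full_wX A' (1 : Matrix (Fin g) (Fin g) ℂ) 1 (by simp)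
  have hP' : Submodule.span ℂ (Set.range fun j =>
      ((A.ω j, fun l => A'.a j (Pi.single l 1)) : LG g g)) = ⊤ := by
    rw [Full, hω] at hP
    convert hP using 5 with j
    funext l
    simp only [wX]
    congr 1
    funext i
    simp [Matrix.one_apply, Pi.single_apply]
  obtain ⟨n, r, ℓ, e, T, X', b, a1, a2, a3, a5, hΩ, hX, h1, h2, he, hl⟩ :=
    setup_b A _ hη hP' V hm K hK
  have hn := T.hn
  have hr := T.hr
  rcases Nat.eq_zero_or_pos r with h0 | h0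
  · rw [show finrank ℚ V = 0 by omega]
    simp
  obtain ⟨κ, _, y, hy, hG⟩ := hg _ n r ℓ T (by omega)
  let z : ((Fin n × Fin g) ⊕ (Fin r × Fin g)) ⊕ κ → ℂ :=
    Sum.elim (Sum.elim (fun p => T.Ω' p.1 p.2) fun p => X' p.1 p.2) y
  obtain ⟨κ₀, _, γ, c₁, hγ, hQ⟩ := exists_Q_b A' k₀ ch (fun i => .inl (some i)) hY T.Ω T.B T.X T.ν
    b h0 (by omega) (fun a => (h1 a).trans (hper _).symm) (fun a => by rw [h2 a, hlin]) z q u hq
    fun Ω₁ B₁ X₁ y₁ hs => by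
      have l1 : ∃ Ω' : Matrix (Fin n) (Fin g) ℂ, Ω' * Ω₁ = 1 :=
        ⟨_, md_left hs (fun i j => .inr (.inl (.inl (i, j)))) (fun i j => .inl (.inl (i, j))) hΩ⟩
      have l2 : ∃ X' : Matrix (Fin r) (Fin g) ℂ, X' * X₁ = 1 :=
        ⟨_, md_left hs (fun i j => .inr (.inl (.inr (i, j))))
          (fun i j => .inl (.inr (.inr (i, j)))) hX⟩
      refine ⟨l1, l2, goodW_congr hω ?_⟩
      rw [hlin]
      refine hG Ω₁ B₁ X₁ (y₁ ∘ Sum.inr) ?_ l1 l2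
      convert hs.comp (Sum.map id Sum.inr) using 1 <;> (funext v; cases v <;> rfl)
  obtain ⟨t, v, hv, hx, ht⟩ := exists_tb (Sum.elim (Sum.elim (par T.Ω T.B T.X) γ) z) K (by
    rintro (((p | p | p) | p) | (p | p) | p)
    exacts [a1 _ _, a2 _ _, a3 _ _, (hγ p).tower_top K, T.alg _ _, a5 _ _, hy p])
  obtain ⟨C, hC⟩ := criterion _ v hv hx
  have key : 2 * q * r + 2 * u * g ≤ q * e * (t + 1) + u * ℓ := by
    by_contra hlt
    obtain ⟨D, s, ρ, k, τ₀, n1, n2, n3, n4, n5, n6, n7, n8, n9, n10, n11, n12⟩ :=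
      numerics_b c₁ C e r t q u ℓ g hq hu (by omega)
    obtain ⟨J, _, Q, q1, q2, q3, q4⟩ := hQ D s ρ k τ₀ n1 n2 n3 n4 n5 n6 n7 n8 n9 n10 n11
    obtain ⟨j, hj⟩ := hC (3 * k * τ₀) J Q (Nat.mul_pos (by omega) n5) q1 q2 q3
    have h3 := Real.exp_le_exp.1 (hj.trans (q4 j))
    have h4 : ((C * (3 * k * τ₀) ^ (t + 1) + 18 * k * τ₀ : ℕ) : ℝ) < (ρ ^ 2 : ℕ) := by
      exact_mod_cast n12
    push_cast at h3 h4
    linarith only [h3, h4]
  rw [show finrank ℚ V - 2 * finrank ℂ (cx V ⊓ hol A : Submodule ℂ _) = e by omega]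
  calc (((q + u) * finrank ℚ V : ℕ) : Cardinal) ≤ ((q * e * t : ℕ) : Cardinal) := by
        have e1 : q * (2 * r) = q * (e + finrank ℚ V) := congrArg _ (by omega)
        have e2 : u * (2 * g) = u * (ℓ + finrank ℚ V) := congrArg _ hl.symm
        exact_mod_cast (by linarith only [key, e1, e2] : (q + u) * finrank ℚ V ≤ q * e * t)
    _ ≤ _ := by
        push_cast
        gcongr

/-- `fnc_zero`, as in `inj_jets'`. -/
theorem dir_facts {Ω : Matrix (Fin g) (Fin n) ℂ} (h : ∃ Ω' : Matrix (Fin n) (Fin g) ℂ, Ω' * Ω = 1)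
    (B : Matrix (Fin r) (Fin n) ℂ) :
    finrank ℂ (Submodule.span ℂ (Set.range (dir Ω B))) = n ∧
      (∀ p ∈ Submodule.span ℂ (Set.range (dir Ω B)), p.1 = 0 → p = 0) ∧
      ∀ u, ((Ω *ᵥ u, B *ᵥ u) : LG g r) ∈ Submodule.span ℂ (Set.range (dir Ω B)) := by
  obtain ⟨Ω', hΩ⟩ := h
  have hli : LinearIndependent ℂ (dir Ω B) := Fintype.linearIndependent_iff.2 fun c h a =>
    congrFun (fnc_zero hΩ B c (by rw [h]; rfl)) a
  refine ⟨by rw [finrank_span_eq_card hli, Fintype.card_fin], fun p hp h0 => ?_, fun u => ?_⟩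
  · obtain ⟨e, rfl⟩ := (Submodule.mem_span_range_iff_exists_fun ℂ).1 hp
    rw [fnc_zero hΩ B e h0]
    simp only [Pi.zero_apply, zero_smul, Finset.sum_const_zero]
  · refine (Submodule.mem_span_range_iff_exists_fun ℂ).2 ⟨u, ?_⟩
    ext j <;> simp only [dir, Prod.smul_mk, Prod.fst_sum, Finset.sum_apply, Pi.smul_apply, smul_eq_mul, mul_comm, mulVec, dotProduct, Prod.snd_sum]


end GPC33
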