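import Pool.Agent.MP_57341d_ag.H42.Zero

attribute [-instance] SubfieldClass.toSubringClass
  NonUnitalAlgSemiHomClass.toDistribMulActionSemiHomClass NonUnitalNormedRing.toNormedAddCommGroup
  MonTypeEquivalenceMon.monMonoid instCoeTCOfCoe CoalgHomClass.toSemilinearMapClass
  Prod.instNonAssocSemiring RingHomClass.toLinearMapClassNNRat NonUnitalNonAssocRing.toAddCommGroup
  littleWedderburn NonUnitalNonAssocSemiring.toAddCommMonoid
  MulRingSeminormClass.toMonoidWithZeroHomClass NonUnitalNonAssocSemiring.toDistrib NormedRing.toRing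
  DivisionRing.toRing SemilinearIsometryClass.toSemilinearMapClass
  CommMonTypeEquivalenceCommMon.commMonCommMonoid GroupConeClass.toSubmonoidClass
  NumberField.instFiniteDimensional AddQuantale.instAddLeftMono RingHomClass.toLinearMapClassRat
  TestFunctionClass.toDFunLike CompletePartialOrder.toPartialOrder
  AddGroupConeClass.toAddSubmonoidClass NormedCommRing.toCommRing
  IdemSemiring.toCanonicallyOrderedAdd LieAdmissibleAlgebra.toModule
  ContDiffMapSupportedInClass.toDFunLike Group.IsPerfect.subsingleton_of_isMulCommutative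
  AddQuantale.instAddRightMono AddCommMonoidWithOne.toAddMonoidWithOne
  HomeomorphClass.instCoeOutHomeomorph IsometryClass.instCoeOutIsometryEquiv forall_prop_decidable
  SeminormedRing.toRing instSMulZeroClass AddCommGroupWithOne.toAddGroupWithOne
  MulSemiringActionSemiHomClass.toDistribMulActionSemiHomClass

/-! The zero estimate for sections of arbitrary weight. -/

open MvPolynomial Pool.Agent.MP_d171e3_nt GPC96 GPC73 GPC42 Module

namespace GPC33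

section

variable {E : Type} [NormedAddCommGroup E] [NormedSpace ℂ E] {σ : Type} {S : Sys E σ} {g m C₀ : ℕ}

/-- The bracket in all weights. -/
def Kap (B : Bi S g m C₀) : Prop :=
  ∀ a b : ℕ, ∀ u ∈ B.R 0 b, ∀ Ψ ∈ B.R a b, ∀ (x : E) (l : List E),
    Br (dE (E := E)) l (tr x Ψ) (tr (-x) u) ∈ B.R a (2 * b)

variable [Fintype σ] [FiniteDimensional ℂ E]

theorem za_quot {R M : Type} [CommRing R] [IsDomain R] [AddCommGroup M] [Module R M]
    {κ : Type} [Fintype κ] (Q : Submodule R M) (f : κ → M)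
    (hf : ∀ a : κ → R, ∑ i, a i • f i ∈ Q → ∀ i, a i = 0) (Y : Set M)
    (h : ∀ i, ∃ s : R, s ≠ 0 ∧ s • f i ∈ Submodule.span R Y ⊔ Q) :
    ∃ y : κ → M, (∀ i, y i ∈ Y) ∧ ∀ a : κ → R, ∑ i, a i • y i ∈ Q → ∀ i, a i = 0 := by
  have e : ∀ (a : κ → R) (u : κ → M), ∑ i, a i • Q.mkQ (u i) = 0 ↔ ∑ i, a i • u i ∈ Q :=
    fun a u => by
      rw [← Submodule.Quotient.mk_eq_zero, ← Submodule.mkQ_apply, map_sum]
      simp only [map_smul]
  obtain ⟨y', hy', hli⟩ := exists_sub_indep (fun i => Q.mkQ (f i))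
    (Fintype.linearIndependent_iff.2 fun a ha => hf a ((e a f).1 ha)) (Q.mkQ '' Y) fun i => by
      obtain ⟨s, hs, h4⟩ := h i
      obtain ⟨u, hu, q, hq, h5⟩ := Submodule.mem_sup.1 h4
      refine ⟨s, hs, ?_⟩
      rw [← map_smul, ← h5, map_add, show Q.mkQ q = 0 from (Submodule.Quotient.mk_eq_zero Q).2 hq,
        add_zero, ← Submodule.map_span]
      exact Submodule.mem_map_of_mem hu
  choose y hy hyy using hy'
  refine ⟨y, hy, fun a ha => Fintype.linearIndependent_iff.1 hli a ?_⟩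
  simp only [← hyy]
  exact (e a y).2 ha

omit [Fintype σ] [FiniteDimensional ℂ E] in
theorem za_prod (B : Bi S g m C₀) {ι : Type} (s : Finset ι) {f : ι → Ent E} {k : ℕ} (h : ∀ i ∈ s, f i ∈ B.R 0 k) :
    ∏ i ∈ s, f i ∈ B.R 0 (s.card * k) := by
  classical
  induction s using Finset.induction_on with
  | empty => rw [Finset.prod_empty, Finset.card_empty, zero_mul, B.diag]; exact S.one
  | insert a s ha ih =>
    rw [Finset.prod_insert ha, Finset.card_insert_of_notMem ha, add_mul, one_mul, add_comm]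
    exact B.mul (h a (Finset.mem_insert_self _ _)) (ih fun i hi => h i (Finset.mem_insert_of_mem hi))

omit [Fintype σ] in
theorem za_mono (S₀ : Finset σ) (k : ℕ) : LinearIndependent ℂ
    fun γ : S₀ → Fin k => (∏ i : S₀, X i.1 ^ (γ i).1 : MvPolynomial σ ℂ) := by
  have h := ((basisMonomials S₀ ℂ).linearIndependent.comp
    (fun γ : S₀ → Fin k => Finsupp.equivFunOnFinite.symm fun i => (γ i).1) fun γ γ' h =>
      funext fun i => Fin.ext (congrFun (Finsupp.equivFunOnFinite.symm.injective h) i)).map'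
    (rename Subtype.val : MvPolynomial S₀ ℂ →ₐ[ℂ] MvPolynomial σ ℂ).toLinearMap
    (LinearMap.ker_eq_bot.2 (rename_injective _ Subtype.val_injective))
  have e : (fun γ : S₀ → Fin k => (∏ i : S₀, X i.1 ^ (γ i).1 : MvPolynomial σ ℂ)) =
      ⇑(rename Subtype.val : MvPolynomial S₀ ℂ →ₐ[ℂ] MvPolynomial σ ℂ).toLinearMap ∘
        ⇑(basisMonomials S₀ ℂ) ∘ fun γ => Finsupp.equivFunOnFinite.symm fun i => (γ i).1 := by
    funext γ
    simp only [Finset.univ_eq_attach, AlgHom.coe_toLinearMap, coe_basisMonomials, monomial_eq, C_1, pow_zero, implies_true, Finsupp.prod_fintype, one_mul, Function.comp_apply, Finsupp.equivFunOnFinite_symm_apply_apply, map_prod, map_pow, rename_X]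
  rw [e]
  exact h

omit [Fintype σ] in
theorem za_mem [DecidableEq σ] (S₀ : Finset σ) {k : ℕ} (a : (S₀ → Fin k) → ℂ) :
    ∑ γ, a γ • (∏ i : S₀, X i.1 ^ (γ i).1 : MvPolynomial σ ℂ) ∈ GPC73.Bs S₀ :=
  Subalgebra.sum_mem _ fun _ _ => Subalgebra.smul_mem _ (Subalgebra.prod_mem _ fun i _ =>
    Subalgebra.pow_mem _ (Algebra.subset_adjoin (Set.mem_image_of_mem _ i.2)) _) _

/-- Copy `Bi.tube_count` with `F j = {y | ∃ Ψ ∈ R (j D + N₀) (2 j b + N₀),
ϑ ^ (2 j b) * Φ * ev y = ev Δ ^ j * Ψ on O}` (a copy of `bic_F`) and the base monomials with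
exponents `< k b`.  Then `k ^ (ρ + r) T ^ ρ (k b) ^ card S₀ ≤
C₀ (2 K b + N₀ + card S₀ * (k b) + 1) ^ g (K D + N₀ + 1) ^ m`, and the first base is at most
`k (2 (g + m) + 2) b`. -/
theorem tube_b (B : Bi S g m C₀) (hE : finrank ℂ E = g + m) (W : Submodule ℂ E) {H : Set E}
    (hH : S.Mon H) {S₀ : Finset σ} (hS : IsBas (S.q H) S₀) (hc : S₀.card = finrank ℂ (S.tg H))
    (hn : ∀ i ∈ S₀, ∃ v ∈ B.R 0 1, ∀ z ∈ S.O, v.1 z = S.ϑ.1 z * S.ξ i z) {D T b : ℕ} (hD : 1 ≤ D)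
    (hT : 1 ≤ T) (hb : 1 ≤ b) (Gs : Set (MvPolynomial σ ℂ))
    (hG : ∀ f ∈ Gs, ∃ Φ ∈ B.R D (2 * b), ∀ z ∈ S.O,
      S.ev z S.Δ * Φ.1 z = S.ϑ.1 z ^ (2 * b) * S.ev z f)
    (hmin : S.q H ∈ (S.idl Set.univ ⊔ Ideal.span Gs).minimalPrimes)
    (hjet : ∀ {ι : Type} (c : ι → E), (∀ i, c i ∈ W) → ∀ f ∈ S.idl Set.univ ⊔ Ideal.span Gs,
      Jet (S.q H) (fun i => S.D (c i)) (fun _ => 1) T f) :
    T ^ (finrank ℂ W - finrank ℂ (W ⊓ S.tg H : Submodule ℂ E)) * b ^ finrank ℂ (S.tg H) ≤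
      C₀ * (2 * (g + m) + 2) ^ (g + m) * b ^ g * D ^ m := by
  classical
  have hp : (S.q H).IsPrime := S.q_prime hH.pr hH.zero
  obtain ⟨Bs, hBs⟩ := prime_span (S.q H) (S.idl Set.univ) hS Gs hmin
  obtain ⟨N₀, Φ, hΦ, hden⟩ := exists_den S Bs
  obtain ⟨ρ, r, e, he1, he2, he3, he4⟩ := exists_adapted (S.tg H) W
  obtain ⟨x, δ, hδ, hx, hxd⟩ := S.exists_conormal hH e he2
  rw [← hc, hE] at he4
  rw [← hc, show finrank ℂ W - finrank ℂ (W ⊓ S.tg H : Submodule ℂ E) = ρ by omega]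
  obtain ⟨w, hw⟩ : ∃ w : Fin ρ ⊕ Fin r → ℕ, w = Sum.elim (fun _ => 1) fun _ => T := ⟨_, rfl⟩
  have hw1 : ∀ i, 1 ≤ w i := fun i => by
    rw [hw]
    cases i with
    | inl a => exact le_rfl
    | inr a => exact hT
  have hIF : S.idl Set.univ ⊔ Ideal.span Gs ≤ Fl (S.q H) (fun i => S.D (e i)) w hw1 T := by
    intro f hf l hl
    rw [hw] at hl
    obtain ⟨l', rfl⟩ := core_inl l hl
    rw [ap_map]
    refine hjet (fun i => e (Sum.inl i)) he1 f hf l' ?_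
    rwa [List.map_map] at hl
  obtain ⟨k, hk⟩ : ∃ k, k = N₀ + 3 := ⟨_, rfl⟩
  obtain ⟨K, hK⟩ : ∃ K, K = (ρ + r) * k + 1 := ⟨_, rfl⟩
  obtain ⟨P, hP⟩ : ∃ P : Finset (Fin ρ ⊕ Fin r → ℕ), P = Fintype.piFinset
    fun j => Finset.range (Sum.elim (fun _ => k * T) (fun _ => k) j) := ⟨_, rfl⟩
  have hcard : P.card = k ^ (ρ + r) * T ^ ρ := by
    rw [hP, Fintype.card_piFinset, Fintype.prod_sum_type]
    simp only [Sum.elim_inl, Sum.elim_inr, Finset.card_range, Finset.prod_const,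
      Finset.card_univ, Fintype.card_fin]
    ring
  have hwt : ∀ β ∈ P, ∑ j, w j * β j < K * T := by
    intro β hβ
    rw [hP, Fintype.mem_piFinset] at hβ
    have h1 : ∀ j, w j * β j ≤ k * T := fun j => by
      have h2 := (Finset.mem_range.1 (hβ j)).le
      rw [hw]
      cases j with
      | inl a => simpa only [Sum.elim_inl, one_mul, ge_iff_le] using h2
      | inr a =>
        rw [Sum.elim_inr] at h2 ⊢
        rw [mul_comm]
        exact Nat.mul_le_mul_right _ h2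
    refine (Finset.sum_le_card_nsmul _ _ _ fun j _ => h1 j).trans_lt ?_
    rw [hK, add_mul _ 1, mul_assoc]
    simpa only [Finset.card_univ, Fintype.card_sum, Fintype.card_fin, smul_eq_mul, one_mul, lt_add_iff_pos_right] using Nat.lt_of_succ_le hT
  have h1 : S.q H ^ (K * T) ≤ Fl (S.q H) (fun i => S.D (e i)) w hw1 (K * T) := by
    have := pow_le_Fl (S.q H) (fun i => S.D (e i)) hw1 (I := S.q H) (T := 1)
      (Fl_one _ _ hw1).ge (K * T)
    rwa [mul_one] at this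
  have h2 : S.idl Set.univ ≤ Fl (S.q H) (fun i => S.D (e i)) w hw1 (K * T) := fun f hf l _ =>
    S.idl_anti (Set.subset_univ _) (core_ap_mem _ _ (fun i f hf => S.D_mem _ hf) l f hf)
  have h3 := hBs (fun j => {y | ∃ Ψ ∈ B.R (j * D + N₀) (2 * b * j + N₀), ∀ z ∈ S.O,
      S.ϑ.1 z ^ (2 * b * j) * Φ.1 z * S.ev z y = S.ev z S.Δ ^ j * Ψ.1 z})
    S.Δ _ (K * T) K (fun h => S.Δ_x₀ (S.tan_ev hH h))
    (fun y hy => by
      obtain ⟨Ψ, h4, h5⟩ := hden y hy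
      refine ⟨Ψ, by simpa [B.diag] using h4, fun z hz => ?_⟩
      rw [h5 z hz]; simp)
    (fun j y ⟨Ψ, h4, h5⟩ => by
      refine ⟨S.ϑ ^ (2 * b) * Ψ, B.mono (a := 0 + (j * D + N₀)) (by linarith only []) ?_, fun z hz => ?_⟩
      · rw [show 2 * b * (j + 1) + N₀ = 2 * b + (2 * b * j + N₀) by ring]
        exact B.mul (B.pow_mem B.ϑ_mem (2 * b)) h4
      · show _ = _ * (S.ϑ.1 z ^ (2 * b) * Ψ.1 z)
        rw [S.chart_mul, mul_add, mul_one, pow_add]
        linear_combination S.ϑ.1 z ^ (2 * b) * S.ev z S.Δ * h5 z hz)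
    (fun j y ⟨Ψ, h4, h5⟩ f hf => by
      obtain ⟨Θ, h6, h7⟩ := hG f hf
      refine ⟨Θ * Ψ, ?_, fun z hz => ?_⟩
      · rw [show 2 * b * (j + 1) + N₀ = 2 * b + (2 * b * j + N₀) by ring,
          show (j + 1) * D + N₀ = D + (j * D + N₀) by ring]
        exact B.mul h6 h4
      · show _ = _ * (Θ.1 z * Ψ.1 z)
        rw [S.chart_mul, mul_add, mul_one, pow_add]
        linear_combination S.ϑ.1 z ^ (2 * b) * S.ev z f * h5 z hz -
          S.ev z S.Δ ^ j * Ψ.1 z * h7 z hz)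
    h1 h2 (pow_le_Fl _ _ hw1 hIF K)
  obtain ⟨J, hJ⟩ : ∃ J, J = Fl (S.q H) (fun i => S.D (e i)) w hw1 (K * T) := ⟨_, rfl⟩
  rw [← hJ] at h2 h3
  obtain ⟨y, hy, hli'⟩ := za_quot (J.restrictScalars (GPC73.Bs S₀))
    (fun β : P => ∏ i, x i ^ β.1 i) (fun a ha => by
      obtain ⟨c, hc⟩ : ∃ c : (Fin ρ ⊕ Fin r → ℕ) → MvPolynomial σ ℂ, ∀ β : P, c β.1 = a β :=
        ⟨fun β => if h : β ∈ P then a ⟨β, h⟩ else 0, fun β => dif_pos β.2⟩
      have h5 := indep_word (S.q H) (fun i => S.D (e i)) x δ hδ hx hxd w _ P hwt c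
        (fun β hβ h => by
          rw [hc ⟨β, hβ⟩] at h ⊢
          exact hS.inj _ (a ⟨β, hβ⟩).2 h)
        (by
          rw [← Finset.sum_coe_sort P]
          simp only [hc]
          rw [hJ] at ha
          exact ha)
      exact fun β => Subtype.ext ((hc β).symm.trans (h5 β.1 β.2))) _ fun β => h3 _
  choose Ψ hΨ hΨy using hy
  obtain ⟨n, hn'⟩ : ∃ n, n = k * b := ⟨_, rfl⟩
  choose v hv hv' using fun i : S₀ => hn i.1 i.2
  have hev : ∀ (γ : S₀ → Fin n), ∀ z ∈ S.O, (∏ i, v i ^ (γ i).1 * S.ϑ ^ (n - (γ i).1)).1 z =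
      (∏ _i : S₀, S.ϑ.1 z ^ n) * S.ev z (∏ i : S₀, X i.1 ^ (γ i).1) := fun γ z hz => by
    rw [Sys.ev, map_prod, ← Finset.prod_mul_distrib, SubmonoidClass.coe_finsetProd,
      Finset.prod_apply]
    refine Finset.prod_congr rfl fun i _ => ?_
    show (v i).1 z ^ (γ i).1 * S.ϑ.1 z ^ (n - (γ i).1) = _
    rw [hv' i z hz, map_pow, eval_X, mul_pow, mul_right_comm, ← pow_add,
      Nat.add_sub_cancel' (γ i).2.le]
  have hli : LinearIndependent ℂ fun p : P × (S₀ → Fin n) =>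
      Ψ p.1 * ∏ i, v i ^ (p.2 i).1 * S.ϑ ^ (n - (p.2 i).1) := by
    refine Fintype.linearIndependent_iff.2 fun a ha => ?_
    let c : P → GPC73.Bs S₀ := fun β => ⟨_, za_mem S₀ fun γ => a (β, γ)⟩
    have h4 : ∑ β, (c β).1 * y β ∈ S.idl Set.univ := fun z _ hz => by
      have h5 : ∑ p : P × (S₀ → Fin n), a p * ((Ψ p.1).1 z *
          (∏ i, v i ^ (p.2 i).1 * S.ϑ ^ (n - (p.2 i).1)).1 z) = 0 := by
        have := congrArg (fun f : Ent E => f.1 z) ha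
        simp only [AddSubmonoidClass.coe_finsetSum, Finset.sum_apply] at this
        exact this
      refine (mul_eq_zero.1 ?_).resolve_left (mul_ne_zero (Finset.prod_ne_zero_iff.2
        fun (_ : S₀) (_ : _ ∈ Finset.univ) => pow_ne_zero n (S.ϑ_ne z hz))
        (mul_ne_zero (pow_ne_zero (2 * b * K) (S.ϑ_ne z hz)) (hΦ z hz)))
      rw [← mul_zero (S.ev z S.Δ ^ K), ← h5, Sys.ev, map_sum, Fintype.sum_prod_type,
        Finset.mul_sum, Finset.mul_sum]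
      refine Finset.sum_congr rfl fun β _ => ?_
      simp only [c]
      rw [map_mul, map_sum, Finset.sum_mul, Finset.mul_sum, Finset.mul_sum]
      refine Finset.sum_congr rfl fun γ _ => ?_
      rw [hev γ z hz, smul_eval, ← Sys.ev, ← Sys.ev]
      linear_combination a (β, γ) * (∏ _i : S₀, S.ϑ.1 z ^ n) *
        S.ev z (∏ i : S₀, X i.1 ^ (γ i).1) * hΨy β z hz
    have h5 := hli' c (h2 h4)
    exact fun p => Fintype.linearIndependent_iff.1 (za_mono S₀ n) (fun γ => a (p.1, γ))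
      (congrArg Subtype.val (h5 p.1)) p.2
  have hmem : ∀ p : P × (S₀ → Fin n), Ψ p.1 * ∏ i, v i ^ (p.2 i).1 * S.ϑ ^ (n - (p.2 i).1) ∈
      B.R (K * D + N₀ + 0) (2 * b * K + N₀ + (Finset.univ : Finset S₀).card * n) := fun p => by
    refine B.mul (hΨ p.1) (za_prod B _ fun i _ => ?_)
    have := B.mul (B.pow_mem (hv i) (p.2 i).1) (B.pow_mem B.ϑ_mem (n - (p.2 i).1))
    rwa [Nat.add_sub_cancel' (p.2 i).2.le] at this
  have h6 := B.dim _ _ (P × (S₀ → Fin n)) _ hmem hli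
  rw [Fintype.card_prod, Fintype.card_coe, hcard, Fintype.card_fun, Fintype.card_fin,
    Finset.card_univ, Fintype.card_coe, add_zero, hn'] at h6
  have h11 : k ^ (g + m) * (T ^ ρ * b ^ S₀.card) = k ^ (ρ + r) * T ^ ρ * (k * b) ^ S₀.card := by
    rw [← he4, pow_add _ (ρ + r), mul_pow]
    ring
  refine Nat.le_of_mul_le_mul_left (h11.trans_le (h6.trans ?_))
    (pow_pos (show 0 < k by omega) (g + m))
  have h7 : 2 * b * K + N₀ + S₀.card * (k * b) + 1 ≤ k * (2 * (g + m) + 2) * b := by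
    have h9 : (N₀ + 1) * 1 ≤ (N₀ + 1) * b := Nat.mul_le_mul_left _ hb
    have h10 : (2 * K + (N₀ + 1) + S₀.card * k) * b ≤ k * (2 * (g + m) + 2) * b :=
      Nat.mul_le_mul_right _ (by rw [hK, ← he4]; nlinarith only [hk])
    linarith only [h9, h10]
  have h8 : K * D + N₀ + 1 ≤ k * (2 * (g + m) + 2) * D := by
    have h9 : (N₀ + 1) * 1 ≤ (N₀ + 1) * D := Nat.mul_le_mul_left _ hD
    have h10 : (K + (N₀ + 1)) * D ≤ k * (2 * (g + m) + 2) * D :=
      Nat.mul_le_mul_right _ (by rw [hK, ← he4]; nlinarith only [hk])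
    linarith only [h9, h10]
  refine (Nat.mul_le_mul (Nat.mul_le_mul_left _ (Nat.pow_le_pow_left h7 g))
    (Nat.pow_le_pow_left h8 m)).trans_eq ?_
  simp only [mul_pow, pow_add]
  ring

/-- Copy `Bi.ze_struct'`; the second argument of the bracket is `tr (-y) (κ ^ b)` (`Bi.pow_mem`),
the generators represent elements of `R D (2 b)`; `tube_b` at the end. -/
theorem ze_b (B : Bi S g m C₀) (hk : Kap B) (hE : finrank ℂ E = g + m) (W : Submodule ℂ E)
    {D T b : ℕ} {Ψ : Ent E} {x : E} (hD : 1 ≤ D) (hT : 1 ≤ T) (hb : 1 ≤ b) (hΨ : Ψ ∈ B.R D b)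
    (h0 : Ψ ≠ 0) (hJ : JB (Subtype.val : W → E) (finrank ℂ E * T + 1) x Ψ) :
    ∃ H, S.Mon H ∧ S.tg H ≠ ⊤ ∧ dm (S.q H) ≤ finrank ℂ (S.tg H) ∧
      (∀ h ∈ H, JB (Subtype.val : W → E) (T + 1) (h + x) Ψ) ∧
      ∀ S₀ : Finset σ, IsBas (S.q H) S₀ → S₀.card = finrank ℂ (S.tg H) →
        (∀ i ∈ S₀, ∃ v ∈ B.R 0 1, ∀ z ∈ S.O, v.1 z = S.ϑ.1 z * S.ξ i z) →
        T ^ (finrank ℂ W - finrank ℂ (W ⊓ S.tg H : Submodule ℂ E)) * b ^ finrank ℂ (S.tg H) ≤
          C₀ * (2 * (g + m) + 2) ^ (g + m) * b ^ g * D ^ m := by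
  classical
  have hI₀ : (S.idl Set.univ).IsPrime := S.idl_prime S.pr_univ trivial
  obtain ⟨C₁, hC₁⟩ := core (S.idl Set.univ)
  obtain ⟨G, hG⟩ : (S.idl Set.univ).FG := IsNoetherian.noetherian _
  obtain ⟨r₀, V, H, hV, hV0, hH, hHV, hmax⟩ := S.exists_stab
    (fun j => {z | JB (Subtype.val : W → E) (j * T + 1) (z + x) Ψ})
    (fun j => B.cl_jet _ _ hΨ x)
    (fun j z hz => Jet.mono _ _ _ (by rw [Nat.succ_mul]; omega) hz)
    (by simpa using hJ)
    (fun h => h0 (Sys.ze_zero (Subtype.val : W → E) (n := 0 * T) (x := x) fun z =>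
      (Set.eq_univ_iff_forall.1 h z :)))
  have hp : (S.q H).IsPrime := S.q_prime hH.pr hH.zero
  obtain ⟨Gs, hGs⟩ : ∃ Gs : Set (MvPolynomial σ ℂ), ∀ f, f ∈ Gs ↔ ∃ v ∈ V, ∃ l : List W,
      l.length < r₀ * T + 1 ∧ ∃ κ : Ent E, f.totalDegree ≤ S.c * (D + 2 * b + 1) ∧
      Br (fun k : W => dE (k : E)) l (tr (v + x - S.x₀) Ψ) κ ∈ B.R D (2 * b) ∧ ∀ z ∈ S.O, S.ev z S.Δ *
      (Br (fun k : W => dE (k : E)) l (tr (v + x - S.x₀) Ψ) κ).1 z = S.ϑ.1 z ^ (2 * b) * S.ev z f :=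
    ⟨{f | _}, fun _ => Iff.rfl⟩
  obtain ⟨I, hI⟩ : ∃ I : Ideal (MvPolynomial σ ℂ), I = S.idl Set.univ ⊔ Ideal.span Gs := ⟨_, rfl⟩
  have hle : S.idl Set.univ ≤ S.q H := S.idl_anti (Set.subset_univ _)
  have hjet : ∀ {ι : Type} (c : ι → E), (∀ i, c i ∈ W) →
      I ≤ Fl (S.q H) (fun i => S.D (c i)) (w := fun _ => 1) (fun _ => le_rfl) T := by
    intro ι c hc
    rw [hI]
    refine sup_le (fun f hf l _ => hle (S.ze_ap_mem c l hf)) (Ideal.span_le.2 fun f hf => ?_)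
    obtain ⟨v, hv, l, hl, κ, -, -, hf⟩ := (hGs f).1 hf
    refine S.jet_chart c hf fun z hz => ?_
    refine jb_span (Subtype.val : W → E) c (fun k => Submodule.subset_span ⟨⟨c k, hc k⟩, rfl⟩) ?_
    refine br_jet _ _ _ _ _ _ ((jb_tr (Subtype.val : W → E) _ z _ Ψ).2 ?_)
    rw [show z + (v + x - S.x₀) = z - S.x₀ + v + x by abel]
    exact Jet.mono _ _ _ (by rw [Nat.succ_mul]; omega) (hV (hHV _ hz v hv))
  have hIq : I ≤ S.q H := fun f hf =>
    hjet (Subtype.val : W → E) (fun i => i.2) hf [] (by simp only [List.map_nil, List.sum_nil]; omega)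
  have hY : S.Cl {h | ∀ v ∈ V, h + v ∈
      {z | JB (Subtype.val : W → E) (r₀ * T + 1) (z + x) Ψ}} := by
    have := S.cl_iInter (ι := V) fun v =>
      S.cl_sh (B.cl_jet (Subtype.val : W → E) (r₀ * T + 1) hΨ x) v
    convert this using 1
    ext h
    simp only [Set.mem_ofPred_eq, sh, Set.iInter_coe_set, Set.mem_iInter]
  have hmin : S.q H ∈ I.minimalPrimes := by
    refine S.min_prime hH.pr hH.zero hY hmax (hI ▸ le_sup_left) hIq fun z hz hΔ hz0 v hv => ?_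
    show JB (Subtype.val : W → E) (r₀ * T + 1) (z - S.x₀ + v + x) Ψ
    rw [show z - S.x₀ + v + x = z + (v + x - S.x₀) by abel, ← jb_tr]
    obtain ⟨κ, hκ, hκ0⟩ := B.unit (z + -(v + x - S.x₀))
    refine jet_of_br _ _ _ _ (tr (-(v + x - S.x₀)) (κ ^ b))
      (fun h => hκ0 (mem_mz.2 (pow_eq_zero_iff (by omega) |>.1 (mem_mz.1 h)))) fun l hl => ?_
    have h1 := hk D b _ (B.pow_mem hκ b) Ψ hΨ (v + x - S.x₀) (l.map Subtype.val)
    rw [br_map] at h1
    obtain ⟨f, hf1, hf2⟩ := B.rep h1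
    have h2 := hz0 f (hI ▸ Ideal.mem_sup_right
      (Ideal.subset_span ((hGs f).2 ⟨v, hv, l, hl, _, hf1, h1, hf2⟩)))
    have h3 := hf2 z hz
    rw [h2, mul_zero] at h3
    exact mem_mz.2 ((mul_eq_zero.1 h3).resolve_left hΔ)
  have hdeg : I ≤ Ideal.span
      {f | f ∈ I ∧ f.totalDegree ≤ S.c * (D + 2 * b + 1) + G.sup totalDegree + 1} := by
    conv_lhs => rw [hI]
    refine sup_le ?_ (Ideal.span_mono fun f hf =>
      ⟨hI ▸ Ideal.mem_sup_right (Ideal.subset_span hf), ?_⟩)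
    · rw [← hG]
      refine Ideal.span_mono fun f hf => ⟨hI ▸ Ideal.mem_sup_left (hG ▸ Ideal.subset_span hf), ?_⟩
      have h1 : f.totalDegree ≤ G.sup totalDegree := Finset.le_sup (f := totalDegree) hf
      omega
    · obtain ⟨v, -, l, -, κ, h1, -⟩ := (hGs f).1 hf
      omega
  obtain ⟨ρ, r, e, he1, he2, he3, he4⟩ := exists_adapted (S.tg H) W
  obtain ⟨y, δ, hδ, hy, hyd⟩ := S.exists_conormal hH e he2
  obtain ⟨k1, -⟩ := hC₁ (S.q H) I _ T ρ r (fun i => S.D (e i)) y δ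
    (by omega) hT (hI ▸ le_sup_left) hmin hdeg (fun i f hf => S.D_mem _ hf)
    (fun f hf => hjet (fun i => e (Sum.inl i)) he1 hf) hδ hy hyd
  have k3 := S.dm_univ
  have k4 : dm (S.q H) ≤ finrank ℂ (S.tg H) := by omega
  refine ⟨H, hH, fun htop => h0 (Sys.ze_zero (Subtype.val : W → E) (n := (r₀ + 1) * T) (x := x)
    fun z => ?_), k4, fun h hh => ?_, fun S₀ hS hc hn => ?_⟩
  · have := hV (hHV z (S.tg_subset hH (htop ▸ Submodule.mem_top)) 0 hV0)
    rwa [add_zero] at this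
  · have := hV (hHV h hh 0 hV0)
    rw [add_zero] at this
    exact Jet.mono _ _ _ (by rw [Nat.succ_mul]; omega) this
  · refine tube_b B hE W hH hS hc hn hD hT hb Gs (fun f hf => ?_) (hI ▸ hmin)
      fun c hc f hf => hjet c hc (hI ▸ hf)
    obtain ⟨v, -, l, -, κ, -, h1, h2⟩ := (hGs f).1 hf
    exact ⟨_, h1, h2⟩

end

variable {g N m : ℕ}

/-- The condition on the obstructing subgroups for the weight `b = D ^ (u / q)`. -/
def GoodW (A : AbVar g N) (q u : ℕ) (w : Fin (2 * g) → Fin m → ℂ) (W : Submodule ℂ (LG g m)) :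
    Prop :=
  ∀ (U : Submodule ℂ (Fin g → ℂ)) (L : Submodule ℂ (LG g m)), A.IsSub U → U ≠ ⊤ →
    L.map (LinearMap.fst ℂ (Fin g → ℂ) (Fin m → ℂ)) = U →
    (∀ ν, A.per ν ∈ U → ((A.per ν, -∑ j, ν j • w j) : LG g m) ∈ L) →
    finrank ℂ (W ⊓ L : Submodule ℂ _) < finrank ℂ W ∧
      q * (finrank ℂ (W ⊓ L : Submodule ℂ _) + m + finrank ℂ U) + u * g ≤
        q * (finrank ℂ W + finrank ℂ L) + u * finrank ℂ U

variable {A : AbVar g N}

/-- Copy `rr_kap`. -/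
theorem rr_kap_b {w : Fin (2 * g) → Fin m → ℂ} {a b : ℕ} {Ψ Φ : Ent (LG g m)}
    (h : Ψ ∈ RR A w a b) (h' : Φ ∈ RR A w 0 b) (x : LG g m) (l : List (LG g m)) :
    Br (dE (E := LG g m)) l (tr x Ψ) (tr (-x) Φ) ∈ RR A w a (2 * b) := by
  have h2 := kap_gr_br l (kap_gr_tr h.2 x) (kap_gr_tr h'.2 (-x))
  have h1 := fun j p => rra_fin j x p (rra_gen (rra_tr_aut h.1 j x) (rra_tr_aut h'.1 j (-x)) l)
  rw [add_zero] at h2
  exact rra_mk h1 h2

/-- The first step of `tg_flat` (`Fib.per_mem`, `tg_subset`, `Fib.vert_mem`). -/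
theorem tg_per {w : Fin (2 * g) → Fin m → ℂ} {τ : Type} [Fintype τ]
    {S : Sys (LG g m) (τ ⊕ Fin m)} (F : Fib A w S) {H : Set (LG g m)} (hH : S.Mon H)
    (ν : Fin (2 * g) → ℤ)
    (h : A.per ν ∈ (S.tg H).map (LinearMap.fst ℂ (Fin g → ℂ) (Fin m → ℂ))) :
    ((A.per ν, -∑ j, ν j • w j) : LG g m) ∈ S.tg H := by
  obtain ⟨p, hp, hpn⟩ := h
  have hpn' : p.1 = A.per ν := hpn
  have h2 := hH.add _ (F.per_mem hH ν) _ (S.tg_subset hH ((S.tg H).neg_mem hp))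
  have h3 : ((A.per ν, -∑ j, ν j • w j) : LG g m) + -p = (0, -∑ j, ν j • w j - p.2) := by
    refine Prod.ext ?_ (sub_eq_add_neg _ _).symm
    show A.per ν + -p.1 = 0
    rw [hpn', add_neg_cancel]
  rw [h3] at h2
  have h4 := (S.tg H).add_mem (F.vert_mem hH h2) hp
  rwa [← h3, neg_add_cancel_right] at h4

/-- Cancel `b ^ d`, raise to the power `q`, `zec_pow`. -/
theorem zb_pow {T K D b c₀ ρ d q u : ℕ} (hq : 1 ≤ q) (hρ : 1 ≤ ρ) (hD : 1 ≤ D) (hb : 1 ≤ b)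
    (hd : d ≤ g) (h : T ^ ρ * b ^ d ≤ K * b ^ g * D ^ m) (hbq : b ^ q ≤ c₀ * D ^ u)
    (hi : q * m + u * g ≤ q * ρ + u * d) : T ≤ (K ^ q * (c₀ + 1) ^ g + 1) * D := by
  obtain ⟨e, rfl⟩ := Nat.exists_eq_add_of_le hd
  have h1 : T ^ ρ ≤ K * b ^ e * D ^ m :=
    Nat.le_of_mul_le_mul_right (h.trans_eq (by ring)) (pow_pos hb d)
  refine zec_pow (n := ρ * q) (m := q * m + u * e) (Nat.mul_pos hρ hq) (by linarith only [hi]) hD ?_
  calc T ^ (ρ * q) ≤ (K * b ^ e * D ^ m) ^ q := by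
        rw [pow_mul]
        exact Nat.pow_le_pow_left h1 q
    _ = K ^ q * (b ^ q) ^ e * D ^ (q * m) := by ring
    _ ≤ K ^ q * (c₀ * D ^ u) ^ e * D ^ (q * m) := by gcongr
    _ = K ^ q * c₀ ^ e * D ^ (q * m + u * e) := by ring
    _ ≤ _ := Nat.mul_le_mul_right _ (Nat.mul_le_mul_left _
        ((Nat.pow_le_pow_left (Nat.le_succ _) _).trans
          (Nat.pow_le_pow_right (Nat.succ_pos _) (Nat.le_add_left _ _))))

theorem goodW_congr {A' : AbVar g N} (hω : A'.ω = A.ω) {q u : ℕ} {w : Fin (2 * g) → Fin m → ℂ}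
    {W : Submodule ℂ (LG g m)} (h : GoodW A q u w W) : GoodW A' q u w W := by
  have hp : A'.per = A.per := funext fun n => by simp only [AbVar.per, hω]
  intro U L hU hU' hL hν
  refine h U L ?_ hU' hL (hp ▸ hν)
  unfold AbVar.IsSub at hU ⊢
  rwa [hp] at hU

/-- Copy `descend'` (the weight plays no role).  For `GoodW`: with `P = id × π` pull `L'` back to
`L = L'.comap P`; `finrank L = finrank L' + 1` (`P` is onto with a kernel of dimension one),
`(W ⊓ L).map P = W.map P ⊓ L'` and `P` is injective on `W`. -/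
theorem descend_b {q u : ℕ} {w : Fin (2 * g) → Fin (m + 1) → ℂ} (hw : Full A w)
    {W : Submodule ℂ (LG g (m + 1))} (hW : ∀ p ∈ W, p.1 = 0 → p = 0) (hG : GoodW A q u w W)
    {D b t : ℕ} {Ψ : Ent (LG g (m + 1))} (hΨ : Ψ ∈ RR A w D b) (h0 : Ψ ≠ 0) {x : LG g (m + 1)}
    {v : Fin (m + 1) → ℂ} (hv : v ≠ 0)
    (hJ : ∀ k : ℕ, JB (Subtype.val : W → _) t (x + (0, (k : ℂ) • v)) Ψ) :
    ∃ (w' : Fin (2 * g) → Fin m → ℂ) (W' : Submodule ℂ (LG g m)) (Ψ' : Ent (LG g m)) (x' : LG g m),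
      Full A w' ∧ (∀ p ∈ W', p.1 = 0 → p = 0) ∧ GoodW A q u w' W' ∧
      finrank ℂ W' = finrank ℂ W ∧ Ψ' ∈ RR A w' D b ∧ Ψ' ≠ 0 ∧
      JB (Subtype.val : W' → _) t x' Ψ' := by
  obtain ⟨Φ, hΦ0, ⟨hΦ, hΦJ⟩, -, hinv⟩ := exists_inv v (fun Φ => Φ ∈ RR A w D b ∧
      ∀ k : ℕ, JB (Subtype.val : W → _) t (x + (0, (k : ℂ) • v)) Φ) (fun Φ h => by
    refine ⟨sub_mem (rr_vert h.1 v) h.1, fun k => ?_⟩
    have h1 := h.2 (k + 1)
    have e : x + ((0, ((k + 1 : ℕ) : ℂ) • v) : LG g (m + 1)) =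
        x + (0, (k : ℂ) • v) + (0, v) := by
      rw [add_assoc, Nat.cast_succ, add_smul, one_smul]
      exact congrArg (x + ·) (Prod.ext (add_zero _).symm rfl)
    rw [e, ← jb_tr] at h1
    exact (Fl (mz _) (fun i : W => dE i.1) (fun _ => 1) (fun _ => le_rfl) t).sub_mem h1 (h.2 k))
    hΨ.2 h0 ⟨hΨ, hJ⟩
  obtain ⟨π, s, hπ, hs, hy⟩ := zeb_pi hv
  obtain ⟨L, hL⟩ : ∃ L : LG g (m + 1) →L[ℂ] LG g m, ∀ p, L p = (p.1, π p.2) :=
    ⟨(ContinuousLinearMap.id ℂ _).prodMap π, fun _ => rfl⟩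
  obtain ⟨M, hM⟩ : ∃ M : LG g m →L[ℂ] LG g (m + 1), ∀ p, M p = (p.1, s p.2) :=
    ⟨(ContinuousLinearMap.id ℂ _).prodMap s, fun _ => rfl⟩
  have e : pb L (pb M Φ) = Φ := Subtype.ext (funext fun p => by
    obtain ⟨c, hc⟩ := hy p.2
    rw [pb_apply, pb_apply, hL, hM, ← hinv _ c, Prod.mk_add_mk, add_zero, ← hc])
  have hr : finrank ℂ (W.map L.toLinearMap) = finrank ℂ W := by
    rw [← LinearMap.range_domRestrict, LinearMap.finrank_range_of_inj]
    refine (injective_iff_map_eq_zero _).2 fun p h => Subtype.ext (hW _ p.2 ?_)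
    simpa [hL] using congrArg Prod.fst h
  refine ⟨fun j => π (w j), W.map L.toLinearMap, pb M Φ, L x, ?_, ?_, ?_, hr,
    ⟨fun j p => ?_, fun R => ?_⟩, fun h => hΦ0 (by rw [← e, h, map_zero]), ?_⟩
  · have h1 := congrArg (Submodule.map L.toLinearMap) hw
    rw [Submodule.map_span, Submodule.map_top, ← Set.range_comp,
      LinearMap.range_eq_top.2 fun p => ⟨M p, by simp [hL, hM, hπ]⟩] at h1
    rw [Full, ← h1]
    congr 2
    exact funext fun j => (hL (A.ω j, w j)).symm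
  · rintro _ ⟨p, hp, rfl⟩ h
    rw [hW p hp (by simpa [hL] using h), map_zero]
  · intro U L' hU hU' hm hp
    obtain ⟨h1, h2⟩ := hG U (L'.comap L.toLinearMap) hU hU' (by
      rw [← hm]
      refine le_antisymm ?_ ?_
      · rintro _ ⟨p, h, rfl⟩
        exact ⟨L p, h, congrArg Prod.fst (hL p)⟩
      · rintro _ ⟨p, h, rfl⟩
        exact ⟨M p, show L (M p) ∈ L' by simpa [hL, hM, hπ] using h, congrArg Prod.fst (hM p)⟩)
      (fun ν h => show L _ ∈ L' by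
        simpa only [hL, map_neg, map_sum, map_zsmul] using hp ν h)
    have h3 : finrank ℂ (W.map L.toLinearMap ⊓ L' : Submodule ℂ _) ≤
        finrank ℂ (W ⊓ L'.comap L.toLinearMap : Submodule ℂ _) := by
      rw [Submodule.map_inf_eq_map_inf_comap]
      exact Submodule.finrank_map_le _ _
    have h4 : L'.comap L.toLinearMap ≤ L'.map M.toLinearMap ⊔ ℂ ∙ ((0, v) : LG g (m + 1)) :=
      fun p h => by
        obtain ⟨c, hc⟩ := hy p.2
        refine Submodule.mem_sup.2 ⟨_, ⟨L p, h, rfl⟩, _, Submodule.mem_span_singleton.2 ⟨c, rfl⟩,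
          Prod.ext ?_ ?_⟩
        · simp [hL, hM]
        · simpa [hL, hM] using hc.symm
    have h5 := (Submodule.finrank_mono h4).trans
      (Submodule.finrank_add_le_finrank_add_finrank _ _)
    rw [finrank_span_singleton fun h => hv (congrArg Prod.snd h)] at h5
    have h6 := Submodule.finrank_map_le M.toLinearMap L'
    rw [hr]
    refine ⟨by omega, ?_⟩
    have h7 : q * (finrank ℂ (W.map L.toLinearMap ⊓ L' : Submodule ℂ _) +
        finrank ℂ (L'.comap L.toLinearMap)) ≤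
        q * (finrank ℂ (W ⊓ L'.comap L.toLinearMap : Submodule ℂ _) + finrank ℂ L' + 1) :=
      Nat.mul_le_mul_left _ (by omega)
    simp only [mul_add] at h2 h7 ⊢
    omega
  · obtain ⟨c, hc⟩ := hy (w j)
    have h1 := hΦ.1 j (M p)
    have h2 : M (p + (A.ω j, -π (w j))) + (0, (-c) • v) = M p + (A.ω j, -w j) := by
      rw [map_add, add_assoc, hM (A.ω j, _)]
      refine congrArg (M p + ·) (Prod.ext (add_zero _) ?_)
      show s (-π (w j)) + (-c) • v = -w j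
      rw [map_neg, neg_smul, ← neg_add, ← hc]
    rw [pb_apply, pb_apply, ← hinv _ (-c), h2, h1, hM]
  · obtain ⟨C, hC⟩ := hΦ.2 R
    refine ⟨|C|, fun z u hz => ?_⟩
    rw [pb_apply, hM]
    refine (hC z _ hz).trans ?_
    have := hs u
    have := norm_nonneg (s u)
    gcongr
    exact le_abs_self C
  · have h1 := hΦJ 0
    rw [Nat.cast_zero, zero_smul, Prod.mk_zero_zero, add_zero, ← e, jb_pb] at h1
    refine jb_span _ _ ?_ h1
    rintro ⟨_, p, hp, rfl⟩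
    exact Submodule.subset_span ⟨⟨p, hp⟩, rfl⟩

theorem ze_rank {X : Submodule ℂ (LG g m)} (hX : ∀ p ∈ X, p.1 = 0 → p = 0) :
    finrank ℂ (X.map (LinearMap.fst ℂ (Fin g → ℂ) (Fin m → ℂ))) = finrank ℂ X := by
  have h : Function.Injective ((LinearMap.fst ℂ (Fin g → ℂ) (Fin m → ℂ)) ∘ₗ X.subtype) :=
    (injective_iff_map_eq_zero _).2 fun p hp => Subtype.ext (hX p.1 p.2 hp)
  rw [← LinearMap.finrank_range_of_inj h, LinearMap.range_comp, Submodule.range_subtype]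

theorem ze_ar {q r m d u g f : ℕ} (h1 : r < f) (h : q * (r + m + d) + u * g ≤ q * (f + d) + u * d) :
    q * m + u * g ≤ q * (f - r) + u * d := by
  obtain ⟨ρ, rfl⟩ := Nat.exists_eq_add_of_le h1.le
  rw [Nat.add_sub_cancel_left]
  simp only [mul_add] at h
  omega

/-- Copy `zec_step'` with `ze_b` (`Kap B` from `rr_kap_b`).  If `tg H` has no vertical vector use
`GoodW` for `L = tg H`, `U = L.map fst` (`Fib.isSub`, `tg_flat`, `tg_per`, `z2d_rank`), `zb_pow`. -/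
theorem step_b (A : AbVar g N) (m q u c₀ : ℕ) (hq : 1 ≤ q) : ∃ K : ℕ, 1 ≤ K ∧
    ∀ (w : Fin (2 * g) → Fin m → ℂ) (W : Submodule ℂ (LG g m)) (D b t : ℕ) (Ψ : Ent (LG g m))
      (x : LG g m), Full A w → GoodW A q u w W → 1 ≤ finrank ℂ W → 1 ≤ D → 1 ≤ b →
      b ^ q ≤ c₀ * D ^ u → Ψ ∈ RR A w D b → Ψ ≠ 0 → JB (Subtype.val : W → _) t x Ψ →
      t ≤ K * D ∨ ∃ (v : Fin m → ℂ) (T : ℕ), v ≠ 0 ∧
        t ≤ (g + m) * T ∧ ∀ k : ℕ, JB (Subtype.val : W → _) T (x + (0, (k : ℂ) • v)) Ψ := by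
  obtain ⟨C₀, hC⟩ := exists_bi' A
  refine ⟨(g + m) * ((C₀ * (2 * (g + m) + 2) ^ (g + m)) ^ q * (c₀ + 1) ^ g + 2) + 1, by omega, ?_⟩
  intro w W D b t Ψ x hw hG h1 hD hb1 hbq hΨ h0 hJ
  obtain ⟨S, B, F, hR, hn, het⟩ := hC m w
  have hE : finrank ℂ (LG g m) = g + m := by simp only [LG, finrank_prod, finrank_fintype_fun_eq_card, Fintype.card_fin, Nat.add_left_cancel_iff]
  have hc : 1 ≤ g + m := h1.trans (hE ▸ Submodule.finrank_le W)
  generalize hK : (C₀ * (2 * (g + m) + 2) ^ (g + m)) ^ q * (c₀ + 1) ^ g = K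
  have ht : t ≤ (g + m) * ((t - 1) / (g + m) + 1) := by
    have := Nat.lt_mul_div_succ (t - 1) hc
    omega
  rcases Nat.eq_zero_or_pos ((t - 1) / (g + m)) with hT | hT
  · left
    rw [hT] at ht
    calc t ≤ (g + m) * (0 + 1) := ht
      _ ≤ (g + m) * (K + 2) + 1 := Nat.le_succ_of_le (Nat.mul_le_mul_left _ (Nat.le_add_left 1 (K + 1)))
      _ ≤ _ := Nat.le_mul_of_pos_right _ hD
  have ht1 : finrank ℂ (LG g m) * ((t - 1) / (g + m)) + 1 ≤ t := by
    have h2 := Nat.mul_div_le (t - 1) (g + m)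
    have h3 : 0 < (g + m) * ((t - 1) / (g + m)) := Nat.mul_pos hc hT
    rw [hE]
    omega
  have hk : Kap B := fun a b u hu Φ hΦ y l => by
    rw [hR] at hu hΦ ⊢
    exact rr_kap_b hΦ hu y l
  obtain ⟨H, hH, htop, hd, hjet, hiso⟩ :=
    ze_b B hk hE W hD hT hb1 (by rw [hR]; exact hΨ) h0 (Jet.mono _ _ _ ht1 hJ)
  by_cases hb : ∀ p ∈ S.tg H, p.1 = 0 → p = 0
  · left
    obtain ⟨S₀, hS₀, hcard, hbas⟩ := exists_base hH hd (fun i => (Sum.inl (some i) : Vr N m))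
      fun v hv h => hb v hv (het v h)
    have h2 := hiso S₀ hbas hcard fun i hi => by
      obtain ⟨j, rfl⟩ := hS₀ i hi
      exact hn j
    obtain ⟨g1, g2⟩ := hG _ _ (F.isSub hH hd) (tg_flat hw F hH hd htop hb).1 rfl (tg_per F hH)
    have g3 := Submodule.finrank_le
      ((S.tg H).map (LinearMap.fst ℂ (Fin g → ℂ) (Fin m → ℂ)))
    rw [ze_rank hb] at g2 g3
    have h3 := zb_pow hq (by omega) hD hb1 (by simpa only [finrank_fintype_fun_eq_card, Fintype.card_fin] using g3) h2 hbq (ze_ar g1 g2)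
    rw [hK] at h3
    calc t ≤ (g + m) * ((t - 1) / (g + m) + 1) := ht
      _ ≤ (g + m) * ((K + 1) * D + D) := Nat.mul_le_mul_left _ (Nat.add_le_add h3 hD)
      _ = (g + m) * (K + 2) * D := by ring
      _ ≤ _ := Nat.mul_le_mul_right _ (Nat.le_succ _)
  · right
    push Not at hb
    obtain ⟨p, hp, hp1, hp0⟩ := hb
    refine ⟨p.2, _, fun h => hp0 (Prod.ext hp1 h), ht, fun k => ?_⟩
    have h2 := hjet _ (S.tg_subset hH ((S.tg H).smul_mem (k : ℂ) hp))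
    have e : (k : ℂ) • p + x = x + (0, (k : ℂ) • p.2) := by
      rw [add_comm]
      congr 1
      exact Prod.ext (by simp [hp1]) rfl
    rwa [e] at h2

theorem zero_b (A : AbVar g N) (m q u c₀ : ℕ) (hq : 1 ≤ q) : ∃ C : ℕ, 1 ≤ C ∧
    ∀ (w : Fin (2 * g) → Fin m → ℂ) (W : Submodule ℂ (LG g m)) (D b t : ℕ) (Ψ : Ent (LG g m))
      (x : LG g m), Full A w → (∀ p ∈ W, p.1 = 0 → p = 0) → GoodW A q u w W → 1 ≤ finrank ℂ W →
      1 ≤ D → 1 ≤ b → b ^ q ≤ c₀ * D ^ u → Ψ ∈ RR A w D b → Ψ ≠ 0 →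
      JB (Subtype.val : W → _) t x Ψ → t ≤ C * D := by
  induction m with
  | zero =>
    obtain ⟨K, hK, h⟩ := step_b A 0 q u c₀ hq
    refine ⟨K, hK, fun w W D b t Ψ x hw _ hG h1 hD hb hbq hΨ h0 hJ => ?_⟩
    rcases h w W D b t Ψ x hw hG h1 hD hb hbq hΨ h0 hJ with h2 | ⟨v, T, hv, -⟩
    · exact h2
    · exact absurd (Subsingleton.elim _ _) hv
  | succ m ih =>
    obtain ⟨C, -, ih⟩ := ih
    obtain ⟨K, hK, h⟩ := step_b A (m + 1) q u c₀ hq
    refine ⟨K + (g + (m + 1)) * C, by omega,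
      fun w W D b t Ψ x hw hW hG h1 hD hb hbq hΨ h0 hJ => ?_⟩
    rcases h w W D b t Ψ x hw hG h1 hD hb hbq hΨ h0 hJ with h2 | ⟨v, T, hv, ht, hT⟩
    · exact h2.trans (Nat.mul_le_mul_right _ (Nat.le_add_right _ _))
    · obtain ⟨w', W', Ψ', x', hw', hW', hG', hr, hΨ', h0', hJ'⟩ := descend_b hw hW hG hΨ h0 hv hT
      have h3 := ih w' W' D b T Ψ' x' hw' hW' hG' (by omega) hD hb hbq hΨ' h0' hJ'
      calc t ≤ (g + (m + 1)) * T := ht
        _ ≤ (g + (m + 1)) * (C * D) := Nat.mul_le_mul_left _ h3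
        _ ≤ _ := by nlinarith only []

end GPC33
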